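import Mathlib

/-!
Hypersurface germs in complex space of any dimension, the blow-up of the origin, the exceptional
variety, and topological equisingularity of germs.
-/

set_option autoImplicit false

namespace Pool.Agent.Hhelper97.NodeBlow

/-- complex projective space of dimension `k + 2`: the lines through the origin of complex space of
dimension `k + 3` -/
abbrev Pr (k : ℕ) : Type := Projectivization ℂ (Fin (k + 3) → ℂ)

/-- complex projective space carries the quotient topology -/
noncomputable instance (k : ℕ) : TopologicalSpace (Pr k) :=
  TopologicalSpace.coinduced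
    (fun v : {v : Fin (k + 3) → ℂ // v ≠ 0} => Projectivization.mk ℂ v.1 v.2) inferInstance

/-- the zero set of a polynomial in complex space -/
def zeros {k : ℕ} (F : MvPolynomial (Fin (k + 3)) ℂ) : Set (Fin (k + 3) → ℂ) :=
  {p | MvPolynomial.eval p F = 0}

/-- The proper transform of the zero set of `F` under the blow-up of the origin.  The blow-up of the
origin is the set of pairs `(p, ℓ)` of a point and a line through the origin with `p ∈ ℓ`; the part
of the total transform off the exceptional divisor consists of the pairs `(p, [p])` with `p ≠ 0` in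
the zero set, and the proper transform is its closure. -/
def properTransform {k : ℕ} (F : MvPolynomial (Fin (k + 3)) ℂ) :
    Set ((Fin (k + 3) → ℂ) × Pr k) :=
  closure {q | ∃ h : q.1 ≠ 0, q.1 ∈ zeros F ∧ q.2 = Projectivization.mk ℂ q.1 h}

/-- The exceptional variety: the points of the proper transform over the origin. -/
def exc {k : ℕ} (F : MvPolynomial (Fin (k + 3)) ℂ) : Set (Pr k) :=
  {ℓ | ((0 : Fin (k + 3) → ℂ), ℓ) ∈ properTransform F}

/-- Topological equisingularity of the germ of `A` at `x` and of the germ of `B` at `y`: a
homeomorphism `h` from an open neighbourhood of `x` onto an open neighbourhood of `y` with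
`h x = y` carries `A` to `B`. -/
def TopEquisingular {X Y : Type} [TopologicalSpace X] [TopologicalSpace Y] (A : Set X) (x : X)
    (B : Set Y) (y : Y) : Prop :=
  ∃ h : OpenPartialHomeomorph X Y, x ∈ h.source ∧ h x = y ∧ ∀ u ∈ h.source, u ∈ A ↔ h u ∈ B

open MvPolynomial in
/-- The polynomials `F_t = x y ^ (n + 3) + z ^ (n + 5) + t y ^ (n + 2) z ^ 2` in the coordinates
`x = X 0`, `y = X 1`, `z = X 2` of complex space of dimension `k + 3`. -/
noncomputable def FF (k n : ℕ) (t : ℂ) : MvPolynomial (Fin (k + 3)) ℂ :=
  X 0 * X 1 ^ (n + 3) + X 2 ^ (n + 5) + C t * (X 1 ^ (n + 2) * X 2 ^ 2)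

end Pool.Agent.Hhelper97.NodeBlow
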