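import Pool.Agent.Hhelper97.NodeBlow.Defs

/-!
The weighted homogeneous polynomials of the family.
-/

set_option autoImplicit false

namespace Pool.Agent.Hhelper97.NodeBlow

open MvPolynomial in
/-- The polynomials
`f_t = x y ^ (n + 3) + t y ^ (n + 2) z ^ 2 + x ^ ((2 n + 5) (n + 2)) + ∑ w_j ^ (2 n + 5)` in the
coordinates `x = X 0`, `y = X 1`, `w_0 = z = X 2` and `w_j = X (j + 2)`, `j = 0, …, k`, of complex
space of dimension `k + 3`. -/
noncomputable def FI (k n : ℕ) (t : ℂ) : MvPolynomial (Fin (k + 3)) ℂ :=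
  X 0 * X 1 ^ (n + 3) + C t * (X 1 ^ (n + 2) * X 2 ^ 2) + X 0 ^ ((2 * n + 5) * (n + 2)) +
    ∑ j : Fin (k + 1), X j.succ.succ ^ (2 * n + 5)

/-- the weights: `1` for `x`, `2 n + 3` for `y` and `n + 2` for all other coordinates -/
def wt (k n : ℕ) (i : Fin (k + 3)) : ℕ := if i = 0 then 1 else if i = 1 then 2 * n + 3 else n + 2

end Pool.Agent.Hhelper97.NodeBlow
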