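import Pool.Agent.Hhelper97.NodeBlow.Defs

/-!
The weighted homogeneous polynomials of multiplicity three.
-/

set_option autoImplicit false

namespace Pool.Agent.Hhelper97.NodeBlow

open MvPolynomial in
/-- The polynomials `f_t = x y ^ 2 + t y z ^ 2 + z ^ 3 w_0 + x ^ 7 + ∑ w_j ^ 7` in the coordinates
`x = X 0`, `y = X 1`, `z = X 2` and `w_j = X (j + 3)`, `j = 0, …, k`, of complex space of dimension
`k + 4`. -/
noncomputable def FM (k : ℕ) (t : ℂ) : MvPolynomial (Fin (k + 1 + 3)) ℂ :=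
  X 0 * X 1 ^ 2 + C t * (X 1 * X 2 ^ 2) + X 2 ^ 3 * X 3 + X 0 ^ 7 +
    ∑ j : Fin (k + 1), X j.succ.succ.succ ^ 7

/-- the weights: `3` for `y`, `2` for `z` and `1` for all other coordinates -/
def wtM (k : ℕ) (i : Fin (k + 1 + 3)) : ℕ := if i = 1 then 3 else if i = 2 then 2 else 1

end Pool.Agent.Hhelper97.NodeBlow
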