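import Pool.Agent.Hhelper97.NodeBlow.PolyI

/-!
The exceptional varieties of the weighted homogeneous family.
-/

set_option autoImplicit false

open Filter Topology Finset MvPolynomial

namespace Pool.Agent.Hhelper97.NodeBlow

variable {k : ℕ}

theorem prod_norm_gt {δ : ℝ} (hδ : 0 ≤ δ) (s : Multiset ℂ) (h : ∀ r ∈ s, δ < ‖r‖) :
    δ ^ Multiset.card s ≤ (s.map (fun r => ‖r‖)).prod ∧
      (s ≠ 0 → δ ^ Multiset.card s < (s.map (fun r => ‖r‖)).prod) := by
  induction s using Multiset.induction_on with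
  | empty => simp
  | cons a s ih =>
    have h1 := ih (fun r hr => h r (Multiset.mem_cons_of_mem hr))
    have h2 := h a (Multiset.mem_cons_self a s)
    have h3 : δ ^ Multiset.card (a ::ₘ s) < ((a ::ₘ s).map (fun r => ‖r‖)).prod := by
      rw [Multiset.card_cons, Multiset.map_cons, Multiset.prod_cons, pow_succ']
      have h4 : 0 < ‖a‖ := lt_of_le_of_lt hδ h2
      by_cases hs : s = 0
      · subst hs
        simpa using h2
      · have h5 := h1.2 hs
        calc δ * δ ^ Multiset.card s ≤ ‖a‖ * δ ^ Multiset.card s :=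
              mul_le_mul_of_nonneg_right h2.le (by positivity)
          _ < ‖a‖ * (s.map (fun r => ‖r‖)).prod := mul_lt_mul_of_pos_left h5 h4
    exact ⟨h3.le, fun _ => h3⟩

/-- a monic polynomial with a small constant term has a small root -/
theorem small_root {P : Polynomial ℂ} (hP : P.Monic) (hd : 0 < P.natDegree) {δ : ℝ}
    (hδ : 0 ≤ δ) (h : ‖P.eval 0‖ ≤ δ ^ P.natDegree) : ∃ r, P.eval r = 0 ∧ ‖r‖ ≤ δ := by
  by_contra hcon
  push Not at hcon
  have hs := IsAlgClosed.splits P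
  have hcard : Multiset.card P.roots = P.natDegree := hs.natDegree_eq_card_roots.symm
  have h1 : ∀ r ∈ P.roots, δ < ‖r‖ := by
    intro r hr
    exact hcon r (Polynomial.isRoot_of_mem_roots hr)
  have h2 := (prod_norm_gt hδ P.roots h1).2 (by
    intro h0
    rw [h0, Multiset.card_zero] at hcard
    omega)
  have h3 : P.eval 0 = (P.roots.map (fun r => -r)).prod := by
    conv_lhs => rw [hs.eq_prod_roots_of_monic hP]
    rw [Polynomial.eval_multiset_prod, Multiset.map_map]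
    congr 1
    apply Multiset.map_congr rfl
    intro r _
    simp
  have h4 : ‖P.eval 0‖ = (P.roots.map (fun r => ‖r‖)).prod := by
    rw [h3]
    have : ‖(P.roots.map (fun r => -r)).prod‖ =
        ((P.roots.map (fun r => -r)).map (fun r => ‖r‖)).prod :=
      map_multiset_prod (normHom : ℂ →*₀ ℝ) _
    rw [this, Multiset.map_map]
    congr 1
    apply Multiset.map_congr rfl
    intro r _
    simp
  rw [h4, ← hcard] at h
  linarith

/-- a vector is approximated by secants -/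
def Near (F : MvPolynomial (Fin (k + 3)) ℂ) (v : Fin (k + 3) → ℂ) : Prop :=
  ∀ r : ℝ, 0 < r → ∃ (v' : Fin (k + 3) → ℂ) (l : ℂ), v' ≠ 0 ∧ ‖v' - v‖ < r ∧ l ≠ 0 ∧ ‖l‖ < r ∧
    l • v' ∈ zeros F

theorem mem_exc_of_near {F : MvPolynomial (Fin (k + 3)) ℂ} {v : Fin (k + 3) → ℂ} (hv : v ≠ 0)
    (h : Near F v) : Projectivization.mk ℂ v hv ∈ exc F := by
  change ((0 : Fin (k + 3) → ℂ), _) ∈ properTransform F
  have hc : Continuous (fun q : ℂ × {v : Fin (k + 3) → ℂ // v ≠ 0} =>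
      ((q.1 • q.2.1, pj k q.2) : (Fin (k + 3) → ℂ) × Pr k)) := by
    apply Continuous.prodMk
    · exact continuous_fst.smul (continuous_subtype_val.comp continuous_snd)
    · exact (quot_pj k).continuous.comp continuous_snd
  have hx : ((0 : ℂ), (⟨v, hv⟩ : {v : Fin (k + 3) → ℂ // v ≠ 0})) ∈ closure
      {q : ℂ × {v : Fin (k + 3) → ℂ // v ≠ 0} | q.1 ≠ 0 ∧ q.1 • q.2.1 ∈ zeros F} := by
    rw [Metric.mem_closure_iff]
    intro r hr
    obtain ⟨v', l, hv', h1, hl, h2, h3⟩ := h r hr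
    refine ⟨(l, ⟨v', hv'⟩), ⟨hl, h3⟩, ?_⟩
    rw [Prod.dist_eq]
    apply max_lt
    · simp only
      rw [dist_comm, dist_zero_right]
      exact h2
    · rw [Subtype.dist_eq]
      simp only
      rw [dist_comm, dist_eq_norm]
      exact h1
  have hm := map_mem_closure hc hx (t := {q : (Fin (k + 3) → ℂ) × Pr k | ∃ h : q.1 ≠ 0,
      q.1 ∈ zeros F ∧ q.2 = Projectivization.mk ℂ q.1 h}) (by
    rintro ⟨l, v'⟩ ⟨hl, hz⟩
    refine ⟨smul_ne_zero hl v'.2, hz, ?_⟩
    unfold pj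
    rw [Projectivization.mk_eq_mk_iff']
    refine ⟨l⁻¹, ?_⟩
    simp only
    rw [smul_smul, inv_mul_cancel₀ hl, one_smul])
  rw [zero_smul] at hm
  exact hm

/-! ### The points of the zero set of the leading form are limits of secants -/

/-- the sum of the powers of the last coordinates -/
noncomputable def BB (k n : ℕ) (v : Fin (k + 3) → ℂ) : ℂ :=
  ∑ j : Fin (k + 1), v j.succ.succ ^ (2 * n + 5)

theorem eval_smul (n : ℕ) (t l : ℂ) (v : Fin (k + 3) → ℂ) : eval (l • v) (FI k n t) =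
    l ^ (n + 4) * (Gv k n t v + l ^ (dg n - (n + 4)) * v 0 ^ dg n + l ^ (n + 1) * BB k n v) := by
  have hd := dg_ge n
  rw [eval_FI, Gv_smul]
  have h1 : rest k n (l • v) = l ^ dg n * v 0 ^ dg n + l ^ (2 * n + 5) * BB k n v := by
    unfold rest BB
    simp only [Pi.smul_apply, smul_eq_mul, mul_pow]
    rw [← Finset.mul_sum]
  have h2 : l ^ dg n = l ^ (n + 4) * l ^ (dg n - (n + 4)) := by
    rw [← pow_add]
    congr 1
    omega
  have h3 : l ^ (2 * n + 5) = l ^ (n + 4) * l ^ (n + 1) := by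
    rw [← pow_add]
    congr 1
    omega
  rw [h1, h2, h3]
  ring

theorem BB_update_zero (n : ℕ) (v : Fin (k + 3) → ℂ) (x : ℂ) :
    BB k n (Function.update v 0 x) = BB k n v := by
  unfold BB
  refine Finset.sum_congr rfl (fun j _ => ?_)
  rw [Function.update_of_ne (ss_ne_zero j)]

theorem BB_update_one (n : ℕ) (v : Fin (k + 3) → ℂ) (x : ℂ) :
    BB k n (Function.update v 1 x) = BB k n v := by
  unfold BB
  refine Finset.sum_congr rfl (fun j _ => ?_)
  rw [Function.update_of_ne (ss_ne_one j)]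

theorem norm_update_sub {v : Fin (k + 3) → ℂ} {i : Fin (k + 3)} {x : ℂ} {r : ℝ} (hr : 0 < r)
    (h : ‖x - v i‖ < r) : ‖Function.update v i x - v‖ < r := by
  rw [pi_norm_lt_iff hr]
  intro j
  rw [Pi.sub_apply]
  by_cases hj : j = i
  · subst hj
    rw [Function.update_self]
    exact h
  · rw [Function.update_of_ne hj, sub_self, norm_zero]
    exact hr

theorem near_of_y {n : ℕ} {t : ℂ} {v : Fin (k + 3) → ℂ} (hy : v 1 ≠ 0)
    (h0 : Gv k n t v = 0) : Near (FI k n t) v := by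
  intro r hr
  have hd := dg_ge n
  obtain ⟨M, hM1, hMb, hMl⟩ := WHTriv.lip_of_contDiff
    (isCompact_closedBall (0 : ℂ) 1) (g := fun ξ : ℂ => (v 0 + ξ) ^ dg n)
    (fun ξ _ => ((contDiff_const.add contDiff_id).pow (dg n)).contDiffAt)
  obtain ⟨a, ha⟩ : ∃ a, a = v 1 ^ (n + 3) := ⟨_, rfl⟩
  have ha0 : a ≠ 0 := by rw [ha]; exact pow_ne_zero _ hy
  have han : 0 < ‖a‖ := norm_pos_iff.2 ha0
  obtain ⟨r', hr'⟩ : ∃ r', r' = min (1 / 2) (r / 2) := ⟨_, rfl⟩
  have hr'0 : 0 < r' := by rw [hr']; positivity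
  have hr'1 : r' ≤ 1 / 2 := by rw [hr']; exact min_le_left _ _
  have hr'2 : r' ≤ r / 2 := by rw [hr']; exact min_le_right _ _
  obtain ⟨C', hC'⟩ : ∃ C', C' = (‖BB k n v‖ + M) / ‖a‖ := ⟨_, rfl⟩
  have hC'0 : 0 < C' := by rw [hC']; positivity
  obtain ⟨s, hs⟩ : ∃ s : ℝ, s = min r' (r' / C') := ⟨_, rfl⟩
  have hs0 : 0 < s := by rw [hs]; positivity
  have hs1 : s ≤ r' := by rw [hs]; exact min_le_left _ _
  have hs2 : s * C' ≤ r' := by
    have : s ≤ r' / C' := by rw [hs]; exact min_le_right _ _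
    rwa [le_div_iff₀ hC'0] at this
  have hs3 : s * (‖BB k n v‖ + M) ≤ r' * ‖a‖ := by
    rw [hC', mul_div_assoc', div_le_iff₀ han] at hs2
    exact hs2
  have hsn : ‖(s : ℂ)‖ = s := by rw [Complex.norm_real, Real.norm_eq_abs, abs_of_pos hs0]
  have hsp : ∀ m : ℕ, ‖(s : ℂ) ^ (m + 1)‖ ≤ s := by
    intro m
    rw [norm_pow, hsn]
    exact pow_le_of_le_one hs0.le (by linarith) (by omega)
  have hsd : ‖(s : ℂ) ^ (dg n - (n + 4))‖ ≤ s := by
    obtain ⟨m, hm⟩ : ∃ m, dg n - (n + 4) = m + 1 := ⟨dg n - (n + 4) - 1, by omega⟩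
    rw [hm]
    exact hsp m
  obtain ⟨ξ, hξ, hfix⟩ := WHTriv.exists_fix
    (T := fun ξ : ℂ => -((s : ℂ) ^ (dg n - (n + 4)) * (v 0 + ξ) ^ dg n +
      (s : ℂ) ^ (n + 1) * BB k n v) / a) (c := 0) hr'0.le (by
      intro ξ hξ
      rw [mem_closedBall_zero_iff] at hξ ⊢
      have hξ1 : ξ ∈ Metric.closedBall (0 : ℂ) 1 := by
        rw [mem_closedBall_zero_iff]
        linarith
      rw [norm_div, norm_neg, div_le_iff₀ han]
      calc _ ≤ ‖(s : ℂ) ^ (dg n - (n + 4)) * (v 0 + ξ) ^ dg n‖ +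
            ‖(s : ℂ) ^ (n + 1) * BB k n v‖ := norm_add_le _ _
        _ ≤ s * M + s * ‖BB k n v‖ := by
            rw [norm_mul, norm_mul]
            apply add_le_add
            · exact mul_le_mul hsd (hMb ξ hξ1) (norm_nonneg _) hs0.le
            · exact mul_le_mul_of_nonneg_right (hsp n) (norm_nonneg _)
        _ = s * (‖BB k n v‖ + M) := by ring
        _ ≤ r' * ‖a‖ := hs3) (by
      intro ξ hξ ξ' hξ'
      rw [mem_closedBall_zero_iff] at hξ hξ'
      have hξ1 : ξ ∈ Metric.closedBall (0 : ℂ) 1 := by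
        rw [mem_closedBall_zero_iff]
        linarith
      have hξ1' : ξ' ∈ Metric.closedBall (0 : ℂ) 1 := by
        rw [mem_closedBall_zero_iff]
        linarith
      have h1 : -((s : ℂ) ^ (dg n - (n + 4)) * (v 0 + ξ) ^ dg n +
          (s : ℂ) ^ (n + 1) * BB k n v) / a - -((s : ℂ) ^ (dg n - (n + 4)) *
            (v 0 + ξ') ^ dg n + (s : ℂ) ^ (n + 1) * BB k n v) / a =
          -((s : ℂ) ^ (dg n - (n + 4)) * ((v 0 + ξ) ^ dg n - (v 0 + ξ') ^ dg n)) / a := by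
        ring
      rw [h1, norm_div, norm_neg, norm_mul, div_le_iff₀ han]
      have h2 := hMl ξ hξ1 ξ' hξ1'
      have h3 : s * M ≤ 1 / 2 * ‖a‖ := by
        have h4 : s * M ≤ s * (‖BB k n v‖ + M) :=
          mul_le_mul_of_nonneg_left (by linarith [norm_nonneg (BB k n v)]) hs0.le
        have h5 : r' * ‖a‖ ≤ 1 / 2 * ‖a‖ := mul_le_mul_of_nonneg_right hr'1 han.le
        linarith
      calc _ ≤ s * (M * ‖ξ - ξ'‖) := mul_le_mul hsd h2 (norm_nonneg _) hs0.le
        _ = (s * M) * ‖ξ - ξ'‖ := by ring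
        _ ≤ (1 / 2 * ‖a‖) * ‖ξ - ξ'‖ := mul_le_mul_of_nonneg_right h3 (norm_nonneg _)
        _ = 1 / 2 * ‖ξ - ξ'‖ * ‖a‖ := by ring)
  rw [mem_closedBall_zero_iff] at hξ
  refine ⟨Function.update v 0 (v 0 + ξ), s, ?_, ?_, ?_, ?_, ?_⟩
  · intro h
    have := congrFun h 1
    rw [Function.update_of_ne m01.symm] at this
    exact hy this
  · apply norm_update_sub hr
    rw [add_sub_cancel_left]
    linarith
  · exact Complex.ofReal_ne_zero.2 hs0.ne'
  · rw [hsn]
    linarith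
  · change eval _ (FI k n t) = 0
    rw [eval_smul, BB_update_zero, Function.update_self]
    have h1 : Gv k n t (Function.update v 0 (v 0 + ξ)) = a * ξ := by
      unfold Gv at h0 ⊢
      rw [Function.update_self, Function.update_of_ne m01.symm, Function.update_of_ne m02.symm,
        ha]
      linear_combination h0
    have h2 : a * ξ = -((s : ℂ) ^ (dg n - (n + 4)) * (v 0 + ξ) ^ dg n +
        (s : ℂ) ^ (n + 1) * BB k n v) := by
      have h3 : a * (-((s : ℂ) ^ (dg n - (n + 4)) * (v 0 + ξ) ^ dg n +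
          (s : ℂ) ^ (n + 1) * BB k n v) / a) = a * ξ := congrArg (fun z => a * z) hfix
      rw [mul_div_cancel₀ _ ha0] at h3
      exact h3.symm
    rw [h1, h2]
    ring

theorem near_of_x {n : ℕ} {t : ℂ} {v : Fin (k + 3) → ℂ} (hy : v 1 = 0) (hx : v 0 ≠ 0) :
    Near (FI k n t) v := by
  intro r hr
  have hd := dg_ge n
  have hxn : 0 < ‖v 0‖ := norm_pos_iff.2 hx
  obtain ⟨A, hA⟩ : ∃ A, A = (‖v 0‖ ^ dg n + ‖BB k n v‖) / ‖v 0‖ + 1 := ⟨_, rfl⟩
  have hA0 : 0 < A := by rw [hA]; positivity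
  obtain ⟨s, hs⟩ : ∃ s : ℝ, s = min (min 1 (r / 2)) ((r / 2) ^ (n + 3) / A) := ⟨_, rfl⟩
  have hs0 : 0 < s := by rw [hs]; positivity
  have hs1 : s ≤ 1 := by rw [hs]; exact (min_le_left _ _).trans (min_le_left _ _)
  have hs2 : s ≤ r / 2 := by rw [hs]; exact (min_le_left _ _).trans (min_le_right _ _)
  have hs3 : s * A ≤ (r / 2) ^ (n + 3) := by
    have : s ≤ (r / 2) ^ (n + 3) / A := by rw [hs]; exact min_le_right _ _
    rwa [le_div_iff₀ hA0] at this
  have hsn : ‖(s : ℂ)‖ = s := by rw [Complex.norm_real, Real.norm_eq_abs, abs_of_pos hs0]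
  have hsp : ∀ m : ℕ, ‖(s : ℂ) ^ (m + 1)‖ ≤ s := by
    intro m
    rw [norm_pow, hsn]
    exact pow_le_of_le_one hs0.le hs1 (by omega)
  have hsd : ‖(s : ℂ) ^ (dg n - (n + 4))‖ ≤ s := by
    obtain ⟨m, hm⟩ : ∃ m, dg n - (n + 4) = m + 1 := ⟨dg n - (n + 4) - 1, by omega⟩
    rw [hm]
    exact hsp m
  obtain ⟨c, hc⟩ : ∃ c, c = (s : ℂ) ^ (dg n - (n + 4)) * v 0 ^ dg n +
      (s : ℂ) ^ (n + 1) * BB k n v := ⟨_, rfl⟩
  have hcn : ‖c / v 0‖ ≤ (r / 2) ^ (n + 3) := by
    rw [norm_div, div_le_iff₀ hxn]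
    have h1 : ‖c‖ ≤ s * (‖v 0‖ ^ dg n + ‖BB k n v‖) := by
      rw [hc]
      calc _ ≤ _ := norm_add_le _ _
        _ ≤ s * ‖v 0‖ ^ dg n + s * ‖BB k n v‖ := by
            rw [norm_mul, norm_mul, norm_pow (v 0)]
            apply add_le_add
            · exact mul_le_mul_of_nonneg_right hsd (by positivity)
            · exact mul_le_mul_of_nonneg_right (hsp n) (norm_nonneg _)
        _ = _ := by ring
    have h2 : s * (‖v 0‖ ^ dg n + ‖BB k n v‖) ≤ s * A * ‖v 0‖ := by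
      have h3 : ‖v 0‖ ^ dg n + ‖BB k n v‖ ≤ A * ‖v 0‖ := by
        rw [hA, add_mul, div_mul_cancel₀ _ hxn.ne']
        linarith
      rw [mul_assoc]
      exact mul_le_mul_of_nonneg_left h3 hs0.le
    have h4 : s * A * ‖v 0‖ ≤ (r / 2) ^ (n + 3) * ‖v 0‖ :=
      mul_le_mul_of_nonneg_right hs3 hxn.le
    linarith
  obtain ⟨P, hP⟩ : ∃ P : Polynomial ℂ, P = Polynomial.X ^ (n + 3) +
      (Polynomial.C (t * v 2 ^ 2 / v 0) * Polynomial.X ^ (n + 2) + Polynomial.C (c / v 0)) :=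
    ⟨_, rfl⟩
  have hdeg : (Polynomial.C (t * v 2 ^ 2 / v 0) * Polynomial.X ^ (n + 2) +
      Polynomial.C (c / v 0)).degree < ((n + 3 : ℕ) : WithBot ℕ) := by
    apply lt_of_le_of_lt (Polynomial.degree_add_le _ _)
    apply max_lt
    · exact lt_of_le_of_lt (Polynomial.degree_C_mul_X_pow_le _ _)
        (by exact_mod_cast Nat.lt_succ_self (n + 2))
    · exact lt_of_le_of_lt Polynomial.degree_C_le (by exact_mod_cast Nat.succ_pos (n + 2))
  have hmonic : P.Monic := by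
    rw [hP]
    exact Polynomial.monic_X_pow_add hdeg
  have hnat : P.natDegree = n + 3 := by
    rw [hP]
    apply Polynomial.natDegree_eq_of_degree_eq_some
    rw [Polynomial.degree_add_eq_left_of_degree_lt]
    · exact Polynomial.degree_X_pow _
    · rw [Polynomial.degree_X_pow]
      exact hdeg
  have he0 : P.eval 0 = c / v 0 := by
    rw [hP]
    simp
  obtain ⟨η, hη, hηn⟩ := small_root hmonic (by omega) (δ := r / 2) (by positivity) (by
    rw [hnat, he0]
    exact hcn)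
  have hη' : v 0 * η ^ (n + 3) + t * v 2 ^ 2 * η ^ (n + 2) + c = 0 := by
    rw [hP] at hη
    simp only [Polynomial.eval_add, Polynomial.eval_pow, Polynomial.eval_X, Polynomial.eval_mul,
      Polynomial.eval_C] at hη
    have h1 : v 0 * (η ^ (n + 3) + (t * v 2 ^ 2 / v 0 * η ^ (n + 2) + c / v 0)) = 0 := by
      rw [hη, mul_zero]
    have h2 : v 0 * (η ^ (n + 3) + (t * v 2 ^ 2 / v 0 * η ^ (n + 2) + c / v 0)) =
        v 0 * η ^ (n + 3) + t * v 2 ^ 2 * η ^ (n + 2) + c := by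
      field_simp
      ring
    rw [← h2]
    exact h1
  refine ⟨Function.update v 1 η, s, ?_, ?_, ?_, ?_, ?_⟩
  · intro h
    have := congrFun h 0
    rw [Function.update_of_ne m01] at this
    exact hx this
  · apply norm_update_sub hr
    rw [hy, sub_zero]
    linarith
  · exact Complex.ofReal_ne_zero.2 hs0.ne'
  · rw [hsn]
    linarith
  · change eval _ (FI k n t) = 0
    rw [eval_smul, BB_update_one, Function.update_of_ne m01]
    have h1 : Gv k n t (Function.update v 1 η) =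
        v 0 * η ^ (n + 3) + t * v 2 ^ 2 * η ^ (n + 2) := by
      unfold Gv
      rw [Function.update_self, Function.update_of_ne m01, Function.update_of_ne m12.symm]
      ring
    rw [h1, add_assoc (v 0 * η ^ (n + 3) + t * v 2 ^ 2 * η ^ (n + 2)), ← hc, hη', mul_zero]

theorem near_of_zero {n : ℕ} {t : ℂ} {v : Fin (k + 3) → ℂ} (h0 : Gv k n t v = 0) :
    Near (FI k n t) v := by
  by_cases hy : v 1 = 0
  · by_cases hx : v 0 = 0
    · intro r hr
      have hr4 : ((r / 4 : ℝ) : ℂ) ≠ 0 := Complex.ofReal_ne_zero.2 (by positivity)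
      have h1 : Near (FI k n t) (Function.update v 0 ((r / 4 : ℝ) : ℂ)) := by
        apply near_of_x
        · rw [Function.update_of_ne m01.symm, hy]
        · rw [Function.update_self]
          exact hr4
      obtain ⟨v', l, hv', h2, hl, h3, h4⟩ := h1 (r / 2) (by positivity)
      refine ⟨v', l, hv', ?_, hl, by linarith, h4⟩
      have h5 : ‖Function.update v 0 ((r / 4 : ℝ) : ℂ) - v‖ < r / 2 := by
        apply norm_update_sub (by positivity)
        rw [hx, sub_zero, Complex.norm_real, Real.norm_eq_abs, abs_of_pos (by positivity)]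
        linarith
      have h6 : v' - v = (v' - Function.update v 0 ((r / 4 : ℝ) : ℂ)) +
          (Function.update v 0 ((r / 4 : ℝ) : ℂ) - v) := by abel
      rw [h6]
      calc _ ≤ _ := norm_add_le _ _
        _ < r / 2 + r / 2 := add_lt_add h2 h5
        _ = r := by ring
    · exact near_of_x hy hx
  · exact near_of_y hy h0

theorem rest_le {n : ℕ} {p : Fin (k + 3) → ℂ} (hp : ‖p‖ ≤ 1) :
    ‖rest k n p‖ ≤ (k + 2) * ‖p‖ ^ (n + 5) := by
  have hd := dg_ge n
  have h1 : ∀ (i : Fin (k + 3)) (a : ℕ), n + 5 ≤ a → ‖p i ^ a‖ ≤ ‖p‖ ^ (n + 5) := by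
    intro i a ha
    rw [norm_pow]
    calc ‖p i‖ ^ a ≤ ‖p‖ ^ a := pow_le_pow_left₀ (norm_nonneg _) (norm_le_pi_norm p i) _
      _ ≤ ‖p‖ ^ (n + 5) := pow_le_pow_of_le_one (norm_nonneg _) hp ha
  unfold rest
  have h2 : ‖∑ j : Fin (k + 1), p j.succ.succ ^ (2 * n + 5)‖ ≤ (k + 1) * ‖p‖ ^ (n + 5) := by
    calc _ ≤ ∑ j : Fin (k + 1), ‖p j.succ.succ ^ (2 * n + 5)‖ := norm_sum_le _ _
      _ ≤ ∑ _j : Fin (k + 1), ‖p‖ ^ (n + 5) := Finset.sum_le_sum (fun j _ => h1 _ _ (by omega))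
      _ = (k + 1) * ‖p‖ ^ (n + 5) := by
        rw [Finset.sum_const, Finset.card_univ, Fintype.card_fin, nsmul_eq_mul]
        push_cast
        ring
  calc _ ≤ _ := norm_add_le _ _
    _ ≤ ‖p‖ ^ (n + 5) + (k + 1) * ‖p‖ ^ (n + 5) := add_le_add (h1 0 _ (by omega)) h2
    _ = _ := by ring

theorem excI_subset {n : ℕ} {t : ℂ} {Q : Pr k} (hQ : Q ∈ exc (FI k n t)) :
    Gv k n t Q.rep = 0 := by
  have hcl : IsClosed {q : (Fin (k + 3) → ℂ) × Pr k | Phi n t q.2 ≤ (k + 2) * ‖q.1‖ ∨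
      1 ≤ ‖q.1‖} := by
    have h1 : IsClosed {q : (Fin (k + 3) → ℂ) × Pr k | Phi n t q.2 ≤ (k + 2) * ‖q.1‖} :=
      isClosed_le ((continuous_Phi).comp continuous_snd)
        (continuous_const.mul continuous_fst.norm)
    have h2 : IsClosed {q : (Fin (k + 3) → ℂ) × Pr k | 1 ≤ ‖q.1‖} :=
      isClosed_le continuous_const continuous_fst.norm
    exact h1.union h2
  have hsub : {q : (Fin (k + 3) → ℂ) × Pr k | ∃ h : q.1 ≠ 0, q.1 ∈ zeros (FI k n t) ∧
      q.2 = Projectivization.mk ℂ q.1 h} ⊆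
      {q : (Fin (k + 3) → ℂ) × Pr k | Phi n t q.2 ≤ (k + 2) * ‖q.1‖ ∨ 1 ≤ ‖q.1‖} := by
    rintro ⟨p, ℓ'⟩ ⟨h, hp, hl⟩
    simp only at h hp hl
    change Phi n t ℓ' ≤ (k + 2) * ‖p‖ ∨ 1 ≤ ‖p‖
    by_cases hp1 : 1 ≤ ‖p‖
    · exact Or.inr hp1
    left
    push Not at hp1
    rw [hl, Phi_mk]
    have h1 : eval p (FI k n t) = 0 := hp
    rw [eval_FI] at h1
    have h2 : Gv k n t p = -(rest k n p) := eq_neg_of_add_eq_zero_left h1
    have hp0 : 0 < ‖p‖ := norm_pos_iff.2 h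
    rw [h2, norm_neg, div_le_iff₀ (by positivity), mul_assoc, ← pow_succ']
    exact rest_le hp1.le
  have h3 : ((0 : Fin (k + 3) → ℂ), Q) ∈ {q : (Fin (k + 3) → ℂ) × Pr k |
      Phi n t q.2 ≤ (k + 2) * ‖q.1‖ ∨ 1 ≤ ‖q.1‖} :=
    closure_minimal hsub hcl hQ
  have h4 : Phi n t Q ≤ 0 := by
    rcases h3 with h3 | h3
    · have : Phi n t Q ≤ (k + 2) * ‖(0 : Fin (k + 3) → ℂ)‖ := h3
      rwa [norm_zero, mul_zero] at this
    · have : (1 : ℝ) ≤ ‖(0 : Fin (k + 3) → ℂ)‖ := h3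
      rw [norm_zero] at this
      linarith
  have hr : 0 < ‖Q.rep‖ := norm_pos_iff.2 Q.rep_nonzero
  unfold Phi at h4
  rw [div_le_iff₀ (by positivity), zero_mul] at h4
  exact norm_le_zero_iff.1 h4

theorem excI_eq (n : ℕ) (t : ℂ) : exc (FI k n t) = Ez k t := by
  ext Q
  constructor
  · intro h
    have h1 := excI_subset h
    rw [Gv_zero_iff] at h1
    exact h1
  · intro h
    have h1 : Gv k n t Q.rep = 0 := (Gv_zero_iff n t Q.rep).2 h
    have h2 := mem_exc_of_near Q.rep_nonzero (near_of_zero h1)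
    rwa [Q.mk_rep] at h2

end Pool.Agent.Hhelper97.NodeBlow
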