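import Pool.Agent.Hhelper97.NodeBlow.Proj

/-!
The exceptional varieties of the family are the zero sets of the leading forms.
-/

set_option autoImplicit false

open Filter Topology Finset MvPolynomial

namespace Pool.Agent.Hhelper97.NodeBlow

variable {k : ℕ}

/-- the leading form as a function of vectors -/
noncomputable def Gv (k n : ℕ) (t : ℂ) (v : Fin (k + 3) → ℂ) : ℂ :=
  v 1 ^ (n + 2) * (v 0 * v 1 + t * v 2 ^ 2)

theorem eval_FF (k n : ℕ) (t : ℂ) (p : Fin (k + 3) → ℂ) :
    eval p (FF k n t) = Gv k n t p + p 2 ^ (n + 5) := by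
  unfold FF Gv
  simp only [map_add, map_mul, map_pow, eval_X, eval_C]
  ring

theorem continuous_Gv (n : ℕ) (t : ℂ) : Continuous (Gv k n t) := by
  unfold Gv
  fun_prop

theorem Gv_smul (n : ℕ) (t : ℂ) (r : ℂ) (v : Fin (k + 3) → ℂ) :
    Gv k n t (r • v) = r ^ (n + 4) * Gv k n t v := by
  unfold Gv
  simp only [Pi.smul_apply, smul_eq_mul]
  ring

theorem Gv_zero_iff (n : ℕ) (t : ℂ) (v : Fin (k + 3) → ℂ) :
    Gv k n t v = 0 ↔ v 1 = 0 ∨ v 0 * v 1 + t * v 2 ^ 2 = 0 := by
  unfold Gv
  rw [mul_eq_zero, pow_eq_zero_iff (by omega)]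

/-- the normalised leading form -/
noncomputable def Phi (n : ℕ) (t : ℂ) (Q : Pr k) : ℝ := ‖Gv k n t Q.rep‖ / ‖Q.rep‖ ^ (n + 4)

theorem Phi_mk {n : ℕ} {t : ℂ} (v : Fin (k + 3) → ℂ) (hv : v ≠ 0) :
    Phi n t (Projectivization.mk ℂ v hv) = ‖Gv k n t v‖ / ‖v‖ ^ (n + 4) := by
  obtain ⟨a, ha, h1⟩ := rep_mk v hv
  unfold Phi
  rw [h1, Gv_smul, norm_mul, norm_pow, norm_smul, mul_pow]
  exact mul_div_mul_left _ _ (pow_ne_zero _ (norm_ne_zero_iff.2 ha))

theorem continuous_Phi {n : ℕ} {t : ℂ} : Continuous (Phi (k := k) n t) := by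
  rw [(quot_pj k).continuous_iff]
  have : Phi n t ∘ pj k = fun v => ‖Gv k n t v.1‖ / ‖v.1‖ ^ (n + 4) := by
    funext v
    exact Phi_mk v.1 v.2
  rw [this]
  apply Continuous.div
  · exact ((continuous_Gv n t).comp continuous_subtype_val).norm
  · exact (continuous_subtype_val.norm).pow _
  · intro v
    exact pow_ne_zero _ (norm_ne_zero_iff.2 v.2)

theorem exc_subset {n : ℕ} {t : ℂ} {Q : Pr k} (hQ : Q ∈ exc (FF k n t)) :
    Gv k n t Q.rep = 0 := by
  have hcl : IsClosed {q : (Fin (k + 3) → ℂ) × Pr k | Phi n t q.2 ≤ ‖q.1‖} :=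
    isClosed_le ((continuous_Phi).comp continuous_snd) continuous_fst.norm
  have hsub : {q : (Fin (k + 3) → ℂ) × Pr k | ∃ h : q.1 ≠ 0, q.1 ∈ zeros (FF k n t) ∧
      q.2 = Projectivization.mk ℂ q.1 h} ⊆
      {q : (Fin (k + 3) → ℂ) × Pr k | Phi n t q.2 ≤ ‖q.1‖} := by
    rintro ⟨p, ℓ'⟩ ⟨h, hp, hl⟩
    simp only at h hp hl
    change Phi n t ℓ' ≤ ‖p‖
    rw [hl, Phi_mk]
    have h1 : eval p (FF k n t) = 0 := hp
    rw [eval_FF] at h1
    have h2 : Gv k n t p = -(p 2 ^ (n + 5)) := eq_neg_of_add_eq_zero_left h1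
    have hp0 : 0 < ‖p‖ := norm_pos_iff.2 h
    rw [h2, norm_neg, norm_pow, div_le_iff₀ (by positivity), ← pow_succ']
    exact pow_le_pow_left₀ (norm_nonneg _) (norm_le_pi_norm p 2) _
  have h3 : ((0 : Fin (k + 3) → ℂ), Q) ∈
      {q : (Fin (k + 3) → ℂ) × Pr k | Phi n t q.2 ≤ ‖q.1‖} :=
    closure_minimal hsub hcl hQ
  have h4 : Phi n t Q ≤ 0 := by
    have : Phi n t Q ≤ ‖(0 : Fin (k + 3) → ℂ)‖ := h3
    rwa [norm_zero] at this
  have hr : 0 < ‖Q.rep‖ := norm_pos_iff.2 Q.rep_nonzero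
  unfold Phi at h4
  rw [div_le_iff₀ (by positivity), zero_mul] at h4
  exact norm_le_zero_iff.1 h4

/-- parametrisation of the proper transform in the chart where the coordinate `z` is one -/
noncomputable def par (n : ℕ) (t : ℂ) (w : Fin (k + 2) → ℂ) : (Fin (k + 3) → ℂ) × Pr k :=
  ((-(Gv k n t (ins 2 w))) • ins 2 w, Projectivization.mk ℂ (ins 2 w) (ins_ne 2 w))

theorem continuous_par (n : ℕ) (t : ℂ) : Continuous (par (k := k) n t) := by
  unfold par
  apply Continuous.prodMk
  · exact (((continuous_Gv n t).comp (continuous_ins 2)).neg).smul (continuous_ins 2)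
  · exact continuous_mk (continuous_ins 2) (ins_ne 2)

theorem par_mem_of_ne {n : ℕ} {t : ℂ} {w : Fin (k + 2) → ℂ} (h : Gv k n t (ins 2 w) ≠ 0) :
    par n t w ∈ properTransform (FF k n t) := by
  apply subset_closure
  have h1 : (-(Gv k n t (ins 2 w))) • ins 2 w ≠ 0 :=
    smul_ne_zero (neg_ne_zero.2 h) (ins_ne _ _)
  refine ⟨h1, ?_, ?_⟩
  · change eval _ (FF k n t) = 0
    rw [eval_FF]
    obtain ⟨u, hu⟩ : ∃ u, u = -(Gv k n t (ins 2 w)) := ⟨_, rfl⟩
    have h2 : Gv k n t (u • ins 2 w) = u ^ (n + 4) * -u := by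
      rw [Gv_smul, hu, neg_neg]
    have h3 : (u • ins 2 w) 2 = u := by
      rw [Pi.smul_apply, ins_same, smul_eq_mul, mul_one]
    change Gv k n t ((-(Gv k n t (ins 2 w))) • ins 2 w) +
      ((-(Gv k n t (ins 2 w))) • ins 2 w) 2 ^ (n + 5) = 0
    rw [← hu, h2, h3, pow_succ]
    ring
  · unfold par
    rw [Projectivization.mk_eq_mk_iff']
    refine ⟨(-(Gv k n t (ins 2 w)))⁻¹, ?_⟩
    simp only
    rw [smul_smul, inv_mul_cancel₀ (neg_ne_zero.2 h), one_smul]

theorem n01 : (0 : Fin (k + 2)) ≠ 1 := by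
  intro h
  have := congrArg Fin.val h
  simp at this

theorem par_mem {n : ℕ} {t : ℂ} (w : Fin (k + 2) → ℂ) :
    par n t w ∈ properTransform (FF k n t) := by
  -- first the points off the hyperplane
  have hA : ∀ w : Fin (k + 2) → ℂ, w 1 ≠ 0 → par n t w ∈ properTransform (FF k n t) := by
    intro w hP
    by_cases h : Gv k n t (ins 2 w) = 0
    · have hd : Dense ({w 0}ᶜ : Set ℂ) := dense_compl_singleton (w 0)
      have hx : w 0 ∈ closure ({w 0}ᶜ : Set ℂ) := hd (w 0)
      have hcu : Continuous (fun x : ℂ => Function.update w 0 x) :=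
        continuous_const.update 0 continuous_id
      have hm := map_mem_closure ((continuous_par n t).comp hcu) hx
        (t := properTransform (FF k n t)) (by
          intro x' hx'
          apply par_mem_of_ne
          intro h'
          change Gv k n t (ins 2 (Function.update w 0 x')) = 0 at h'
          have h2 : Gv k n t (ins 2 (Function.update w 0 x')) - Gv k n t (ins 2 w) =
              (x' - w 0) * w 1 ^ (n + 3) := by
            unfold Gv
            rw [ins_two_zero, ins_two_one, ins_two_zero, ins_two_one, ins_same, ins_same,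
              Function.update_self, Function.update_of_ne n01.symm]
            ring
          rw [h, h', sub_zero] at h2
          exact mul_ne_zero (sub_ne_zero.2 hx') (pow_ne_zero _ hP) h2.symm)
      unfold properTransform at hm ⊢
      rw [closure_closure] at hm
      simpa using hm
    · exact par_mem_of_ne h
  have hd : Dense ({0}ᶜ : Set ℂ) := dense_compl_singleton 0
  by_cases h1 : w 1 = 0
  · have hy : w 1 ∈ closure ({0}ᶜ : Set ℂ) := hd (w 1)
    have hcu : Continuous (fun x : ℂ => Function.update w 1 x) :=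
      continuous_const.update 1 continuous_id
    have hm := map_mem_closure ((continuous_par n t).comp hcu) hy
      (t := properTransform (FF k n t)) (by
        intro x' hx'
        apply hA
        beta_reduce
        rw [Function.update_self]
        exact hx')
    unfold properTransform at hm ⊢
    rw [closure_closure] at hm
    simpa using hm
  · exact hA w h1

theorem plane_mem (n : ℕ) (t : ℂ) (v : Fin (k + 3) → ℂ) (hv : v ≠ 0) (h2 : v 2 = 0)
    (h0 : Gv k n t v = 0) : Projectivization.mk ℂ v hv ∈ exc (FF k n t) := by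
  change ((0 : Fin (k + 3) → ℂ), _) ∈ properTransform (FF k n t)
  have hd : Dense ({0}ᶜ : Set ℂ) := dense_compl_singleton 0
  have h3 : (0 : ℂ) ∈ closure ({0}ᶜ : Set ℂ) := hd 0
  have hc : Continuous (fun r : ℂ => ((r • v, Projectivization.mk ℂ v hv) :
      (Fin (k + 3) → ℂ) × Pr k)) := by fun_prop
  have hm := map_mem_closure hc h3 (t := {q : (Fin (k + 3) → ℂ) × Pr k | ∃ h : q.1 ≠ 0,
      q.1 ∈ zeros (FF k n t) ∧ q.2 = Projectivization.mk ℂ q.1 h}) (by
    intro r hr
    have ht0 : r ≠ 0 := hr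
    refine ⟨smul_ne_zero ht0 hv, ?_, ?_⟩
    · change eval (r • v) (FF k n t) = 0
      rw [eval_FF]
      have h4 : (r • v) 2 = 0 := by rw [Pi.smul_apply, h2, smul_zero]
      rw [Gv_smul, h0, h4, mul_zero, zero_add]
      exact zero_pow (by omega)
    · rw [Projectivization.mk_eq_mk_iff']
      refine ⟨r⁻¹, ?_⟩
      simp only
      rw [smul_smul, inv_mul_cancel₀ ht0, one_smul])
  rw [zero_smul] at hm
  exact hm

/-- the exceptional variety is the zero set of the leading form -/
theorem mk_mem_exc {n : ℕ} {t : ℂ} (v : Fin (k + 3) → ℂ) (hv : v ≠ 0) :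
    Projectivization.mk ℂ v hv ∈ exc (FF k n t) ↔ Gv k n t v = 0 := by
  constructor
  · intro h
    have h1 := exc_subset h
    obtain ⟨a, ha, h2⟩ := rep_mk v hv
    rw [h2, Gv_smul] at h1
    exact (mul_eq_zero.1 h1).resolve_left (pow_ne_zero _ ha)
  · intro h
    by_cases hz : v 2 = 0
    · exact plane_mem n t v hv hz h
    · obtain ⟨u, hu, hins⟩ := exists_chart 2 v hv hz
      rw [← hu, chart_apply]
      have h3 : Gv k n t (ins 2 u) = 0 := by
        rw [hins, Gv_smul, h, mul_zero]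
      have h4 := par_mem (n := n) (t := t) u
      unfold par at h4
      rw [h3, neg_zero, zero_smul] at h4
      exact h4

theorem exc_eq (n : ℕ) (t : ℂ) : exc (FF k n t) = Ez k t := by
  ext Q
  have h := mk_mem_exc (n := n) (t := t) Q.rep Q.rep_nonzero
  rw [Q.mk_rep, Gv_zero_iff] at h
  exact h

end Pool.Agent.Hhelper97.NodeBlow
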