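import Pool.Agent.Hhelper97.NodeBlow.Roots

/-!
Germs of closed sets up to homeomorphism, an invariant of them (the square classes of the
nonvanishing functions on the complement), and a comparison with the node.
-/

set_option autoImplicit false
set_option linter.unusedSectionVars false

open Filter Topology Set

namespace Pool.Agent.Hhelper97.NodeBlow

section

variable {X Y Z : Type*} [TopologicalSpace X] [TopologicalSpace Y] [TopologicalSpace Z]

/-- equivalence of the germs of `A` at `x` and of `B` at `y` -/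
def GE (A : Set X) (x : X) (B : Set Y) (y : Y) : Prop :=
  ∃ h : OpenPartialHomeomorph X Y, x ∈ h.source ∧ h x = y ∧ ∀ᶠ u in 𝓝 x, (u ∈ A ↔ h u ∈ B)

theorem GE.symm {A : Set X} {x : X} {B : Set Y} {y : Y} (h : GE A x B y) : GE B y A x := by
  obtain ⟨h, hx, rfl, hAB⟩ := h
  refine ⟨h.symm, h.map_source hx, h.left_inv hx, ?_⟩
  have h1 : Tendsto h.symm (𝓝 (h x)) (𝓝 x) := by
    have := (h.continuousAt_symm (h.map_source hx)).tendsto
    rwa [h.left_inv hx] at this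
  filter_upwards [h1.eventually hAB, h.open_target.mem_nhds (h.map_source hx)] with v hv hvt
  rw [hv, h.right_inv hvt]

theorem GE.trans {A : Set X} {x : X} {B : Set Y} {y : Y} {D : Set Z} {z : Z} (h : GE A x B y)
    (h' : GE B y D z) : GE A x D z := by
  obtain ⟨h, hx, rfl, hAB⟩ := h
  obtain ⟨h', hy, rfl, hBD⟩ := h'
  refine ⟨h.trans h', ?_, rfl, ?_⟩
  · rw [OpenPartialHomeomorph.trans_source]
    exact ⟨hx, hy⟩
  · filter_upwards [hAB, (h.continuousAt hx).tendsto.eventually hBD] with v hv hv'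
    rw [hv, hv']
    rfl

/-- the nonvanishing functions on the complement of the germ have at most two square classes -/
def Unit2 (A : Set X) (x : X) : Prop :=
  ∀ W ∈ 𝓝 x, ∀ φ ψ : X → ℂ, ContinuousOn φ (W \ A) → ContinuousOn ψ (W \ A) →
    (∀ u ∈ W \ A, φ u ≠ 0) → (∀ u ∈ W \ A, ψ u ≠ 0) →
    ∃ W' ∈ 𝓝 x, SqOn φ (W' \ A) ∨ SqOn ψ (W' \ A) ∨ SqOn (fun u => φ u * ψ u) (W' \ A)

theorem Unit2.of_GE {A : Set X} {x : X} {B : Set Y} {y : Y} (hB : Unit2 B y) (h : GE A x B y) :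
    Unit2 A x := by
  obtain ⟨h, hx, rfl, hAB⟩ := h
  intro W hW φ ψ hφ hψ hφ0 hψ0
  have h1 : Tendsto h.symm (𝓝 (h x)) (𝓝 x) := by
    have := (h.continuousAt_symm (h.map_source hx)).tendsto
    rwa [h.left_inv hx] at this
  obtain ⟨V, hV⟩ : ∃ V : Set Y, V = {v | v ∈ h.target ∧ h.symm v ∈ W ∧
      (h.symm v ∈ A ↔ h (h.symm v) ∈ B)} := ⟨_, rfl⟩
  have hVn : V ∈ 𝓝 (h x) := by
    rw [hV]
    filter_upwards [h.open_target.mem_nhds (h.map_source hx), h1.eventually hW,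
      h1.eventually hAB] with v h2 h3 h4
    exact ⟨h2, h3, h4⟩
  have hm : MapsTo h.symm (V \ B) (W \ A) := by
    intro v hv
    obtain ⟨hv1, hvB⟩ := hv
    rw [hV] at hv1
    obtain ⟨h2, h3, h4⟩ := hv1
    rw [h.right_inv h2] at h4
    exact ⟨h3, fun h5 => hvB (h4.1 h5)⟩
  have hc : ContinuousOn h.symm (V \ B) := by
    apply h.continuousOn_symm.mono
    intro v hv
    have := hv.1
    rw [hV] at this
    exact this.1
  obtain ⟨V', hV', hsq⟩ := hB V hVn (fun v => φ (h.symm v)) (fun v => ψ (h.symm v))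
    (hφ.comp hc hm) (hψ.comp hc hm) (fun v hv => hφ0 _ (hm hv)) (fun v hv => hψ0 _ (hm hv))
  obtain ⟨W', hW'⟩ : ∃ W' : Set X, W' = {u | u ∈ h.source ∧ h u ∈ V' ∧ (u ∈ A ↔ h u ∈ B)} :=
    ⟨_, rfl⟩
  have hWn : W' ∈ 𝓝 x := by
    rw [hW']
    filter_upwards [h.open_source.mem_nhds hx, (h.continuousAt hx).tendsto.eventually hV',
      hAB] with v h2 h3 h4
    exact ⟨h2, h3, h4⟩
  have hm' : MapsTo h (W' \ A) (V' \ B) := by
    intro u hu
    obtain ⟨hu1, huA⟩ := hu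
    rw [hW'] at hu1
    obtain ⟨h2, h3, h4⟩ := hu1
    exact ⟨h3, fun h5 => huA (h4.2 h5)⟩
  have hc' : ContinuousOn h (W' \ A) := by
    apply h.continuousOn.mono
    intro u hu
    have := hu.1
    rw [hW'] at this
    exact this.1
  have hs : ∀ u ∈ W' \ A, h.symm (h u) = u := by
    intro u hu
    have := hu.1
    rw [hW'] at this
    exact h.left_inv this.1
  have key : ∀ χ : X → ℂ, SqOn (fun v => χ (h.symm v)) (V' \ B) → SqOn χ (W' \ A) := by
    rintro χ ⟨σ, hσ1, hσ2⟩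
    refine ⟨fun u => σ (h u), hσ1.comp hc' hm', fun u hu => ?_⟩
    have h6 := hσ2 _ (hm' hu)
    simp only at h6
    rw [hs u hu] at h6
    exact h6
  refine ⟨W', hWn, ?_⟩
  rcases hsq with h5 | h5 | h5
  · exact Or.inl (key _ h5)
  · exact Or.inr (Or.inl (key _ h5))
  · exact Or.inr (Or.inr (key (fun u => φ u * ψ u) h5))

/-- a small disc in `W`, off `A` except for the centre, on which `φ` is a coordinate and `ψ` is a
unit -/
def HasDisc (A W : Set X) (φ ψ : X → ℂ) : Prop :=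
  ∃ (ε : ℝ) (δ : ℂ → X) (a b : ℂ → ℂ), 0 < ε ∧ ContinuousOn δ (Metric.ball 0 ε) ∧
    (∀ ζ ∈ Metric.ball (0 : ℂ) ε \ {0}, δ ζ ∈ W \ A) ∧
    ContinuousOn a (Metric.ball 0 ε) ∧ ContinuousOn b (Metric.ball 0 ε) ∧
    (∀ ζ ∈ Metric.ball (0 : ℂ) ε, a ζ ≠ 0) ∧ (∀ ζ ∈ Metric.ball (0 : ℂ) ε, b ζ ≠ 0) ∧
    (∀ ζ ∈ Metric.ball (0 : ℂ) ε \ {0}, φ (δ ζ) = ζ * a ζ) ∧
    (∀ ζ ∈ Metric.ball (0 : ℂ) ε \ {0}, ψ (δ ζ) = b ζ)

theorem HasDisc.not_sq {A W : Set X} {φ ψ : X → ℂ} (h : HasDisc A W φ ψ) :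
    ¬ SqOn φ (W \ A) ∧ ¬ SqOn (fun u => φ u * ψ u) (W \ A) := by
  obtain ⟨ε, δ, a, b, hε, hδ, hW, ha, hb, ha0, hb0, h1, h2⟩ := h
  constructor
  · rintro ⟨σ, hσ1, hσ2⟩
    refine nosq hε ha ha0 (σ := fun ζ => σ (δ ζ)) (hσ1.comp (hδ.mono sdiff_subset) hW) ?_
    intro ζ hζ
    rw [hσ2 _ (hW ζ hζ), h1 ζ hζ]
  · rintro ⟨σ, hσ1, hσ2⟩
    refine nosq hε (ha.mul hb) (fun ζ hζ => mul_ne_zero (ha0 ζ hζ) (hb0 ζ hζ))
      (σ := fun ζ => σ (δ ζ)) (hσ1.comp (hδ.mono sdiff_subset) hW) ?_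
    intro ζ hζ
    rw [hσ2 _ (hW ζ hζ)]
    change φ (δ ζ) * ψ (δ ζ) = ζ * (a ζ * b ζ)
    rw [h1 ζ hζ, h2 ζ hζ]
    ring

theorem not_unit2 {A : Set X} {x : X} {φ ψ : X → ℂ} {W : Set X} (hW : W ∈ 𝓝 x)
    (hφ : ContinuousOn φ (W \ A)) (hψ : ContinuousOn ψ (W \ A)) (hφ0 : ∀ u ∈ W \ A, φ u ≠ 0)
    (hψ0 : ∀ u ∈ W \ A, ψ u ≠ 0) (h1 : ∀ V ∈ 𝓝 x, HasDisc A V φ ψ)
    (h2 : ∀ V ∈ 𝓝 x, HasDisc A V ψ φ) : ¬ Unit2 A x := by
  intro hu
  obtain ⟨V, hV, h⟩ := hu W hW φ ψ hφ hψ hφ0 hψ0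
  rcases h with h | h | h
  · exact (h1 V hV).not_sq.1 h
  · exact (h2 V hV).not_sq.1 h
  · exact (h1 V hV).not_sq.2 h

end

section

variable {ι : Type} [Fintype ι] [DecidableEq ι]

theorem ball_eq {x u : ι → ℂ} {ρ : ℝ} (hρ : 0 < ρ) :
    u ∈ Metric.ball x ρ ↔ ∀ j, ‖u j - x j‖ < ρ := by
  rw [mem_ball_iff_norm, pi_norm_lt_iff hρ]
  rfl

theorem mem_S_iff {i : ι} {x u : ι → ℂ} {ρ : ℝ} (hρ : 0 < ρ) (hx : x i = 0) :
    u ∈ Sset i x ρ ↔ u ∈ Metric.ball x ρ ∧ u i ≠ 0 := by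
  rw [ball_eq hρ]
  constructor
  · rintro ⟨⟨h1, h2⟩, h3⟩
    refine ⟨fun j => ?_, h1⟩
    by_cases hj : j = i
    · subst hj
      rw [hx, sub_zero]
      exact h2
    · exact h3 j hj
  · rintro ⟨h1, h2⟩
    refine ⟨⟨h2, ?_⟩, fun j _ => h1 j⟩
    have := h1 i
    rwa [hx, sub_zero] at this

/-- at a point of a coordinate hyperplane there are only two square classes -/
theorem unit2_hyperplane {A : Set (ι → ℂ)} {x : ι → ℂ} {i : ι} (hx : x i = 0)
    (hA : ∀ᶠ u in 𝓝 x, (u ∈ A ↔ u i = 0)) : Unit2 A x := by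
  intro W hW φ ψ hφ hψ hφ0 hψ0
  obtain ⟨ρ, hρ, hsub⟩ := Metric.mem_nhds_iff.1 (Filter.inter_mem hW hA)
  have hS : ∀ u, u ∈ Metric.ball x ρ \ A ↔ u ∈ Sset i x ρ := by
    intro u
    rw [mem_S_iff hρ hx]
    constructor
    · rintro ⟨h1, h2⟩
      exact ⟨h1, fun h3 => h2 ((hsub h1).2.2 h3)⟩
    · rintro ⟨h1, h2⟩
      exact ⟨h1, fun h3 => h2 ((hsub h1).2.1 h3)⟩
  have hSe : Metric.ball x ρ \ A = Sset i x ρ := by
    ext u
    exact hS u
  have hSW : Sset i x ρ ⊆ W \ A := by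
    intro u hu
    have := (hS u).2 hu
    exact ⟨(hsub this.1).1, this.2⟩
  refine ⟨Metric.ball x ρ, Metric.ball_mem_nhds x hρ, ?_⟩
  rw [hSe]
  rcases sq_or_sq hρ (hφ.mono hSW) (fun u hu => hφ0 u (hSW hu)) with h1 | h1
  · exact Or.inl h1
  · rcases sq_or_sq hρ (hψ.mono hSW) (fun u hu => hψ0 u (hSW hu)) with h2 | h2
    · exact Or.inr (Or.inl h2)
    · right; right
      obtain ⟨σ, hσ1, hσ2⟩ := h1
      obtain ⟨τ, hτ1, hτ2⟩ := h2
      refine ⟨fun u => σ u * τ u / u i, ?_, ?_⟩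
      · apply (hσ1.mul hτ1).div (continuous_apply i).continuousOn
        intro u hu
        exact hu.1.1
      · intro u hu
        have h3 : u i ≠ 0 := hu.1.1
        rw [div_pow, mul_pow, hσ2 u hu, hτ2 u hu]
        field_simp

/-- the node: two coordinate hyperplanes -/
def Nd (i j : ι) : Set (ι → ℂ) := {u | u i * u j = 0}

theorem Nd_symm (i j : ι) : Nd i j = Nd j i := by
  ext u
  simp only [Nd, mem_ofPred_eq, mul_comm]

theorem unit2_node {i j : ι} {x : ι → ℂ} (hi : x i = 0) (hj : x j ≠ 0) :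
    Unit2 (Nd i j) x := by
  apply unit2_hyperplane hi
  have hc : ContinuousAt (fun u : ι → ℂ => u j) x := (continuous_apply j).continuousAt
  filter_upwards [hc.eventually_ne hj] with u hu
  simp only [Nd, mem_ofPred_eq]
  constructor
  · intro h
    exact (mul_eq_zero.1 h).resolve_right hu
  · intro h
    rw [h, zero_mul]

theorem node_disc {i j : ι} (hij : i ≠ j) {x : ι → ℂ} (hi : x i = 0) (hj : x j = 0)
    {V : Set (ι → ℂ)} (hV : V ∈ 𝓝 x) : HasDisc (Nd i j) V (fun u => u i) (fun u => u j) := by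
  obtain ⟨ρ, hρ, hsub⟩ := Metric.mem_nhds_iff.1 hV
  have hr : ((ρ / 2 : ℝ) : ℂ) ≠ 0 := by
    rw [Complex.ofReal_ne_zero]
    positivity
  refine ⟨ρ, fun ζ => Function.update (Function.update x j ((ρ / 2 : ℝ) : ℂ)) i ζ, fun _ => 1,
    fun _ => ((ρ / 2 : ℝ) : ℂ), hρ, ?_, ?_, continuousOn_const, continuousOn_const,
    fun _ _ => one_ne_zero, fun _ _ => hr, ?_, ?_⟩
  · exact ((continuous_const (y := Function.update x j ((ρ / 2 : ℝ) : ℂ))).update i
      continuous_id).continuousOn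
  · intro ζ hζ
    constructor
    · apply hsub
      rw [ball_eq hρ]
      intro l
      change ‖Function.update (Function.update x j ((ρ / 2 : ℝ) : ℂ)) i ζ l - x l‖ < ρ
      by_cases hl : l = i
      · subst hl
        rw [Function.update_self, hi, sub_zero]
        exact mem_ball_zero_iff.1 hζ.1
      · rw [Function.update_of_ne hl]
        by_cases hl' : l = j
        · subst hl'
          rw [Function.update_self, hj, sub_zero, Complex.norm_real, Real.norm_eq_abs,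
            abs_of_pos (by positivity)]
          linarith
        · rw [Function.update_of_ne hl', sub_self, norm_zero]
          exact hρ
    · simp only [Nd, mem_ofPred_eq]
      rw [Function.update_self, Function.update_of_ne hij.symm, Function.update_self]
      exact mul_ne_zero hζ.2 hr
  · intro ζ _
    simp
  · intro ζ _
    simp only
    rw [Function.update_of_ne hij.symm, Function.update_self]

theorem not_unit2_node {i j : ι} (hij : i ≠ j) {x : ι → ℂ} (hi : x i = 0) (hj : x j = 0) :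
    ¬ Unit2 (Nd i j) x := by
  refine not_unit2 (φ := fun u => u i) (ψ := fun u => u j) (W := univ) univ_mem
    (continuous_apply i).continuousOn (continuous_apply j).continuousOn ?_ ?_
    (fun V hV => node_disc hij hi hj hV) (fun V hV => ?_)
  · intro u hu h
    apply hu.2
    simp only [Nd, mem_ofPred_eq, h, zero_mul]
  · intro u hu h
    apply hu.2
    simp only [Nd, mem_ofPred_eq, h, mul_zero]
  · rw [Nd_symm]
    exact node_disc hij.symm hj hi hV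

theorem preconnected_branch {i j : ι} (hij : i ≠ j) {x : ι → ℂ} {ρ : ℝ} (hρ : 0 < ρ)
    (hj : x j = 0) : IsPreconnected {u : ι → ℂ | u ∈ Metric.ball x ρ ∧ u i = 0 ∧ u j ≠ 0} := by
  have h1 : Convex ℝ {v : ι → ℂ | v ∈ Tset j x ρ ∧ v i = 0} := by
    apply (convex_Tset j x ρ).inter
    have : {v : ι → ℂ | v i = 0} = (fun v : ι → ℂ => v i) ⁻¹' {0} := rfl
    change Convex ℝ {v : ι → ℂ | v i = 0}
    rw [this]
    exact (convex_singleton (𝕜 := ℝ) (0 : ℂ)).is_linear_preimage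
      { map_add := fun a b => by simp, map_smul := fun a b => by simp }
  have hE : Continuous (fun v : ι → ℂ => Function.update v j (Complex.exp (v j))) :=
    continuous_id.update j (Complex.continuous_exp.comp (continuous_apply j))
  have h2 := h1.isPreconnected.image _ hE.continuousOn
  convert h2 using 1
  ext u
  simp only [mem_ofPred_eq, mem_image]
  constructor
  · rintro ⟨hu, hi, hj'⟩
    have hS : u ∈ Sset j x ρ := (mem_S_iff hρ hj).2 ⟨hu, hj'⟩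
    refine ⟨Function.update u j (Complex.log (u j)),
      ⟨mem_T_of_exp hρ (Complex.exp_log hj') hS, ?_⟩, ?_⟩
    · rw [Function.update_of_ne hij, hi]
    · rw [Function.update_self, Function.update_idem, Complex.exp_log hj',
        Function.update_eq_self]
  · rintro ⟨v, ⟨hv, hvi⟩, rfl⟩
    have hS := exp_mem hρ hv
    obtain ⟨h3, h4⟩ := (mem_S_iff hρ hj).1 hS
    refine ⟨h3, ?_, h4⟩
    rw [Function.update_of_ne hij, hvi]

/-- the core of the comparison with the node -/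
theorem node_core {Y : Type*} [TopologicalSpace Y] {i j : ι} (hij : i ≠ j) {x : ι → ℂ}
    (hi : x i = 0) (hj : x j = 0) {L Γ B : Set Y} (hL : IsClosed L) (hΓ : IsClosed Γ)
    (hB : B = L ∪ Γ) {h : OpenPartialHomeomorph (ι → ℂ) Y} {ρ : ℝ} (hρ : 0 < ρ)
    {W : Set Y} {κ lam μ : Y → ℂ} (hκ : ContinuousOn κ W) (hlam : ContinuousOn lam W)
    (hκΓ : ∀ q ∈ W, κ q = 0 → q ∈ Γ) (hκL : ∀ q ∈ W, q ∈ L → κ q = lam q ^ 2)
    (hD : ∀ u ∈ Metric.ball x ρ, u ∈ h.source ∧ h u ∈ W ∧ (u ∈ Nd i j ↔ h u ∈ B))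
    (hU' : ∀ q ∈ W, q ∈ L ∩ Γ → ¬ Unit2 B q)
    (hdisc : ∀ V ∈ 𝓝 (h x), HasDisc B V κ μ)
    (hpt : ∃ u ∈ Metric.ball x ρ, u i = 0 ∧ u j ≠ 0 ∧ h u ∈ L) : False := by
  have hxD : x ∈ Metric.ball x ρ := Metric.mem_ball_self hρ
  have hGE : ∀ u ∈ Metric.ball x ρ, GE (Nd i j) u B (h u) := by
    intro u hu
    refine ⟨h, (hD u hu).1, rfl, ?_⟩
    filter_upwards [Metric.isOpen_ball.mem_nhds hu] with v hv
    exact (hD v hv).2.2
  obtain ⟨Z, hZ⟩ : ∃ Z : Set (ι → ℂ), Z = {u | u ∈ Metric.ball x ρ ∧ u i = 0 ∧ u j ≠ 0} :=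
    ⟨_, rfl⟩
  have hZp : IsPreconnected Z := by
    rw [hZ]
    exact preconnected_branch hij hρ hj
  have hZm : ∀ u ∈ Z, h u ∈ B ∧ h u ∉ L ∩ Γ := by
    intro u hu
    rw [hZ] at hu
    obtain ⟨hu1, hu2, hu3⟩ := hu
    obtain ⟨h1, h2, h3⟩ := hD u hu1
    refine ⟨h3.1 ?_, fun h4 => ?_⟩
    · simp only [Nd, mem_ofPred_eq, hu2, zero_mul]
    · exact hU' _ h2 h4 ((unit2_node hu2 hu3).of_GE (hGE u hu1).symm)
  have hZL : ∀ u ∈ Z, h u ∈ L ∧ h u ∉ Γ := by
    have hpi : IsPreconnected (h '' Z) := by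
      apply hZp.image
      apply h.continuousOn.mono
      intro u hu
      rw [hZ] at hu
      exact (hD u hu.1).1
    have h1 : h '' Z ⊆ L ∪ Γ := by
      rintro _ ⟨u, hu, rfl⟩
      rw [← hB]
      exact (hZm u hu).1
    have h2 : h '' Z ∩ (L ∩ Γ) = ∅ := by
      rw [Set.eq_empty_iff_forall_notMem]
      rintro _ ⟨⟨u, hu, rfl⟩, h3⟩
      exact (hZm u hu).2 h3
    have h3 := isPreconnected_iff_subset_of_disjoint_closed.1 hpi L Γ hL hΓ h1 h2
    have h4 : h '' Z ⊆ L := by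
      rcases h3 with h3 | h3
      · exact h3
      · exfalso
        obtain ⟨u, hu1, hu2, hu3, hu4⟩ := hpt
        have hu : u ∈ Z := by
          rw [hZ]
          exact ⟨hu1, hu2, hu3⟩
        exact (hZm u hu).2 ⟨hu4, h3 ⟨u, hu, rfl⟩⟩
    intro u hu
    have h5 : h u ∈ L := h4 ⟨u, hu, rfl⟩
    exact ⟨h5, fun h6 => (hZm u hu).2 ⟨h5, h6⟩⟩
  have hS : ∀ u ∈ Sset j x ρ, u ∈ Metric.ball x ρ ∧ u j ≠ 0 := fun u hu =>
    (mem_S_iff hρ hj).1 hu
  have hgc : ContinuousOn (fun u => κ (h u)) (Sset j x ρ) := by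
    apply hκ.comp (h.continuousOn.mono (fun u hu => (hD u (hS u hu).1).1))
    intro u hu
    exact (hD u (hS u hu).1).2.1
  have hg0 : ∀ u ∈ Sset j x ρ, κ (h u) ≠ 0 := by
    intro u hu h0
    obtain ⟨h1, h2⟩ := hS u hu
    obtain ⟨h3, h4, h5⟩ := hD u h1
    have h6 := hκΓ _ h4 h0
    have h7 : h u ∈ B := by
      rw [hB]
      exact Or.inr h6
    have h8 := h5.2 h7
    simp only [Nd, mem_ofPred_eq] at h8
    have h9 := (mul_eq_zero.1 h8).resolve_right h2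
    have hu : u ∈ Z := by
      rw [hZ]
      exact ⟨h1, h9, h2⟩
    exact (hZL u hu).2 h6
  rcases sq_or_sq hρ hgc hg0 with hsq | hsq
  · -- a transversal disc
    obtain ⟨σ, hσ1, hσ2⟩ := hsq
    have h1 : Tendsto h.symm (𝓝 (h x)) (𝓝 x) := by
      have := (h.continuousAt_symm (h.map_source (hD x hxD).1)).tendsto
      rwa [h.left_inv (hD x hxD).1] at this
    have hV : h.target ∩ h.symm ⁻¹' (Metric.ball x ρ) ∈ 𝓝 (h x) :=
      Filter.inter_mem (h.open_target.mem_nhds (h.map_source (hD x hxD).1))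
        (h1 (Metric.ball_mem_nhds x hρ))
    obtain ⟨ε, δ, a, b, hε, hδ, hVm, ha, hb, ha0, hb0, h2, _⟩ := hdisc _ hV
    have hm : ∀ ζ ∈ Metric.ball (0 : ℂ) ε \ {0}, h.symm (δ ζ) ∈ Sset j x ρ := by
      intro ζ hζ
      obtain ⟨⟨h3, h4⟩, h5⟩ := hVm ζ hζ
      refine (mem_S_iff hρ hj).2 ⟨h4, fun h6 => h5 ?_⟩
      have h7 := (hD _ h4).2.2
      rw [h.right_inv h3] at h7
      apply h7.1
      simp only [Nd, mem_ofPred_eq, h6, mul_zero]
    refine nosq hε ha ha0 (σ := fun ζ => σ (h.symm (δ ζ))) ?_ ?_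
    · apply hσ1.comp _ hm
      apply h.continuousOn_symm.comp (hδ.mono sdiff_subset)
      intro ζ hζ
      exact (hVm ζ hζ).1.1
    · intro ζ hζ
      rw [hσ2 _ (hm ζ hζ)]
      change κ (h (h.symm (δ ζ))) = ζ * a ζ
      rw [h.right_inv (hVm ζ hζ).1.1, h2 ζ hζ]
  · -- the slice
    obtain ⟨σ, hσ1, hσ2⟩ := hsq
    have hm : ∀ ζ ∈ Metric.ball (0 : ℂ) ρ \ {0}, Function.update x j ζ ∈ Z := by
      intro ζ hζ
      rw [hZ]
      refine ⟨?_, ?_, ?_⟩
      · rw [ball_eq hρ]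
        intro l
        by_cases hl : l = j
        · subst hl
          rw [Function.update_self, hj, sub_zero]
          exact mem_ball_zero_iff.1 hζ.1
        · rw [Function.update_of_ne hl, sub_self, norm_zero]
          exact hρ
      · rw [Function.update_of_ne hij, hi]
      · rw [Function.update_self]
        exact hζ.2
    have hmS : ∀ ζ ∈ Metric.ball (0 : ℂ) ρ \ {0}, Function.update x j ζ ∈ Sset j x ρ := by
      intro ζ hζ
      have := hm ζ hζ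
      rw [hZ] at this
      exact (mem_S_iff hρ hj).2 ⟨this.1, this.2.2⟩
    have hmD : ∀ ζ ∈ Metric.ball (0 : ℂ) ρ \ {0}, Function.update x j ζ ∈ Metric.ball x ρ :=
      fun ζ hζ => (hS _ (hmS ζ hζ)).1
    have hlam0 : ∀ ζ ∈ Metric.ball (0 : ℂ) ρ \ {0}, lam (h (Function.update x j ζ)) ≠ 0 := by
      intro ζ hζ h0
      have h1 := hκL _ (hD _ (hmD ζ hζ)).2.1 (hZL _ (hm ζ hζ)).1
      rw [h0] at h1
      apply hg0 _ (hmS ζ hζ)
      rw [h1]
      norm_num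
    have hcu : Continuous (fun ζ : ℂ => Function.update x j ζ) :=
      continuous_const.update j continuous_id
    refine nosq hρ (u := fun _ => 1) continuousOn_const (fun _ _ => one_ne_zero)
      (σ := fun ζ => σ (Function.update x j ζ) / lam (h (Function.update x j ζ))) ?_ ?_
    · apply ContinuousOn.div
      · exact hσ1.comp hcu.continuousOn hmS
      · apply hlam.comp
        · apply h.continuousOn.comp hcu.continuousOn
          intro ζ hζ
          exact (hD _ (hmD ζ hζ)).1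
        · intro ζ hζ
          exact (hD _ (hmD ζ hζ)).2.1
      · exact hlam0
    · intro ζ hζ
      rw [div_pow, hσ2 _ (hmS ζ hζ)]
      beta_reduce
      rw [Function.update_self, ← hκL _ (hD _ (hmD ζ hζ)).2.1 (hZL _ (hm ζ hζ)).1]
      rw [mul_one]
      exact mul_div_cancel_right₀ _ (hg0 _ (hmS ζ hζ))

/-- Comparison with the node.  If `B = L ∪ Γ` and `Γ` is the zero set of a function whose
restriction to `L` is a square, then the germ of `B` is not a node. -/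
theorem not_node {Y : Type*} [TopologicalSpace Y] {i j : ι} (hij : i ≠ j) {x : ι → ℂ}
    (hi : x i = 0) (hj : x j = 0) {L Γ B : Set Y} (hL : IsClosed L) (hΓ : IsClosed Γ)
    (hB : B = L ∪ Γ) {y : Y}
    {W : Set Y} (hW : W ∈ 𝓝 y) {κ lam μ : Y → ℂ} (hκ : ContinuousOn κ W)
    (hlam : ContinuousOn lam W)
    (hκΓ : ∀ q ∈ W, κ q = 0 → q ∈ Γ) (hκL : ∀ q ∈ W, q ∈ L → κ q = lam q ^ 2)
    (hU : ∀ q ∈ W, q ∈ B → q ∉ L ∩ Γ → Unit2 B q)
    (hU' : ∀ q ∈ W, q ∈ L ∩ Γ → ¬ Unit2 B q)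
    (hdisc : ∀ V ∈ 𝓝 y, HasDisc B V κ μ)
    (hacc : ∀ V ∈ 𝓝 y, ∃ q ∈ V, q ∈ L ∧ q ∉ Γ) : ¬ GE (Nd i j) x B y := by
  rintro ⟨h, hx, rfl, hAB⟩
  have h0 : {u | u ∈ h.source ∧ h u ∈ W ∧ (u ∈ Nd i j ↔ h u ∈ B)} ∈ 𝓝 x := by
    filter_upwards [h.open_source.mem_nhds hx, (h.continuousAt hx).tendsto.eventually hW,
      hAB] with v h2 h3 h4
    exact ⟨h2, h3, h4⟩
  obtain ⟨ρ, hρ, hsub⟩ := Metric.mem_nhds_iff.1 h0
  have hD : ∀ u ∈ Metric.ball x ρ, u ∈ h.source ∧ h u ∈ W ∧ (u ∈ Nd i j ↔ h u ∈ B) :=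
    fun u hu => hsub hu
  have h1 : Tendsto h.symm (𝓝 (h x)) (𝓝 x) := by
    have := (h.continuousAt_symm (h.map_source hx)).tendsto
    rwa [h.left_inv hx] at this
  have hV : h.target ∩ h.symm ⁻¹' (Metric.ball x ρ) ∈ 𝓝 (h x) :=
    Filter.inter_mem (h.open_target.mem_nhds (h.map_source hx))
      (h1 (Metric.ball_mem_nhds x hρ))
  obtain ⟨q, ⟨hq1, hq2⟩, hqL, hqΓ⟩ := hacc _ hV
  obtain ⟨u, hu⟩ : ∃ u, u = h.symm q := ⟨_, rfl⟩
  have hhu : h u = q := by rw [hu, h.right_inv hq1]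
  have huD : u ∈ Metric.ball x ρ := by rw [hu]; exact hq2
  have hqB : h u ∈ B := by
    rw [hB, hhu]
    exact Or.inl hqL
  have huN := (hD u huD).2.2.2 hqB
  have hnot : ¬ (u i = 0 ∧ u j = 0) := by
    rintro ⟨hui, huj⟩
    apply not_unit2_node hij hui huj
    have h2 : Unit2 B (h u) := by
      apply hU _ (hD u huD).2.1 hqB
      rw [hhu]
      exact fun h3 => hqΓ h3.2
    apply h2.of_GE
    refine ⟨h, (hD u huD).1, rfl, ?_⟩
    filter_upwards [Metric.isOpen_ball.mem_nhds huD] with v hv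
    exact (hD v hv).2.2
  simp only [Nd, mem_ofPred_eq] at huN
  rcases mul_eq_zero.1 huN with h2 | h2
  · refine node_core hij hi hj hL hΓ hB hρ hκ hlam hκΓ hκL hD hU' hdisc
      ⟨u, huD, h2, fun h3 => hnot ⟨h2, h3⟩, ?_⟩
    rw [hhu]
    exact hqL
  · rw [Nd_symm] at hD
    refine node_core hij.symm hj hi hL hΓ hB hρ hκ hlam hκΓ hκL hD hU' hdisc
      ⟨u, huD, h2, fun h3 => hnot ⟨h3, h2⟩, ?_⟩
    rw [hhu]
    exact hqL

end

end Pool.Agent.Hhelper97.NodeBlow
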