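import Pool.Agent.Hhelper97.NodeBlow.ExcI

/-!
The exceptional variety of a hypersurface germ is the zero set of the leading form.
-/

set_option autoImplicit false

open Filter Topology Finset MvPolynomial

namespace Pool.Agent.Hhelper97.NodeBlow

variable {k : ℕ}

/-- a form which vanishes at `0` on a line but not on the whole line has no other small zeros on
that line -/
theorem small_circle {φ : ℂ → ℂ} (hφ : Differentiable ℂ φ) {ζ1 : ℂ} (h1 : φ ζ1 ≠ 0) {r : ℝ}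
    (hr : 0 < r) : ∃ ρ : ℝ, 0 < ρ ∧ ρ < r ∧ ∀ ζ, ‖ζ‖ = ρ → φ ζ ≠ 0 := by
  have ha : AnalyticAt ℂ φ 0 := hφ.analyticAt 0
  rcases ha.eventually_eq_zero_or_eventually_ne_zero with h | h
  · exfalso
    apply h1
    have h2 : AnalyticOnNhd ℂ φ Set.univ := fun z _ => hφ.analyticAt z
    have h3 := h2.eqOn_zero_of_preconnected_of_eventuallyEq_zero isPreconnected_univ
      (Set.mem_univ 0) h
    exact h3 (Set.mem_univ ζ1)
  · rw [eventually_nhdsWithin_iff, Metric.eventually_nhds_iff] at h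
    obtain ⟨ε, hε, h2⟩ := h
    refine ⟨min ε r / 2, by positivity, ?_, ?_⟩
    · have := min_le_right ε r
      linarith
    · intro ζ hζ
      apply h2
      · rw [dist_zero_right, hζ]
        have := min_le_left ε r
        have : 0 < min ε r := by positivity
        linarith
      · intro h3
        rw [Set.mem_singleton_iff] at h3
        rw [h3, norm_zero] at hζ
        have : 0 < min ε r := by positivity
        linarith

/-- a zero of the leading form is a limit of secants -/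
theorem near_of_lead {F : MvPolynomial (Fin (k + 3)) ℂ} {G : (Fin (k + 3) → ℂ) → ℂ}
    {K : ℂ → (Fin (k + 3) → ℂ) → ℂ} {m : ℕ}
    (hF : ∀ (l : ℂ) (v : Fin (k + 3) → ℂ), eval (l • v) F = l ^ m * (G v + l * K l v))
    (hG : ∀ v u : Fin (k + 3) → ℂ, Differentiable ℂ (fun ζ : ℂ => G (v + ζ • u)))
    (hK : ∀ (l : ℂ) (v u : Fin (k + 3) → ℂ), Differentiable ℂ (fun ζ : ℂ => K l (v + ζ • u)))
    (hKc : Continuous (fun q : ℂ × (Fin (k + 3) → ℂ) => K q.1 q.2))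
    {u : Fin (k + 3) → ℂ} (hu : ∀ v : Fin (k + 3) → ℂ, ∃ ζ : ℂ, G (v + ζ • u) ≠ 0)
    {v : Fin (k + 3) → ℂ} (hv : v ≠ 0) (h0 : G v = 0) : Near F v := by
  intro r hr
  have hvn : 0 < ‖v‖ := norm_pos_iff.2 hv
  have hun : 0 < ‖u‖ + 1 := by positivity
  obtain ⟨ζ1, hζ1⟩ := hu v
  obtain ⟨ρ, hρ0, hρr, hρ⟩ := small_circle (hG v u) hζ1
    (r := min r ‖v‖ / (‖u‖ + 1)) (by positivity)
  have hρu : ∀ ζ : ℂ, ‖ζ‖ ≤ ρ → ‖ζ • u‖ < min r ‖v‖ := by
    intro ζ hζ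
    rw [lt_div_iff₀ hun] at hρr
    rw [norm_smul]
    calc ‖ζ‖ * ‖u‖ ≤ ρ * ‖u‖ := mul_le_mul_of_nonneg_right hζ (norm_nonneg _)
      _ ≤ ρ * (‖u‖ + 1) := by nlinarith
      _ < min r ‖v‖ := hρr
  have hφc : Continuous (fun ζ : ℂ => ‖G (v + ζ • u)‖) := (hG v u).continuous.norm
  obtain ⟨ζ0, hζ0, hmin⟩ := (isCompact_sphere (0 : ℂ) ρ).exists_isMinOn
    (NormedSpace.sphere_nonempty.2 hρ0.le) hφc.continuousOn
  obtain ⟨μ, hμ⟩ : ∃ μ, μ = ‖G (v + ζ0 • u)‖ := ⟨_, rfl⟩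
  have hμ0 : 0 < μ := by
    rw [hμ]
    exact norm_pos_iff.2 (hρ ζ0 (by simpa using hζ0))
  have hμl : ∀ ζ : ℂ, ‖ζ‖ = ρ → μ ≤ ‖G (v + ζ • u)‖ := by
    intro ζ hζ
    rw [hμ]
    exact hmin (by simpa using hζ)
  have hKc' : Continuous (fun q : ℂ × ℂ => K q.1 (v + q.2 • u)) :=
    hKc.comp (continuous_fst.prodMk (continuous_const.add (continuous_snd.smul continuous_const)))
  obtain ⟨B, hB⟩ := ((isCompact_closedBall (0 : ℂ) 1).prod
    (isCompact_closedBall (0 : ℂ) ρ)).exists_bound_of_continuousOn hKc'.continuousOn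
  have hB0 : 0 ≤ B := (norm_nonneg _).trans (hB (0, 0) (by simp [hρ0.le]))
  obtain ⟨s, hs⟩ : ∃ s : ℝ, s = min (min 1 (r / 2)) (μ / (4 * (B + 1))) := ⟨_, rfl⟩
  have hs0 : 0 < s := by rw [hs]; positivity
  have hs1 : s ≤ 1 := by rw [hs]; exact (min_le_left _ _).trans (min_le_left _ _)
  have hs2 : s ≤ r / 2 := by rw [hs]; exact (min_le_left _ _).trans (min_le_right _ _)
  have hs3 : s * B < μ / 2 := by
    have : s ≤ μ / (4 * (B + 1)) := by rw [hs]; exact min_le_right _ _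
    rw [le_div_iff₀ (by positivity)] at this
    nlinarith
  have hsn : ‖(s : ℂ)‖ = s := by rw [Complex.norm_real, Real.norm_eq_abs, abs_of_pos hs0]
  have hsK : ∀ ζ : ℂ, ‖ζ‖ ≤ ρ → ‖(s : ℂ) * K s (v + ζ • u)‖ < μ / 2 := by
    intro ζ hζ
    rw [norm_mul, hsn]
    have h1 := hB ((s : ℂ), ζ) ⟨by rw [mem_closedBall_zero_iff, hsn]; exact hs1,
      by rw [mem_closedBall_zero_iff]; exact hζ⟩
    calc s * ‖K s (v + ζ • u)‖ ≤ s * B := mul_le_mul_of_nonneg_left h1 hs0.le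
      _ < μ / 2 := hs3
  obtain ⟨f, hf⟩ : ∃ f : ℂ → ℂ, f = fun ζ => G (v + ζ • u) + (s : ℂ) * K s (v + ζ • u) :=
    ⟨_, rfl⟩
  have hfd : Differentiable ℂ f := by
    rw [hf]
    exact (hG v u).add ((hK s v u).const_mul _)
  have hex : ∃ ζ : ℂ, ‖ζ‖ ≤ ρ ∧ f ζ = 0 := by
    by_contra hcon
    push Not at hcon
    have hcl : closure (Metric.ball (0 : ℂ) ρ) = Metric.closedBall 0 ρ :=
      closure_ball _ hρ0.ne'
    have hd : DiffContOnCl ℂ (fun ζ => (f ζ)⁻¹) (Metric.ball 0 ρ) := by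
      apply DiffContOnCl.inv hfd.diffContOnCl
      intro ζ hζ
      rw [hcl, mem_closedBall_zero_iff] at hζ
      exact hcon ζ hζ
    have h1 := Complex.norm_le_of_forall_mem_frontier_norm_le (z := (0 : ℂ))
      Metric.isBounded_ball hd (C := 2 / μ) (by
        intro ζ hζ
        rw [frontier_ball _ hρ0.ne', mem_sphere_zero_iff_norm] at hζ
        have h2 := hμl ζ hζ
        have h3 := hsK ζ hζ.le
        have h4 : μ / 2 ≤ ‖f ζ‖ := by
          have h5 : ‖G (v + ζ • u)‖ ≤ ‖f ζ‖ + ‖(s : ℂ) * K s (v + ζ • u)‖ := by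
            have h6 : G (v + ζ • u) = f ζ - (s : ℂ) * K s (v + ζ • u) := by
              rw [hf]
              ring
            rw [h6]
            exact norm_sub_le _ _
          linarith
        rw [norm_inv]
        calc ‖f ζ‖⁻¹ ≤ (μ / 2)⁻¹ := inv_anti₀ (by positivity) h4
          _ = 2 / μ := by rw [inv_div]) (by
        rw [hcl, mem_closedBall_zero_iff, norm_zero]
        exact hρ0.le)
    have h2 : ‖f 0‖ < μ / 2 := by
      have h3 := hsK 0 (by rw [norm_zero]; exact hρ0.le)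
      have h4 : f 0 = (s : ℂ) * K s (v + (0 : ℂ) • u) := by
        rw [hf]
        simp only [zero_smul, add_zero, h0, zero_add]
      rw [h4]
      exact h3
    have h3 : 0 < ‖f 0‖ := norm_pos_iff.2 (hcon 0 (by rw [norm_zero]; exact hρ0.le))
    rw [norm_inv] at h1
    have h4 : 2 / μ < ‖f 0‖⁻¹ := by
      rw [lt_inv_comm₀ (by positivity) h3]
      rw [inv_div]
      exact h2
    linarith
  obtain ⟨ζ, hζ, hfζ⟩ := hex
  have hζu := hρu ζ hζ
  refine ⟨v + ζ • u, s, ?_, ?_, ?_, ?_, ?_⟩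
  · intro h
    have h1 : ζ • u = -v := by
      rw [← add_left_cancel_iff (a := v), h, add_neg_cancel]
    rw [h1, norm_neg] at hζu
    have := min_le_right r ‖v‖
    linarith
  · rw [add_sub_cancel_left]
    exact hζu.trans_le (min_le_left _ _)
  · exact Complex.ofReal_ne_zero.2 hs0.ne'
  · rw [hsn]
    linarith
  · change eval _ F = 0
    rw [hF]
    have h1 : G (v + ζ • u) + (s : ℂ) * K s (v + ζ • u) = 0 := by
      rw [hf] at hfζ
      exact hfζ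
    rw [h1, mul_zero]

/-- the leading form vanishes on the exceptional variety -/
theorem lead_of_mem_exc {F : MvPolynomial (Fin (k + 3)) ℂ} {G : (Fin (k + 3) → ℂ) → ℂ} {m : ℕ}
    (hGc : Continuous G) (hGm : ∀ (r : ℂ) (v : Fin (k + 3) → ℂ), G (r • v) = r ^ m * G v)
    {C : ℝ} (hC : ∀ p : Fin (k + 3) → ℂ, ‖p‖ ≤ 1 → eval p F = 0 → ‖G p‖ ≤ C * ‖p‖ ^ (m + 1))
    {Q : Pr k} (hQ : Q ∈ exc F) : G Q.rep = 0 := by
  obtain ⟨Φ, hΦ⟩ : ∃ Φ : Pr k → ℝ, Φ = fun Q => ‖G Q.rep‖ / ‖Q.rep‖ ^ m := ⟨_, rfl⟩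
  have hmk : ∀ (v : Fin (k + 3) → ℂ) (hv : v ≠ 0),
      Φ (Projectivization.mk ℂ v hv) = ‖G v‖ / ‖v‖ ^ m := by
    intro v hv
    obtain ⟨a, ha, h1⟩ := rep_mk v hv
    rw [hΦ]
    simp only
    rw [h1, hGm, norm_mul, norm_pow, norm_smul, mul_pow]
    exact mul_div_mul_left _ _ (pow_ne_zero _ (norm_ne_zero_iff.2 ha))
  have hcont : Continuous Φ := by
    rw [(quot_pj k).continuous_iff]
    have : Φ ∘ pj k = fun v => ‖G v.1‖ / ‖v.1‖ ^ m := by
      funext v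
      exact hmk v.1 v.2
    rw [this]
    apply Continuous.div
    · exact (hGc.comp continuous_subtype_val).norm
    · exact (continuous_subtype_val.norm).pow _
    · intro v
      exact pow_ne_zero _ (norm_ne_zero_iff.2 v.2)
  have hcl : IsClosed {q : (Fin (k + 3) → ℂ) × Pr k | Φ q.2 ≤ C * ‖q.1‖ ∨ 1 ≤ ‖q.1‖} := by
    have h1 : IsClosed {q : (Fin (k + 3) → ℂ) × Pr k | Φ q.2 ≤ C * ‖q.1‖} :=
      isClosed_le (hcont.comp continuous_snd) (continuous_const.mul continuous_fst.norm)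
    have h2 : IsClosed {q : (Fin (k + 3) → ℂ) × Pr k | 1 ≤ ‖q.1‖} :=
      isClosed_le continuous_const continuous_fst.norm
    exact h1.union h2
  have hsub : {q : (Fin (k + 3) → ℂ) × Pr k | ∃ h : q.1 ≠ 0, q.1 ∈ zeros F ∧
      q.2 = Projectivization.mk ℂ q.1 h} ⊆
      {q : (Fin (k + 3) → ℂ) × Pr k | Φ q.2 ≤ C * ‖q.1‖ ∨ 1 ≤ ‖q.1‖} := by
    rintro ⟨p, ℓ'⟩ ⟨h, hp, hl⟩
    simp only at h hp hl
    change Φ ℓ' ≤ C * ‖p‖ ∨ 1 ≤ ‖p‖
    by_cases hp1 : 1 ≤ ‖p‖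
    · exact Or.inr hp1
    left
    push Not at hp1
    rw [hl, hmk]
    have hp0 : 0 < ‖p‖ := norm_pos_iff.2 h
    rw [div_le_iff₀ (by positivity), mul_assoc, ← pow_succ']
    exact hC p hp1.le hp
  have h3 : ((0 : Fin (k + 3) → ℂ), Q) ∈ {q : (Fin (k + 3) → ℂ) × Pr k |
      Φ q.2 ≤ C * ‖q.1‖ ∨ 1 ≤ ‖q.1‖} := closure_minimal hsub hcl hQ
  have h4 : Φ Q ≤ 0 := by
    rcases h3 with h3 | h3
    · have : Φ Q ≤ C * ‖(0 : Fin (k + 3) → ℂ)‖ := h3
      rwa [norm_zero, mul_zero] at this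
    · have : (1 : ℝ) ≤ ‖(0 : Fin (k + 3) → ℂ)‖ := h3
      rw [norm_zero] at this
      linarith
  have hr : 0 < ‖Q.rep‖ := norm_pos_iff.2 Q.rep_nonzero
  rw [hΦ] at h4
  simp only at h4
  rw [div_le_iff₀ (by positivity), zero_mul] at h4
  exact norm_le_zero_iff.1 h4

end Pool.Agent.Hhelper97.NodeBlow
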