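import Pool.Agent.Hhelper97.NodeBlow.Germ

/-!
Two local models which are not equivalent to the node.
-/

set_option autoImplicit false
set_option linter.unusedSectionVars false

open Filter Topology Set

namespace Pool.Agent.Hhelper97.NodeBlow

variable {ι : Type} [Fintype ι] [DecidableEq ι]

/-- the union of the hyperplane `u b = 0` and of the hypersurface `X u * u b + t * u c ^ 2 = 0` -/
def Bm (X : (ι → ℂ) → ℂ) (b c : ι) (t : ℂ) : Set (ι → ℂ) :=
  {u | u b = 0 ∨ X u * u b + t * u c ^ 2 = 0}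

theorem small_eta (t : ℂ) {ρ : ℝ} (hρ : 0 < ρ) : ∃ η : ℝ, 0 < η ∧ η < ρ ∧ ‖t‖ * η ^ 2 < ρ ∧
    ‖t‖ * η < ρ := by
  have h1 : Tendsto (fun η : ℝ => ‖t‖ * η ^ 2) (𝓝[>] 0) (𝓝 0) := by
    have : Tendsto (fun η : ℝ => ‖t‖ * η ^ 2) (𝓝 0) (𝓝 (‖t‖ * 0 ^ 2)) :=
      (by fun_prop : Continuous (fun η : ℝ => ‖t‖ * η ^ 2)).tendsto 0
    simp only [ne_eq, OfNat.ofNat_ne_zero, not_false_eq_true, zero_pow, mul_zero] at this
    exact this.mono_left nhdsWithin_le_nhds
  have h2 : Tendsto (fun η : ℝ => ‖t‖ * η) (𝓝[>] 0) (𝓝 0) := by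
    have : Tendsto (fun η : ℝ => ‖t‖ * η) (𝓝 0) (𝓝 (‖t‖ * 0)) :=
      (by fun_prop : Continuous (fun η : ℝ => ‖t‖ * η)).tendsto 0
    simp only [mul_zero] at this
    exact this.mono_left nhdsWithin_le_nhds
  have h3 : ∀ᶠ η : ℝ in 𝓝[>] 0, η < ρ :=
    (Filter.Tendsto.eventually_lt_const hρ (tendsto_id.mono_left nhdsWithin_le_nhds))
  have h4 : ∀ᶠ η : ℝ in 𝓝[>] 0, 0 < η := self_mem_nhdsWithin
  obtain ⟨η, h5, h6, h7, h8⟩ :=
    (h4.and (h3.and ((h1.eventually_lt_const hρ).and (h2.eventually_lt_const hρ)))).exists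
  exact ⟨η, h5, h6, h7, h8⟩

theorem Bm_disc {X : (ι → ℂ) → ℂ} {b c : ι} (hbc : b ≠ c) {t : ℂ} (ht : t ≠ 0)
    (hX : ∀ (q : ι → ℂ) (ζ η : ℂ), X (Function.update (Function.update q c η) b ζ) = X q)
    {q : ι → ℂ} (hb : q b = 0) (hc : q c = 0) {V : Set (ι → ℂ)} (hV : V ∈ 𝓝 q) :
    HasDisc (Bm X b c t) V (fun u => u b) (fun u => X u * u b + t * u c ^ 2) := by
  obtain ⟨ρ, hρ, hsub⟩ := Metric.mem_nhds_iff.1 hV
  obtain ⟨η, hη, hηρ, _, _⟩ := small_eta t hρ
  have ht0 : 0 < ‖t‖ := norm_pos_iff.2 ht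
  obtain ⟨ε, hε⟩ : ∃ ε, ε = min ρ (‖t‖ * η ^ 2 / (‖X q‖ + 1)) := ⟨_, rfl⟩
  have hε0 : 0 < ε := by
    rw [hε]
    apply lt_min hρ
    positivity
  have hερ : ε ≤ ρ := by
    rw [hε]
    exact min_le_left _ _
  have hnv : ∀ ζ ∈ Metric.ball (0 : ℂ) ε, X q * ζ + t * (η : ℂ) ^ 2 ≠ 0 := by
    intro ζ hζ h0
    have h1 : ‖ζ‖ < ‖t‖ * η ^ 2 / (‖X q‖ + 1) :=
      lt_of_lt_of_le (mem_ball_zero_iff.1 hζ) (by rw [hε]; exact min_le_right _ _)
    rw [lt_div_iff₀ (by positivity)] at h1
    have h2 : t * (η : ℂ) ^ 2 = -(X q * ζ) := by linear_combination h0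
    have h3 : ‖t‖ * η ^ 2 = ‖X q‖ * ‖ζ‖ := by
      have := congrArg norm h2
      rw [norm_neg, norm_mul, norm_mul, norm_pow, Complex.norm_real, Real.norm_eq_abs,
        abs_of_pos hη] at this
      exact this
    rw [h3] at h1
    nlinarith [norm_nonneg ζ, norm_nonneg (X q)]
  refine ⟨ε, fun ζ => Function.update (Function.update q c (η : ℂ)) b ζ, fun _ => 1,
    fun ζ => X q * ζ + t * (η : ℂ) ^ 2, hε0, ?_, ?_, continuousOn_const, ?_,
    fun _ _ => one_ne_zero, hnv, ?_, ?_⟩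
  · exact ((continuous_const (y := Function.update q c (η : ℂ))).update b
      continuous_id).continuousOn
  · intro ζ hζ
    constructor
    · apply hsub
      rw [ball_eq hρ]
      intro l
      change ‖Function.update (Function.update q c (η : ℂ)) b ζ l - q l‖ < ρ
      by_cases hl : l = b
      · subst hl
        rw [Function.update_self, hb, sub_zero]
        exact lt_of_lt_of_le (mem_ball_zero_iff.1 hζ.1) hερ
      · rw [Function.update_of_ne hl]
        by_cases hl' : l = c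
        · subst hl'
          rw [Function.update_self, hc, sub_zero, Complex.norm_real, Real.norm_eq_abs,
            abs_of_pos hη]
          exact hηρ
        · rw [Function.update_of_ne hl', sub_self, norm_zero]
          exact hρ
    · simp only [Bm, mem_ofPred_eq]
      rw [hX, Function.update_self, Function.update_of_ne hbc.symm, Function.update_self]
      push Not
      exact ⟨hζ.2, hnv ζ hζ.1⟩
  · exact (by fun_prop : Continuous (fun ζ : ℂ => X q * ζ + t * (η : ℂ) ^ 2)).continuousOn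
  · intro ζ _
    simp
  · intro ζ _
    beta_reduce
    rw [hX, Function.update_self, Function.update_of_ne hbc.symm, Function.update_self]

/-- the comparison of a model with the node -/
theorem Bm_not_node {X : (ι → ℂ) → ℂ} (hXc : Continuous X) {b c : ι} (hbc : b ≠ c) {t : ℂ}
    (ht : t ≠ 0)
    (hX : ∀ (q : ι → ℂ) (ζ η : ℂ), X (Function.update (Function.update q c η) b ζ) = X q)
    (hD : ∀ q : ι → ℂ, q b = 0 → q c = 0 → ∀ V ∈ 𝓝 q,
      HasDisc (Bm X b c t) V (fun u => X u * u b + t * u c ^ 2) (fun u => u b))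
    (hU : ∀ q ∈ Bm X b c t, ¬ (q b = 0 ∧ q c = 0) → Unit2 (Bm X b c t) q)
    {q : ι → ℂ} (hb : q b = 0) (hc : q c = 0) {i j : ι} (hij : i ≠ j) {x : ι → ℂ}
    (hi : x i = 0) (hj : x j = 0) : ¬ GE (Nd i j) x (Bm X b c t) q := by
  obtain ⟨r, hr⟩ : ∃ r : ℂ, r ^ 2 = t := IsAlgClosed.exists_pow_nat_eq _ (by norm_num)
  have hcont : Continuous (fun u : ι → ℂ => X u * u b + t * u c ^ 2) := by fun_prop
  have hC : ∀ q : ι → ℂ, q ∈ {u : ι → ℂ | u b = 0} ∩ {u | X u * u b + t * u c ^ 2 = 0} ↔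
      q b = 0 ∧ q c = 0 := by
    intro q
    simp only [mem_inter_iff, mem_ofPred_eq]
    constructor
    · rintro ⟨h1, h2⟩
      rw [h1, mul_zero, zero_add] at h2
      exact ⟨h1, pow_eq_zero_iff (two_ne_zero) |>.1 ((mul_eq_zero.1 h2).resolve_left ht)⟩
    · rintro ⟨h1, h2⟩
      rw [h1, h2]
      simp
  refine not_node hij hi hj (L := {u : ι → ℂ | u b = 0})
    (Γ := {u | X u * u b + t * u c ^ 2 = 0}) (W := univ)
    (κ := fun u => X u * u b + t * u c ^ 2) (lam := fun u => r * u c) (μ := fun u => u b)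
    ?_ ?_ ?_ ?_ ?_ ?_ ?_ ?_ ?_ ?_ ?_ ?_
  · exact isClosed_eq (by fun_prop : Continuous (fun u : ι → ℂ => u b)) continuous_const
  · exact isClosed_eq hcont continuous_const
  · rfl
  · exact univ_mem
  · exact hcont.continuousOn
  · exact (by fun_prop : Continuous (fun u : ι → ℂ => r * u c)).continuousOn
  · intro q _ h
    exact h
  · intro q _ h
    have h1 : q b = 0 := h
    rw [h1, mul_pow, hr]
    ring
  · intro q _ hq h
    exact hU q hq (fun h1 => h ((hC q).2 h1))
  · intro q _ h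
    obtain ⟨h1, h2⟩ := (hC q).1 h
    refine not_unit2 (φ := fun u => u b) (ψ := fun u => X u * u b + t * u c ^ 2) (W := univ)
      univ_mem (continuous_apply b).continuousOn hcont.continuousOn ?_ ?_
      (fun V hV => Bm_disc hbc ht hX h1 h2 hV) (fun V hV => hD q h1 h2 V hV)
    · intro u hu h0
      exact hu.2 (Or.inl h0)
    · intro u hu h0
      exact hu.2 (Or.inr h0)
  · exact fun V hV => hD q hb hc V hV
  · intro V hV
    obtain ⟨ρ, hρ, hsub⟩ := Metric.mem_nhds_iff.1 hV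
    obtain ⟨η, hη, hηρ, _, _⟩ := small_eta t hρ
    have hη0 : (η : ℂ) ≠ 0 := by
      rw [Complex.ofReal_ne_zero]
      exact hη.ne'
    refine ⟨Function.update q c (η : ℂ), hsub ?_, ?_, ?_⟩
    · rw [ball_eq hρ]
      intro l
      by_cases hl : l = c
      · subst hl
        rw [Function.update_self, hc, sub_zero, Complex.norm_real, Real.norm_eq_abs,
          abs_of_pos hη]
        exact hηρ
      · rw [Function.update_of_ne hl, sub_self, norm_zero]
        exact hρ
    · change Function.update q c (η : ℂ) b = 0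
      rw [Function.update_of_ne hbc, hb]
    · simp only [mem_ofPred_eq]
      rw [Function.update_of_ne hbc, hb, Function.update_self, mul_zero, zero_add]
      exact mul_ne_zero ht (pow_ne_zero 2 hη0)

/-- the transversal discs of the first model -/
theorem disc_one {b c : ι} (hbc : b ≠ c) {t : ℂ} (ht : t ≠ 0)
    {q : ι → ℂ} (hb : q b = 0) (hc : q c = 0) {V : Set (ι → ℂ)} (hV : V ∈ 𝓝 q) :
    HasDisc (Bm (fun _ => 1) b c t) V (fun u => 1 * u b + t * u c ^ 2) (fun u => u b) := by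
  obtain ⟨ρ, hρ, hsub⟩ := Metric.mem_nhds_iff.1 hV
  obtain ⟨η, hη, hηρ, hηt, _⟩ := small_eta t (ρ := ρ / 2) (by positivity)
  have ht0 : 0 < ‖t‖ := norm_pos_iff.2 ht
  have hn : ‖t * (η : ℂ) ^ 2‖ = ‖t‖ * η ^ 2 := by
    rw [norm_mul, norm_pow, Complex.norm_real, Real.norm_eq_abs, abs_of_pos hη]
  have hnv : ∀ ζ ∈ Metric.ball (0 : ℂ) (‖t‖ * η ^ 2), ζ - t * (η : ℂ) ^ 2 ≠ 0 := by
    intro ζ hζ h0
    have h1 := mem_ball_zero_iff.1 hζ
    rw [sub_eq_zero.1 h0, hn] at h1
    exact lt_irrefl _ h1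
  refine ⟨‖t‖ * η ^ 2, fun ζ => Function.update (Function.update q c (η : ℂ)) b
    (ζ - t * (η : ℂ) ^ 2), fun _ => 1, fun ζ => ζ - t * (η : ℂ) ^ 2, by positivity, ?_, ?_,
    continuousOn_const, ?_, fun _ _ => one_ne_zero, hnv, ?_, ?_⟩
  · exact ((continuous_const (y := Function.update q c (η : ℂ))).update b
      (by fun_prop)).continuousOn
  · intro ζ hζ
    constructor
    · apply hsub
      rw [ball_eq hρ]
      intro l
      change ‖Function.update (Function.update q c (η : ℂ)) b (ζ - t * (η : ℂ) ^ 2) l - q l‖ < ρ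
      by_cases hl : l = b
      · subst hl
        rw [Function.update_self, hb, sub_zero]
        calc ‖ζ - t * (η : ℂ) ^ 2‖ ≤ ‖ζ‖ + ‖t * (η : ℂ) ^ 2‖ := norm_sub_le _ _
          _ < ρ / 2 + ρ / 2 := by
            rw [hn]
            have := mem_ball_zero_iff.1 hζ.1
            linarith
          _ = ρ := by ring
      · rw [Function.update_of_ne hl]
        by_cases hl' : l = c
        · subst hl'
          rw [Function.update_self, hc, sub_zero, Complex.norm_real, Real.norm_eq_abs,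
            abs_of_pos hη]
          linarith
        · rw [Function.update_of_ne hl', sub_self, norm_zero]
          exact hρ
    · simp only [Bm, mem_ofPred_eq]
      rw [Function.update_self, Function.update_of_ne hbc.symm, Function.update_self]
      push Not
      refine ⟨hnv ζ hζ.1, ?_⟩
      have h1 : 1 * (ζ - t * (η : ℂ) ^ 2) + t * (η : ℂ) ^ 2 = ζ := by ring
      rw [h1]
      exact hζ.2
  · exact (by fun_prop : Continuous (fun ζ : ℂ => ζ - t * (η : ℂ) ^ 2)).continuousOn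
  · intro ζ _
    beta_reduce
    rw [Function.update_self, Function.update_of_ne hbc.symm, Function.update_self]
    ring
  · intro ζ _
    beta_reduce
    rw [Function.update_self]

/-- the transversal discs of the second model -/
theorem disc_two {a b c : ι} (hab : a ≠ b) (hac : a ≠ c) (hbc : b ≠ c) {t : ℂ} (ht : t ≠ 0)
    {q : ι → ℂ} (hb : q b = 0) (hc : q c = 0) {V : Set (ι → ℂ)} (hV : V ∈ 𝓝 q) :
    HasDisc (Bm (fun u => u a) b c t) V (fun u => u a * u b + t * u c ^ 2) (fun u => u b) := by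
  obtain ⟨ρ, hρ, hsub⟩ := Metric.mem_nhds_iff.1 hV
  have hex : ∃ a0 b0 c0 : ℂ, a0 * b0 + t * c0 ^ 2 = 0 ∧ b0 ≠ 0 ∧ ‖a0 - q a‖ < ρ / 2 ∧
      ‖b0‖ < ρ ∧ ‖c0‖ < ρ := by
    by_cases hq : q a = 0
    · obtain ⟨η, hη, hηρ, _, hηt⟩ := small_eta t (ρ := ρ / 2) (by positivity)
      have hη0 : (η : ℂ) ≠ 0 := by
        rw [Complex.ofReal_ne_zero]
        exact hη.ne'
      have hηn : ‖(η : ℂ)‖ = η := by
        rw [Complex.norm_real, Real.norm_eq_abs, abs_of_pos hη]
      refine ⟨-(t * η), η, η, by ring, hη0, ?_, ?_, ?_⟩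
      · rw [hq, sub_zero, norm_neg, norm_mul, hηn]
        exact hηt
      · rw [hηn]
        linarith
      · rw [hηn]
        linarith
    · obtain ⟨η, hη, hηρ, hηt, _⟩ := small_eta (t / q a) hρ
      have hη0 : (η : ℂ) ≠ 0 := by
        rw [Complex.ofReal_ne_zero]
        exact hη.ne'
      have hηn : ‖(η : ℂ)‖ = η := by
        rw [Complex.norm_real, Real.norm_eq_abs, abs_of_pos hη]
      refine ⟨q a, -(t / q a * η ^ 2), η, ?_, ?_, ?_, ?_, ?_⟩
      · field_simp
        ring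
      · exact neg_ne_zero.2 (mul_ne_zero (div_ne_zero ht hq) (pow_ne_zero 2 hη0))
      · rw [sub_self, norm_zero]
        positivity
      · rw [norm_neg, norm_mul, norm_pow, hηn]
        exact hηt
      · rw [hηn]
        exact hηρ
  obtain ⟨a0, b0, c0, h0, hb0, ha0, hbρ, hcρ⟩ := hex
  obtain ⟨δ, hδ⟩ : ∃ δ : ℂ → (ι → ℂ), δ = fun ζ => Function.update (Function.update
      (Function.update q c c0) b b0) a (a0 + ζ) := ⟨_, rfl⟩
  have ea : ∀ ζ, δ ζ a = a0 + ζ := by
    intro ζ
    rw [hδ]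
    simp
  have eb : ∀ ζ, δ ζ b = b0 := by
    intro ζ
    rw [hδ]
    simp [hab.symm]
  have ec : ∀ ζ, δ ζ c = c0 := by
    intro ζ
    rw [hδ]
    simp [hac.symm, hbc.symm]
  have eo : ∀ ζ l, l ≠ a → l ≠ b → l ≠ c → δ ζ l = q l := by
    intro ζ l h1 h2 h3
    rw [hδ]
    simp [h1, h2, h3]
  refine ⟨ρ / 2, δ, fun _ => b0, fun _ => b0, by positivity, ?_, ?_, continuousOn_const,
    continuousOn_const, fun _ _ => hb0, fun _ _ => hb0, ?_, ?_⟩
  · rw [hδ]
    exact ((continuous_const (y := Function.update (Function.update q c c0) b b0)).update a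
      (by fun_prop)).continuousOn
  · intro ζ hζ
    constructor
    · apply hsub
      rw [ball_eq hρ]
      intro l
      by_cases h1 : l = a
      · subst h1
        rw [ea]
        have h2 : a0 + ζ - q l = (a0 - q l) + ζ := by ring
        rw [h2]
        calc ‖(a0 - q l) + ζ‖ ≤ ‖a0 - q l‖ + ‖ζ‖ := norm_add_le _ _
          _ < ρ / 2 + ρ / 2 := add_lt_add ha0 (mem_ball_zero_iff.1 hζ.1)
          _ = ρ := by ring
      · by_cases h2 : l = b
        · subst h2
          rw [eb, hb, sub_zero]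
          exact hbρ
        · by_cases h3 : l = c
          · subst h3
            rw [ec, hc, sub_zero]
            exact hcρ
          · rw [eo ζ l h1 h2 h3, sub_self, norm_zero]
            exact hρ
    · simp only [Bm, mem_ofPred_eq]
      rw [ea, eb, ec]
      push Not
      refine ⟨hb0, ?_⟩
      have h1 : (a0 + ζ) * b0 + t * c0 ^ 2 = ζ * b0 := by linear_combination h0
      rw [h1]
      exact mul_ne_zero hζ.2 hb0
  · intro ζ _
    beta_reduce
    rw [ea, eb, ec]
    linear_combination h0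
  · intro ζ _
    exact eb ζ

end Pool.Agent.Hhelper97.NodeBlow
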