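import Pool.Agent.Hhelper97.TopBlow.Shear

/-!
The displacement function of the shear which trivialises the family.
-/

set_option autoImplicit false

open Filter Topology

namespace Pool.Agent.Hhelper97.NodeBlow

/-- the displacement on the surface; the arguments are `y`, `z` and `t` -/
noncomputable def sf (w : ℂ × ℂ × ℂ) : ℂ := w.2.2 * w.2.1 ^ 2 / w.1

/-- the model surface is `x = x0 (y, z)` -/
noncomputable def x0 (n : ℕ) (w : ℂ × ℂ × ℂ) : ℂ := -(w.2.1 ^ (n + 5) / w.1 ^ (n + 3))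

/-- radius of the cut-off -/
noncomputable def rad (n : ℕ) (w : ℂ × ℂ × ℂ) : ℝ := 2 * ‖sf w‖ + ‖x0 n w‖ / 2 + ‖w.1‖

open Classical in
/-- the displacement; the arguments are `x` and `(y, z, t)` -/
noncomputable def psi (n : ℕ) (q : ℂ × (ℂ × ℂ × ℂ)) : ℂ :=
  if q.2.1 ≠ 0 then
    sf q.2 * ((max 0 (1 - ‖q.1 - x0 n q.2‖ / rad n q.2) : ℝ) : ℂ) else 0

theorem rad_pos {n : ℕ} {w : ℂ × ℂ × ℂ} (h : w.1 ≠ 0) : 0 < rad n w := by
  have h1 : 0 < ‖w.1‖ := norm_pos_iff.2 h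
  unfold rad
  positivity

theorem psi_lip {n : ℕ} (x x' : ℂ) (w : ℂ × ℂ × ℂ) :
    ‖psi n (x, w) - psi n (x', w)‖ ≤ (1 / 2) * ‖x - x'‖ := by
  unfold psi
  simp only
  by_cases h : w.1 ≠ 0
  · rw [if_pos h, if_pos h, ← mul_sub, ← Complex.ofReal_sub, norm_mul, Complex.norm_real,
      Real.norm_eq_abs]
    have hr := rad_pos (n := n) h
    have h1 := abs_max_sub_max_le_abs (1 - ‖x - x0 n w‖ / rad n w)
      (1 - ‖x' - x0 n w‖ / rad n w) 0
    rw [max_comm, max_comm (1 - ‖x' - x0 n w‖ / rad n w) 0] at h1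
    have h2 : |(1 - ‖x - x0 n w‖ / rad n w) - (1 - ‖x' - x0 n w‖ / rad n w)| ≤
        ‖x - x'‖ / rad n w := by
      have h3 : (1 - ‖x - x0 n w‖ / rad n w) - (1 - ‖x' - x0 n w‖ / rad n w) =
          (‖x' - x0 n w‖ - ‖x - x0 n w‖) / rad n w := by ring
      rw [h3, abs_div, abs_of_pos hr]
      apply div_le_div_of_nonneg_right _ hr.le
      have h4 := abs_norm_sub_norm_le (x' - x0 n w) (x - x0 n w)
      have h5 : x' - x0 n w - (x - x0 n w) = -(x - x') := by ring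
      rw [h5, norm_neg] at h4
      exact h4
    have h6 : ‖sf w‖ ≤ (1 / 2) * rad n w := by
      have := norm_nonneg (x0 n w)
      have := norm_nonneg w.1
      unfold rad
      linarith
    calc _ ≤ ‖sf w‖ * (‖x - x'‖ / rad n w) :=
          mul_le_mul_of_nonneg_left (h1.trans h2) (norm_nonneg _)
      _ ≤ (1 / 2) * rad n w * (‖x - x'‖ / rad n w) :=
          mul_le_mul_of_nonneg_right h6 (by positivity)
      _ = (1 / 2) * ‖x - x'‖ := by field_simp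
  · rw [if_neg h, if_neg h, sub_zero, norm_zero]
    positivity

theorem psi_zero {n : ℕ} {q : ℂ × (ℂ × ℂ × ℂ)} (h : q.2.1 = 0) : psi n q = 0 := by
  unfold psi
  rw [if_neg (not_not.2 h)]

theorem psi_at {n : ℕ} {w : ℂ × ℂ × ℂ} (h : w.1 ≠ 0) : psi n (x0 n w, w) = sf w := by
  unfold psi
  simp only
  rw [if_pos h]
  simp

theorem norm_psi_le {n : ℕ} (q : ℂ × (ℂ × ℂ × ℂ)) : ‖psi n q‖ ≤ ‖sf q.2‖ := by
  unfold psi
  by_cases h : q.2.1 ≠ 0
  · rw [if_pos h, norm_mul, Complex.norm_real, Real.norm_eq_abs]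
    have hr := rad_pos (n := n) (w := q.2) h
    have h1 : |max 0 (1 - ‖q.1 - x0 n q.2‖ / rad n q.2)| ≤ 1 := by
      rw [abs_of_nonneg (le_max_left _ _)]
      apply max_le zero_le_one
      have : 0 ≤ ‖q.1 - x0 n q.2‖ / rad n q.2 := by positivity
      linarith
    calc _ ≤ ‖sf q.2‖ * 1 := mul_le_mul_of_nonneg_left h1 (norm_nonneg _)
      _ = _ := mul_one _
  · rw [if_neg h, norm_zero]
    exact norm_nonneg _

/-- where the displacement does not vanish, the model surface is not far -/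
theorem constraint {n : ℕ} {q : ℂ × (ℂ × ℂ × ℂ)} (hq : psi n q ≠ 0) :
    q.2.1 ≠ 0 ∧ ‖q.2.2.1‖ ^ (n + 5) ≤
      ‖q.2.1‖ ^ (n + 3) * (2 * ‖q.1‖ + 4 * ‖sf q.2‖ + 2 * ‖q.2.1‖) := by
  have h : q.2.1 ≠ 0 := by
    intro h
    exact hq (psi_zero h)
  refine ⟨h, ?_⟩
  have h0 : ‖x0 n q.2‖ ≤ 2 * ‖q.1‖ + 4 * ‖sf q.2‖ + 2 * ‖q.2.1‖ := by
    by_contra hcon
    push Not at hcon
    apply hq
    have hr := rad_pos (n := n) (w := q.2) h
    unfold psi
    rw [if_pos h]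
    have h1 : rad n q.2 ≤ ‖q.1 - x0 n q.2‖ := by
      have h2 := norm_sub_norm_le (x0 n q.2) q.1
      rw [norm_sub_rev] at h2
      unfold rad
      linarith
    have h3 : 1 - ‖q.1 - x0 n q.2‖ / rad n q.2 ≤ 0 := by
      have : 1 ≤ ‖q.1 - x0 n q.2‖ / rad n q.2 := (one_le_div hr).2 h1
      linarith
    rw [max_eq_left h3]
    simp
  have h1 : ‖q.2.2.1‖ ^ (n + 5) = ‖q.2.1‖ ^ (n + 3) * ‖x0 n q.2‖ := by
    unfold x0
    rw [norm_neg, norm_div, norm_pow, norm_pow, mul_div_cancel₀]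
    exact pow_ne_zero _ (norm_ne_zero_iff.2 h)
  rw [h1]
  exact mul_le_mul_of_nonneg_left h0 (by positivity)

theorem sf_mul {w : ℂ × ℂ × ℂ} (h : w.1 ≠ 0) : ‖sf w‖ * ‖w.1‖ = ‖w.2.2‖ * ‖w.2.1‖ ^ 2 := by
  unfold sf
  rw [norm_div, norm_mul, norm_pow, div_mul_cancel₀]
  exact norm_ne_zero_iff.2 h

theorem tendsto_psi_zero {n : ℕ} {p : ℂ × (ℂ × ℂ × ℂ)} (hz : p.2.2.1 = 0) :
    Tendsto (psi n) (𝓝 p) (𝓝 0) := by
  rw [Metric.tendsto_nhds]
  intro ε hε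
  obtain ⟨R, hR⟩ : ∃ R, R = ‖p.1‖ + 1 := ⟨_, rfl⟩
  obtain ⟨Y, hY⟩ : ∃ Y, Y = ‖p.2.1‖ + 1 := ⟨_, rfl⟩
  obtain ⟨T, hT⟩ : ∃ T, T = ‖p.2.2.2‖ + 1 := ⟨_, rfl⟩
  obtain ⟨K, hK⟩ : ∃ K, K = 2 * R / ε + 4 + 2 * Y / ε := ⟨_, rfl⟩
  have hR0 : 0 ≤ R := by rw [hR]; positivity
  have hY0 : 0 ≤ Y := by rw [hY]; positivity
  have hT0 : 0 ≤ T := by rw [hT]; positivity
  have hK0 : 0 ≤ K := by rw [hK]; positivity
  have c1 : Continuous (fun q : ℂ × (ℂ × ℂ × ℂ) => ‖q.1‖) := by fun_prop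
  have c2 : Continuous (fun q : ℂ × (ℂ × ℂ × ℂ) => ‖q.2.1‖) := by fun_prop
  have c3 : Continuous (fun q : ℂ × (ℂ × ℂ × ℂ) => ‖q.2.2.2‖) := by fun_prop
  have c4 : Continuous (fun q : ℂ × (ℂ × ℂ × ℂ) => T ^ (n + 3) * ‖q.2.2.1‖ ^ (n + 1) * K) := by
    fun_prop
  have e1 : ∀ᶠ q in 𝓝 p, ‖q.1‖ < R := (c1.tendsto p).eventually_lt_const (by rw [hR]; linarith)
  have e2 : ∀ᶠ q in 𝓝 p, ‖q.2.1‖ < Y := (c2.tendsto p).eventually_lt_const (by rw [hY]; linarith)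
  have e3 : ∀ᶠ q in 𝓝 p, ‖q.2.2.2‖ < T :=
    (c3.tendsto p).eventually_lt_const (by rw [hT]; linarith)
  have e4 : ∀ᶠ q in 𝓝 p, T ^ (n + 3) * ‖q.2.2.1‖ ^ (n + 1) * K < ε ^ (n + 2) :=
    (c4.tendsto p).eventually_lt_const (by rw [hz]; simp; positivity)
  filter_upwards [e1, e2, e3, e4] with q h1 h2 h3 h4
  rw [dist_zero_right]
  by_contra hcon
  push Not at hcon
  have hne : psi n q ≠ 0 := by
    intro h0
    rw [h0, norm_zero] at hcon
    linarith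
  have hs : ε ≤ ‖sf q.2‖ := hcon.trans (norm_psi_le q)
  obtain ⟨hy, hc⟩ := constraint hne
  have hsm := sf_mul hy
  obtain ⟨s, hs'⟩ : ∃ s, s = ‖sf q.2‖ := ⟨_, rfl⟩
  obtain ⟨a, ha⟩ : ∃ a, a = ‖q.2.1‖ := ⟨_, rfl⟩
  obtain ⟨b, hb⟩ : ∃ b, b = ‖q.2.2.1‖ := ⟨_, rfl⟩
  obtain ⟨τ, hτ⟩ : ∃ τ, τ = ‖q.2.2.2‖ := ⟨_, rfl⟩
  obtain ⟨x, hx⟩ : ∃ x, x = ‖q.1‖ := ⟨_, rfl⟩
  have ha0 : 0 ≤ a := by rw [ha]; exact norm_nonneg _
  have hb0 : 0 ≤ b := by rw [hb]; exact norm_nonneg _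
  have hτ0 : 0 ≤ τ := by rw [hτ]; exact norm_nonneg _
  have hx0 : 0 ≤ x := by rw [hx]; exact norm_nonneg _
  rw [← hs', ← ha, ← hb, ← hx] at hc
  rw [← hs', ← ha, ← hb, ← hτ] at hsm
  rw [← hs'] at hs
  rw [← hb] at h4
  rw [← hx] at h1
  rw [← ha] at h2
  rw [← hτ] at h3
  have hs0 : 0 < s := lt_of_lt_of_le hε hs
  have hbp : 0 < b := by
    rcases hb0.eq_or_lt with h | h
    · exfalso
      rw [← h] at hsm
      have h5 : s * a = 0 := by rw [hsm]; ring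
      rcases mul_eq_zero.1 h5 with h6 | h6
      · exact hs0.ne' h6
      · rw [h6] at ha
        exact hy (norm_eq_zero.1 ha.symm)
    · exact h
  have hM : 2 * x + 4 * s + 2 * a ≤ s * K := by
    have h7 : 1 ≤ s / ε := (one_le_div hε).2 hs
    have h8 : 2 * x ≤ 2 * R * (s / ε) := by
      calc 2 * x ≤ 2 * R * 1 := by linarith
        _ ≤ 2 * R * (s / ε) := mul_le_mul_of_nonneg_left h7 (by linarith)
    have h9 : 2 * a ≤ 2 * Y * (s / ε) := by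
      calc 2 * a ≤ 2 * Y * 1 := by linarith
        _ ≤ 2 * Y * (s / ε) := mul_le_mul_of_nonneg_left h7 (by linarith)
    calc _ ≤ 2 * R * (s / ε) + 4 * s + 2 * Y * (s / ε) := by linarith
      _ = _ := by rw [hK]; ring
  have h5 : s ^ (n + 3) ≤ T ^ (n + 3) * b ^ (n + 1) * K * s := by
    apply le_of_mul_le_mul_right _ (pow_pos hbp (n + 5))
    calc s ^ (n + 3) * b ^ (n + 5)
        ≤ s ^ (n + 3) * (a ^ (n + 3) * (2 * x + 4 * s + 2 * a)) :=
          mul_le_mul_of_nonneg_left hc (by positivity)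
      _ = (s * a) ^ (n + 3) * (2 * x + 4 * s + 2 * a) := by rw [mul_pow]; ring
      _ = (τ * b ^ 2) ^ (n + 3) * (2 * x + 4 * s + 2 * a) := by rw [hsm]
      _ ≤ (T * b ^ 2) ^ (n + 3) * (s * K) := by
          apply mul_le_mul _ hM (by positivity) (by positivity)
          apply pow_le_pow_left₀ (by positivity)
          exact mul_le_mul_of_nonneg_right h3.le (by positivity)
      _ = T ^ (n + 3) * b ^ (n + 1) * K * s * b ^ (n + 5) := by
          rw [mul_pow, ← pow_mul]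
          have : b ^ (2 * (n + 3)) = b ^ (n + 1) * b ^ (n + 5) := by
            rw [← pow_add]; congr 1; ring
          rw [this]
          ring
  have h6 : s ^ (n + 2) ≤ T ^ (n + 3) * b ^ (n + 1) * K := by
    apply le_of_mul_le_mul_right _ hs0
    calc s ^ (n + 2) * s = s ^ (n + 3) := by ring
      _ ≤ _ := h5
  have h7 : ε ^ (n + 2) ≤ s ^ (n + 2) := pow_le_pow_left₀ hε.le hs _
  linarith

theorem eventually_psi_zero {n : ℕ} {p : ℂ × (ℂ × ℂ × ℂ)} (hy : p.2.1 = 0)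
    (hz : p.2.2.1 ≠ 0) : ∀ᶠ q in 𝓝 p, psi n q = 0 := by
  have c1 : Continuous (fun q : ℂ × (ℂ × ℂ × ℂ) =>
      ‖q.2.1‖ ^ (n + 3) * (2 * ‖q.1‖ + 2 * ‖q.2.1‖) +
        4 * (‖q.2.2.2‖ * ‖q.2.2.1‖ ^ 2) * ‖q.2.1‖ ^ (n + 2)) := by fun_prop
  have c2 : Continuous (fun q : ℂ × (ℂ × ℂ × ℂ) => ‖q.2.2.1‖ ^ (n + 5)) := by fun_prop
  have hz0 : 0 < ‖p.2.2.1‖ := norm_pos_iff.2 hz
  have e1 := (c1.tendsto p).eventually_lt (c2.tendsto p) (by
    rw [hy]
    simp only [norm_zero, ne_eq, Nat.add_eq_zero_iff, OfNat.ofNat_ne_zero, and_false,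
      not_false_eq_true, zero_pow, mul_zero, zero_mul, add_zero]
    positivity)
  filter_upwards [e1] with q h1
  by_contra hne
  obtain ⟨hy, hc⟩ := constraint hne
  have hsm := sf_mul hy
  have h2 : ‖q.2.1‖ ^ (n + 3) * (2 * ‖q.1‖ + 4 * ‖sf q.2‖ + 2 * ‖q.2.1‖) =
      ‖q.2.1‖ ^ (n + 3) * (2 * ‖q.1‖ + 2 * ‖q.2.1‖) +
        4 * (‖sf q.2‖ * ‖q.2.1‖) * ‖q.2.1‖ ^ (n + 2) := by ring
  rw [h2, hsm] at hc
  linarith

theorem continuous_psi {n : ℕ} : Continuous (psi n) := by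
  rw [continuous_iff_continuousAt]
  intro p
  by_cases h : p.2.1 = 0
  · change Tendsto (psi n) (𝓝 p) (𝓝 (psi n p))
    rw [psi_zero h]
    by_cases hz : p.2.2.1 = 0
    · exact tendsto_psi_zero hz
    · apply Tendsto.congr' _ tendsto_const_nhds
      filter_upwards [eventually_psi_zero (n := n) h hz] with q hq
      exact hq.symm
  · have d1 : ContinuousAt sf p.2 := by
      unfold sf
      exact (by fun_prop : Continuous (fun w : ℂ × ℂ × ℂ => w.2.2 * w.2.1 ^ 2)).continuousAt.div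
        continuousAt_fst h
    have d2 : ContinuousAt (x0 n) p.2 := by
      unfold x0
      exact ((by fun_prop : Continuous (fun w : ℂ × ℂ × ℂ => w.2.1 ^ (n + 5))).continuousAt.div
        (by fun_prop : Continuous (fun w : ℂ × ℂ × ℂ => w.1 ^ (n + 3))).continuousAt
        (pow_ne_zero _ h)).neg
    have d4 : ContinuousAt (rad n) p.2 := by
      unfold rad
      exact ((continuousAt_const.mul d1.norm).add (d2.norm.div_const 2)).add
        continuousAt_fst.norm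
    have hr := rad_pos (n := n) (w := p.2) h
    have t1 : ContinuousAt (fun q : ℂ × (ℂ × ℂ × ℂ) => sf q.2) p := d1.comp continuousAt_snd
    have t3 : ContinuousAt (fun q : ℂ × (ℂ × ℂ × ℂ) => x0 n q.2) p := d2.comp continuousAt_snd
    have t4 : ContinuousAt (fun q : ℂ × (ℂ × ℂ × ℂ) => rad n q.2) p := d4.comp continuousAt_snd
    have t5 : ContinuousAt (fun q : ℂ × (ℂ × ℂ × ℂ) =>
        (max 0 (1 - ‖q.1 - x0 n q.2‖ / rad n q.2) : ℝ)) p := by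
      have t7 : ContinuousAt (fun q : ℂ × (ℂ × ℂ × ℂ) =>
          (1 - ‖q.1 - x0 n q.2‖ / rad n q.2 : ℝ)) p := by
        apply continuousAt_const.sub
        exact (continuousAt_fst.sub t3).norm.div t4 hr.ne'
      have t8 : Continuous (fun t : ℝ => max 0 t) := by fun_prop
      exact t8.continuousAt.comp t7
    have t6 : ContinuousAt (fun q : ℂ × (ℂ × ℂ × ℂ) =>
        sf q.2 * ((max 0 (1 - ‖q.1 - x0 n q.2‖ / rad n q.2) : ℝ) : ℂ)) p :=
      t1.mul (Complex.continuous_ofReal.continuousAt.comp t5)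
    apply t6.congr
    have c7 : Continuous (fun q : ℂ × (ℂ × ℂ × ℂ) => q.2.1) := by fun_prop
    filter_upwards [c7.continuousAt.eventually_ne h] with q hq
    unfold psi
    rw [if_pos hq]

end Pool.Agent.Hhelper97.NodeBlow
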