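import Pool.Agent.Hhelper97.NodeBlow.ExcV
import Pool.Agent.Hhelper97.NodeBlow.Psi

/-!
The polynomials of the family, and the homeomorphism which trivialises the family.
-/

set_option autoImplicit false

open Filter Topology Finset MvPolynomial
open Pool.Agent.Hhelper97.TopBlow (exists_shear)

namespace Pool.Agent.Hhelper97.NodeBlow

variable {k : ℕ}

theorem m01 : (0 : Fin (k + 3)) ≠ 1 := by
  intro h
  have := congrArg Fin.val h
  simp at this

theorem m02 : (0 : Fin (k + 3)) ≠ 2 := by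
  intro h
  have := congrArg Fin.val h
  rw [fin2, Fin.val_zero] at this
  omega

theorem m12 : (1 : Fin (k + 3)) ≠ 2 := by
  intro h
  have := congrArg Fin.val h
  rw [fin2, Fin.val_one] at this
  omega

/-- the leading form -/
noncomputable def GG (k n : ℕ) (t : ℂ) : MvPolynomial (Fin (k + 3)) ℂ :=
  X 0 * X 1 ^ (n + 3) + C t * (X 1 ^ (n + 2) * X 2 ^ 2)

theorem FF_def (k n : ℕ) (t : ℂ) : FF k n t = GG k n t + X 2 ^ (n + 5) := by
  unfold FF GG
  ring

theorem isHomogeneous_GG (n : ℕ) (t : ℂ) : (GG k n t).IsHomogeneous (n + 4) := by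
  unfold GG
  apply IsHomogeneous.add
  · convert (isHomogeneous_X ℂ (0 : Fin (k + 3))).mul
      ((isHomogeneous_X ℂ (1 : Fin (k + 3))).pow (n + 3)) using 1
    ring
  · have h := (((isHomogeneous_X ℂ (1 : Fin (k + 3))).pow (n + 2)).mul
      ((isHomogeneous_X ℂ (2 : Fin (k + 3))).pow 2)).C_mul t
    convert h using 1
    ring

theorem GG_ne_zero (n : ℕ) (t : ℂ) : GG k n t ≠ 0 := by
  intro h
  have h1 : eval (fun i : Fin (k + 3) => if i = 2 then (0 : ℂ) else 1) (GG k n t) = 0 := by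
    rw [h, map_zero]
  unfold GG at h1
  simp [m02, m12] at h1

theorem order_FF (n : ℕ) (t : ℂ) :
    (∀ l < n + 4, homogeneousComponent l (FF k n t) = 0) ∧
      homogeneousComponent (n + 4) (FF k n t) ≠ 0 := by
  have h1 : ∀ l, homogeneousComponent l (GG k n t) = if l = n + 4 then GG k n t else 0 :=
    fun l => homogeneousComponent_of_mem (isHomogeneous_GG n t)
  have h2 : ∀ l, homogeneousComponent l (X 2 ^ (n + 5) : MvPolynomial (Fin (k + 3)) ℂ) =
      if l = n + 5 then X 2 ^ (n + 5) else 0 :=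
    fun l => homogeneousComponent_of_mem (isHomogeneous_X_pow 2 _)
  constructor
  · intro l hl
    rw [FF_def, map_add, h1, h2, if_neg (by omega), if_neg (by omega), add_zero]
  · rw [FF_def, map_add, h1, h2, if_pos rfl, if_neg (by omega), add_zero]
    exact GG_ne_zero n t

/-! ### Irreducibility and smoothness off the axis -/

theorem pd_X {l : Fin (k + 3)} (hl : l ≠ 0) :
    pderiv 0 (X l : MvPolynomial (Fin (k + 3)) ℂ) = 0 :=
  pderiv_X_of_ne hl

theorem pd_tail (n : ℕ) (t : ℂ) :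
    pderiv 0 (C t * (X 1 ^ (n + 2) * X 2 ^ 2) : MvPolynomial (Fin (k + 3)) ℂ) = 0 := by
  rw [pderiv_C_mul]
  simp only [Derivation.leibniz, Derivation.leibniz_pow, pd_X m01.symm, pd_X m02.symm,
    smul_zero, mul_zero, add_zero]

theorem pd_FF (n : ℕ) (t : ℂ) : pderiv 0 (FF k n t) = X 1 ^ (n + 3) := by
  unfold FF
  rw [map_add, pd_tail]
  simp only [map_add, Derivation.leibniz, Derivation.leibniz_pow, pd_X m01.symm, pd_X m02.symm,
    pderiv_X_self, smul_eq_mul, smul_zero, add_zero, mul_one, zero_add, mul_zero]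

theorem not_mem_vars_of_pd {F : MvPolynomial (Fin (k + 3)) ℂ} (h : pderiv 0 F = 0) :
    (0 : Fin (k + 3)) ∉ F.vars := by
  classical
  intro hm
  rw [mem_vars_iff_mem_support] at hm
  obtain ⟨d, hd, h0⟩ := hm
  have hd0 : d 0 ≠ 0 := by
    rw [Finsupp.mem_support_iff] at h0
    exact h0
  have h1 : coeff (d - Finsupp.single 0 1) (pderiv 0 F) = 0 := by rw [h, coeff_zero]
  rw [coeff_pderiv] at h1
  have h2 : d - Finsupp.single 0 1 + Finsupp.single 0 1 = d := by
    ext l
    by_cases hl : l = 0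
    · subst hl
      simp
      omega
    · simp [Ne.symm hl]
  rw [h2] at h1
  rw [mem_support_iff] at hd
  rcases mul_eq_zero.1 h1 with h3 | h3
  · exact hd h3
  · exact Nat.cast_add_one_ne_zero _ h3

/-- the part of the polynomial without `x` -/
noncomputable def Bp (k n : ℕ) (t : ℂ) : MvPolynomial (Fin (k + 3)) ℂ :=
  X 2 ^ (n + 5) + C t * (X 1 ^ (n + 2) * X 2 ^ 2)

theorem FF_eq (n : ℕ) (t : ℂ) : FF k n t = X 1 ^ (n + 3) * X 0 + Bp k n t := by
  unfold FF Bp
  ring

theorem irreducible_FF (n : ℕ) (t : ℂ) : Irreducible (FF k n t) := by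
  rw [FF_eq]
  apply irreducible_mul_X_add
  · exact pow_ne_zero _ (X_ne_zero _)
  · apply not_mem_vars_of_pd
    simp only [Derivation.leibniz_pow, pd_X m01.symm, smul_zero]
  · apply not_mem_vars_of_pd
    unfold Bp
    rw [map_add, pd_tail]
    simp only [Derivation.leibniz_pow, pd_X m02.symm, smul_zero, add_zero]
  · apply IsRelPrime.pow_left
    have hX : Irreducible (X 1 : MvPolynomial (Fin (k + 3)) ℂ) :=
      (MvPolynomial.X_prime (R := ℂ) (i := (1 : Fin (k + 3)))).irreducible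
    rw [hX.isRelPrime_iff_not_dvd]
    rintro ⟨K, hK⟩
    have h1 := congrArg (eval (fun i : Fin (k + 3) => if i = 2 then (1 : ℂ) else 0)) hK
    unfold Bp at h1
    simp [m12] at h1

theorem mem_zeros {n : ℕ} (t : ℂ) (p : Fin (k + 3) → ℂ) : p ∈ zeros (FF k n t) ↔
    (p 1 ≠ 0 ∧ p 0 = x0 n (p 1, p 2, t) - sf (p 1, p 2, t)) ∨ (p 1 = 0 ∧ p 2 = 0) := by
  unfold zeros
  rw [Set.mem_ofPred_eq, eval_FF]
  unfold Gv
  by_cases hy : p 1 = 0
  · rw [hy]
    have h0 : (0 : ℂ) ^ (n + 2) = 0 := zero_pow (by omega)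
    rw [h0, zero_mul, zero_add, pow_eq_zero_iff (by omega)]
    simp
  · have key : p 1 ^ (n + 2) * (p 0 * p 1 + t * p 2 ^ 2) + p 2 ^ (n + 5) =
        p 1 ^ (n + 3) * (p 0 - (x0 n (p 1, p 2, t) - sf (p 1, p 2, t))) := by
      unfold x0 sf
      simp only
      have e1 : p 1 ^ (n + 3) = p 1 ^ (n + 2) * p 1 := pow_succ _ _
      rw [e1]
      field_simp
      ring
    rw [key]
    constructor
    · intro h
      left
      exact ⟨hy, sub_eq_zero.1 ((mul_eq_zero.1 h).resolve_left (pow_ne_zero _ hy))⟩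
    · rintro (⟨_, h⟩ | ⟨h, _⟩)
      · rw [h, sub_self, mul_zero]
      · exact absurd h hy

/-- the hypersurfaces are smooth off `y = z = 0` -/
theorem smooth_off_axis {n : ℕ} (t : ℂ) (p : Fin (k + 3) → ℂ) (hp : p ∈ zeros (FF k n t))
    (h : p 1 ≠ 0 ∨ p 2 ≠ 0) : eval p (pderiv 0 (FF k n t)) ≠ 0 := by
  rw [pd_FF, map_pow, eval_X]
  apply pow_ne_zero
  rcases (mem_zeros t p).1 hp with ⟨h1, _⟩ | ⟨h1, h2⟩
  · exact h1
  · rcases h with h | h
    · exact h
    · exact absurd h2 h

/-! ### The trivialisation -/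

/-- complex space times the parameter space -/
def E3 (k : ℕ) : ((Fin (k + 3) → ℂ) × ℂ) ≃ₜ ℂ × ((Fin (k + 2) → ℂ) × ℂ) where
  toFun p := (p.1 0, (fun j => p.1 j.succ, p.2))
  invFun q := (Fin.cons q.1 q.2.1, q.2.2)
  left_inv p := by
    refine Prod.ext ?_ rfl
    funext i
    refine Fin.cases ?_ (fun j => ?_) i
    · rfl
    · rfl
  right_inv q := rfl
  continuous_toFun := by fun_prop
  continuous_invFun := by
    apply Continuous.prodMk
    · apply continuous_pi
      intro i
      refine Fin.cases ?_ (fun j => ?_) i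
      · exact continuous_fst
      · exact (continuous_apply j).comp (continuous_fst.comp continuous_snd)
    · exact continuous_snd.comp continuous_snd

theorem sf_param_zero (y z : ℂ) : sf (y, z, 0) = 0 := by
  unfold sf
  simp

theorem x0_param (n : ℕ) (y z t : ℂ) : x0 n (y, z, t) = x0 n (y, z, 0) := rfl

/-- the family is topologically trivial over the parameter space -/
theorem exists_trivialisation (k n : ℕ) :
    ∃ Θ : ((Fin (k + 3) → ℂ) × ℂ) ≃ₜ ((Fin (k + 3) → ℂ) × ℂ),
      (∀ p t, (Θ (p, t)).2 = t ∧ ∀ i, i ≠ 0 → (Θ (p, t)).1 i = p i) ∧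
      (∀ p t, p 1 = 0 → Θ (p, t) = (p, t)) ∧
      (∀ p t, p ∈ zeros (FF k n 0) ↔ (Θ (p, t)).1 ∈ zeros (FF k n t)) := by
  obtain ⟨ψ, hψ⟩ : ∃ ψ : ℂ × ((Fin (k + 2) → ℂ) × ℂ) → ℂ,
      ψ = fun q => psi n (q.1, (q.2.1 0, q.2.1 1, q.2.2)) := ⟨_, rfl⟩
  have hψc : Continuous ψ := by
    rw [hψ]
    exact continuous_psi.comp (by fun_prop)
  obtain ⟨g, hg⟩ := exists_shear hψc (fun x x' w => by rw [hψ]; exact psi_lip x x' _)
  have s0 : Fin.succ (0 : Fin (k + 2)) = 1 := rfl
  have s1 : Fin.succ (1 : Fin (k + 2)) = 2 := rfl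
  have hΘ : ∀ p t, ((E3 k).trans (g.trans (E3 k).symm)) (p, t) =
      (Function.update p 0 (p 0 - psi n (p 0, (p 1, p 2, t))), t) := by
    intro p t
    change (E3 k).symm (g ((p 0, (fun j => p j.succ, t)))) = _
    rw [hg, hψ]
    refine Prod.ext ?_ rfl
    funext i
    refine Fin.cases ?_ (fun j => ?_) i
    · simp only [Function.update_self]
      rfl
    · simp only [Function.update_of_ne (Fin.succ_ne_zero j)]
      rfl
  refine ⟨(E3 k).trans (g.trans (E3 k).symm), ?_, ?_, ?_⟩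
  · intro p t
    rw [hΘ]
    refine ⟨rfl, fun i hi => ?_⟩
    simp only [Function.update_of_ne hi]
  · intro p t hp
    rw [hΘ, psi_zero hp, sub_zero, Function.update_eq_self]
  · intro p t
    rw [hΘ, mem_zeros, mem_zeros, sf_param_zero, sub_zero]
    simp only [Function.update_self, Function.update_of_ne m01.symm,
      Function.update_of_ne m02.symm]
    constructor
    · rintro (⟨h1, h2⟩ | ⟨h1, h2⟩)
      · left
        refine ⟨h1, ?_⟩
        have h3 := psi_at (n := n) (w := (p 1, p 2, t)) h1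
        rw [← x0_param n (p 1) (p 2) t] at h2
        rw [h2, h3]
      · right
        exact ⟨h1, h2⟩
    · rintro (⟨h1, h2⟩ | ⟨h1, h2⟩)
      · left
        refine ⟨h1, ?_⟩
        have h3 := psi_at (n := n) (w := (p 1, p 2, t)) h1
        have h4 : g (p 0, (fun j => p j.succ, t)) =
            g (x0 n (p 1, p 2, t), (fun j => p j.succ, t)) := by
          rw [hg, hg, hψ]
          simp only [s0, s1]
          rw [h2, h3]
        rw [← x0_param n (p 1) (p 2) t]
        exact congrArg Prod.fst (g.injective h4)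
      · right
        exact ⟨h1, h2⟩

end Pool.Agent.Hhelper97.NodeBlow
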