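import Pool.Agent.Hhelper97.NodeBlow.DefsIso
import Pool.Agent.Hhelper97.NodeBlow.Surf
import Pool.Agent.Hhelper97.WHTriv.Iso

/-!
The weighted homogeneous polynomials of the family: weights, order, critical points.
-/

set_option autoImplicit false

open Filter Topology Finset MvPolynomial

namespace Pool.Agent.Hhelper97.NodeBlow

variable {k : ℕ}

/-- the weighted degree -/
def dg (n : ℕ) : ℕ := (2 * n + 5) * (n + 2)

theorem dg_ge (n : ℕ) : n + 6 ≤ dg n := by
  unfold dg
  nlinarith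

/-- the perturbation -/
noncomputable def hI (k n : ℕ) : MvPolynomial (Fin (k + 3)) ℂ := X 1 ^ (n + 2) * X 2 ^ 2

theorem FI_eq (k n : ℕ) (t : ℂ) : FI k n t = FI k n 0 + C t * hI k n := by
  unfold FI hI
  rw [C_0]
  ring

theorem wt_zero (n : ℕ) : wt k n 0 = 1 := by
  unfold wt
  rw [if_pos rfl]

theorem wt_one (n : ℕ) : wt k n 1 = 2 * n + 3 := by
  unfold wt
  rw [if_neg m01.symm, if_pos rfl]

theorem ss_ne_zero (j : Fin (k + 1)) : j.succ.succ ≠ 0 := Fin.succ_ne_zero _

theorem ss_ne_one (j : Fin (k + 1)) : j.succ.succ ≠ 1 := by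
  intro h
  have := congrArg Fin.val h
  simp at this

theorem ss_zero : (0 : Fin (k + 1)).succ.succ = 2 := rfl

theorem wt_ss (n : ℕ) (j : Fin (k + 1)) : wt k n j.succ.succ = n + 2 := by
  unfold wt
  rw [if_neg (ss_ne_zero j), if_neg (ss_ne_one j)]

theorem wt_two (n : ℕ) : wt k n 2 = n + 2 := by
  rw [← ss_zero, wt_ss]

theorem wt_pos (n : ℕ) (i : Fin (k + 3)) : 1 ≤ wt k n i := by
  unfold wt
  split_ifs <;> omega

theorem wt_lt (n : ℕ) (i : Fin (k + 3)) : wt k n i < dg n := by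
  unfold wt dg
  split_ifs <;> nlinarith

theorem wh_hI (n : ℕ) : (hI k n).IsWeightedHomogeneous (wt k n) (dg n) := by
  unfold hI
  have h1 := ((isWeightedHomogeneous_X ℂ (wt k n) (1 : Fin (k + 3))).pow (n + 2)).mul
    ((isWeightedHomogeneous_X ℂ (wt k n) (2 : Fin (k + 3))).pow 2)
  convert h1 using 1
  rw [wt_one, wt_two]
  unfold dg
  simp only [smul_eq_mul]
  ring

theorem wh_FI0 (n : ℕ) : (FI k n 0).IsWeightedHomogeneous (wt k n) (dg n) := by
  have h1 : (X 0 * X 1 ^ (n + 3) : MvPolynomial (Fin (k + 3)) ℂ).IsWeightedHomogeneous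
      (wt k n) (dg n) := by
    have := (isWeightedHomogeneous_X ℂ (wt k n) (0 : Fin (k + 3))).mul
      ((isWeightedHomogeneous_X ℂ (wt k n) (1 : Fin (k + 3))).pow (n + 3))
    convert this using 1
    rw [wt_zero, wt_one]
    unfold dg
    simp only [smul_eq_mul]
    ring
  have h2 : (X 0 ^ ((2 * n + 5) * (n + 2)) :
      MvPolynomial (Fin (k + 3)) ℂ).IsWeightedHomogeneous (wt k n) (dg n) := by
    have := (isWeightedHomogeneous_X ℂ (wt k n) (0 : Fin (k + 3))).pow ((2 * n + 5) * (n + 2))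
    convert this using 1
    rw [wt_zero]
    unfold dg
    simp only [smul_eq_mul]
    ring
  have h3 : ∀ j : Fin (k + 1), (X j.succ.succ ^ (2 * n + 5) :
      MvPolynomial (Fin (k + 3)) ℂ).IsWeightedHomogeneous (wt k n) (dg n) := by
    intro j
    have := (isWeightedHomogeneous_X ℂ (wt k n) j.succ.succ).pow (2 * n + 5)
    convert this using 1
    rw [wt_ss]
    unfold dg
    simp only [smul_eq_mul]
  have h4 : FI k n 0 = X 0 * X 1 ^ (n + 3) + X 0 ^ ((2 * n + 5) * (n + 2)) +
      ∑ j : Fin (k + 1), X j.succ.succ ^ (2 * n + 5) := by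
    unfold FI
    rw [C_0]
    ring
  rw [h4]
  exact (h1.add h2).add (Submodule.sum_mem (weightedHomogeneousSubmodule ℂ (wt k n) (dg n))
    (fun j _ => h3 j))

theorem wh_FI (n : ℕ) (t : ℂ) : (FI k n t).IsWeightedHomogeneous (wt k n) (dg n) := by
  rw [FI_eq]
  apply (wh_FI0 n).add
  have h1 := (isWeightedHomogeneous_C (wt k n) t).mul (wh_hI (k := k) n)
  rwa [zero_add] at h1

theorem crit_FI0 (n : ℕ) (p : Fin (k + 3) → ℂ)
    (h : ∀ i, eval p (pderiv i (FI k n 0)) = 0) : p = 0 := by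
  have hd := dg_ge n
  have h4 : FI k n 0 = X 0 * X 1 ^ (n + 3) + X 0 ^ dg n +
      ∑ j : Fin (k + 1), X j.succ.succ ^ (2 * n + 5) := by
    unfold FI dg
    rw [C_0]
    ring
  have hss : ∀ j : Fin (k + 1), p j.succ.succ = 0 := by
    intro j
    have h1 := h j.succ.succ
    rw [h4, map_add, map_add, map_add, map_sum] at h1
    have e1 : pderiv j.succ.succ (X 0 * X 1 ^ (n + 3) : MvPolynomial (Fin (k + 3)) ℂ) = 0 := by
      rw [Derivation.leibniz, Derivation.leibniz_pow, pderiv_X_of_ne (ss_ne_zero j).symm,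
        pderiv_X_of_ne (ss_ne_one j).symm]
      simp
    have e2 : pderiv j.succ.succ (X 0 ^ dg n : MvPolynomial (Fin (k + 3)) ℂ) = 0 := by
      rw [Derivation.leibniz_pow, pderiv_X_of_ne (ss_ne_zero j).symm]
      simp
    have e3 : ∑ l : Fin (k + 1), pderiv j.succ.succ
        (X l.succ.succ ^ (2 * n + 5) : MvPolynomial (Fin (k + 3)) ℂ) =
        (2 * n + 5) • X j.succ.succ ^ (2 * n + 4) := by
      rw [Finset.sum_eq_single j]
      · rw [Derivation.leibniz_pow, pderiv_X_self]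
        simp
      · intro l _ hl
        have : l.succ.succ ≠ j.succ.succ := by
          intro h5
          exact hl (Fin.succ_injective _ (Fin.succ_injective _ h5))
        rw [Derivation.leibniz_pow, pderiv_X_of_ne this]
        simp
      · intro h5
        exact absurd (Finset.mem_univ j) h5
    rw [e1, e2, e3, add_zero, map_zero, zero_add, map_nsmul, map_pow, eval_X,
      nsmul_eq_mul] at h1
    have h6 : (((2 * n + 5 : ℕ)) : ℂ) ≠ 0 := Nat.cast_ne_zero.2 (by omega)
    exact pow_eq_zero_iff (by omega) |>.1 ((mul_eq_zero.1 h1).resolve_left h6)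
  have h0 := h 0
  have h1 := h 1
  rw [h4, map_add, map_add, map_add, map_sum] at h0 h1
  have e0 : ∑ l : Fin (k + 1), pderiv 0
      (X l.succ.succ ^ (2 * n + 5) : MvPolynomial (Fin (k + 3)) ℂ) = 0 := by
    apply Finset.sum_eq_zero
    intro l _
    rw [Derivation.leibniz_pow, pderiv_X_of_ne (ss_ne_zero l)]
    simp
  have e1 : ∑ l : Fin (k + 1), pderiv 1
      (X l.succ.succ ^ (2 * n + 5) : MvPolynomial (Fin (k + 3)) ℂ) = 0 := by
    apply Finset.sum_eq_zero
    intro l _
    rw [Derivation.leibniz_pow, pderiv_X_of_ne (ss_ne_one l)]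
    simp
  have f0 : pderiv 0 (X 0 * X 1 ^ (n + 3) : MvPolynomial (Fin (k + 3)) ℂ) = X 1 ^ (n + 3) := by
    rw [Derivation.leibniz, Derivation.leibniz_pow, pderiv_X_self, pderiv_X_of_ne m01.symm]
    simp
  have f1 : pderiv 1 (X 0 * X 1 ^ (n + 3) : MvPolynomial (Fin (k + 3)) ℂ) =
      (n + 3) • (X 0 * X 1 ^ (n + 2)) := by
    rw [Derivation.leibniz, Derivation.leibniz_pow, pderiv_X_self, pderiv_X_of_ne m01]
    simp only [smul_eq_mul, mul_one, mul_zero, add_zero, nsmul_eq_mul]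
    have : n + 3 - 1 = n + 2 := by omega
    rw [this]
    ring
  have g0 : pderiv 0 (X 0 ^ dg n : MvPolynomial (Fin (k + 3)) ℂ) =
      dg n • X 0 ^ (dg n - 1) := by
    rw [Derivation.leibniz_pow, pderiv_X_self]
    simp
  have g1 : pderiv 1 (X 0 ^ dg n : MvPolynomial (Fin (k + 3)) ℂ) = 0 := by
    rw [Derivation.leibniz_pow, pderiv_X_of_ne m01]
    simp
  rw [e0, f0, g0, map_zero, add_zero, map_add, map_pow, eval_X, map_nsmul, map_pow, eval_X,
    nsmul_eq_mul] at h0
  rw [e1, f1, g1, map_zero, add_zero, add_zero, map_nsmul, map_mul, map_pow, eval_X, eval_X,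
    nsmul_eq_mul] at h1
  have h6 : (((n + 3 : ℕ)) : ℂ) ≠ 0 := Nat.cast_ne_zero.2 (by omega)
  have h7 : ((dg n : ℕ) : ℂ) ≠ 0 := Nat.cast_ne_zero.2 (by omega)
  have h01 : p 0 = 0 ∧ p 1 = 0 := by
    rcases mul_eq_zero.1 ((mul_eq_zero.1 h1).resolve_left h6) with h8 | h8
    · rw [h8, zero_pow (by omega), mul_zero, add_zero] at h0
      exact ⟨h8, pow_eq_zero_iff (by omega) |>.1 h0⟩
    · have h9 := pow_eq_zero_iff (by omega) |>.1 h8
      rw [h9, zero_pow (by omega), zero_add] at h0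
      exact ⟨pow_eq_zero_iff (by omega) |>.1 ((mul_eq_zero.1 h0).resolve_left h7), h9⟩
  funext i
  refine Fin.cases ?_ (fun i => ?_) i
  · exact h01.1
  · refine Fin.cases ?_ (fun i => ?_) i
    · exact h01.2
    · exact hss i

/-- the remainder -/
noncomputable def rest (k n : ℕ) (p : Fin (k + 3) → ℂ) : ℂ :=
  p 0 ^ dg n + ∑ j : Fin (k + 1), p j.succ.succ ^ (2 * n + 5)

theorem eval_FI (k n : ℕ) (t : ℂ) (p : Fin (k + 3) → ℂ) :
    eval p (FI k n t) = Gv k n t p + rest k n p := by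
  unfold FI Gv rest dg
  simp only [map_add, map_mul, map_pow, eval_X, eval_C, map_sum]
  ring

theorem order_FI (n : ℕ) (t : ℂ) :
    (∀ l < n + 4, homogeneousComponent l (FI k n t) = 0) ∧
      homogeneousComponent (n + 4) (FI k n t) ≠ 0 := by
  have hd := dg_ge n
  have hdef : FI k n t = GG k n t + X 0 ^ dg n +
      ∑ j : Fin (k + 1), X j.succ.succ ^ (2 * n + 5) := rfl
  have h1 : ∀ l, homogeneousComponent l (GG k n t) = if l = n + 4 then GG k n t else 0 :=
    fun l => homogeneousComponent_of_mem (isHomogeneous_GG n t)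
  have h2 : ∀ (i : Fin (k + 3)) (a l : ℕ), l ≠ a →
      homogeneousComponent l (X i ^ a : MvPolynomial (Fin (k + 3)) ℂ) = 0 := by
    intro i a l hl
    rw [homogeneousComponent_of_mem (isHomogeneous_X_pow i a), if_neg hl]
  have h3 : ∀ l < n + 5, homogeneousComponent l (X 0 ^ dg n +
      ∑ j : Fin (k + 1), X j.succ.succ ^ (2 * n + 5) : MvPolynomial (Fin (k + 3)) ℂ) = 0 := by
    intro l hl
    rw [map_add, map_sum, h2 _ _ _ (by omega), zero_add]
    apply Finset.sum_eq_zero
    intro j _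
    exact h2 _ _ _ (by omega)
  constructor
  · intro l hl
    rw [hdef, add_assoc, map_add, h1, h3 l (by omega), if_neg (by omega), add_zero]
  · rw [hdef, add_assoc, map_add, h1, h3 _ (by omega), if_pos rfl, add_zero]
    exact GG_ne_zero n t

end Pool.Agent.Hhelper97.NodeBlow
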