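import Pool.Agent.Hhelper97.NodeBlow.DefsThree
import Pool.Agent.Hhelper97.NodeBlow.Surf
import Pool.Agent.Hhelper97.NodeBlow.Lead
import Pool.Agent.Hhelper97.WHTriv.Iso

/-!
The weighted homogeneous polynomials of multiplicity three: weights, order, critical points,
exceptional variety.
-/

set_option autoImplicit false

open Filter Topology Finset MvPolynomial

namespace Pool.Agent.Hhelper97.NodeBlow

variable {k : ℕ}

/-- the perturbation -/
noncomputable def hM (k : ℕ) : MvPolynomial (Fin (k + 1 + 3)) ℂ := X 1 * X 2 ^ 2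

theorem FM_eq (k : ℕ) (t : ℂ) : FM k t = FM k 0 + C t * hM k := by
  unfold FM hM
  rw [C_0]
  ring

theorem sss_ne_zero (j : Fin (k + 1)) : j.succ.succ.succ ≠ 0 := Fin.succ_ne_zero _

theorem sss_ne_one (j : Fin (k + 1)) : j.succ.succ.succ ≠ 1 := by
  intro h
  have := congrArg Fin.val h
  simp at this

theorem sss_ne_two (j : Fin (k + 1)) : j.succ.succ.succ ≠ (2 : Fin (k + 1 + 3)) := by
  intro h
  have := congrArg Fin.val h
  rw [fin2] at this
  simp at this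

theorem sss_zero : (0 : Fin (k + 1)).succ.succ.succ = 3 := rfl

theorem m13 : (3 : Fin (k + 1 + 3)) ≠ 1 := by
  rw [← sss_zero]
  exact sss_ne_one 0

theorem m03 : (3 : Fin (k + 1 + 3)) ≠ 0 := by
  rw [← sss_zero]
  exact sss_ne_zero 0

theorem m23 : (3 : Fin (k + 1 + 3)) ≠ 2 := by
  rw [← sss_zero]
  exact sss_ne_two 0

theorem wtM_zero : wtM k 0 = 1 := by
  unfold wtM
  rw [if_neg m01, if_neg m02]

theorem wtM_one : wtM k 1 = 3 := by
  unfold wtM
  rw [if_pos rfl]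

theorem wtM_two : wtM k 2 = 2 := by
  unfold wtM
  rw [if_neg m12.symm, if_pos rfl]

theorem wtM_sss (j : Fin (k + 1)) : wtM k j.succ.succ.succ = 1 := by
  unfold wtM
  rw [if_neg (sss_ne_one j), if_neg (sss_ne_two j)]

theorem wtM_three : wtM k 3 = 1 := by
  rw [← sss_zero, wtM_sss]

theorem wtM_pos (i : Fin (k + 1 + 3)) : 1 ≤ wtM k i := by
  unfold wtM
  split_ifs <;> omega

theorem wtM_lt (i : Fin (k + 1 + 3)) : wtM k i < 7 := by
  unfold wtM
  split_ifs <;> omega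

theorem wh_hM : (hM k).IsWeightedHomogeneous (wtM k) 7 := by
  unfold hM
  have h1 := (isWeightedHomogeneous_X ℂ (wtM k) (1 : Fin (k + 1 + 3))).mul
    ((isWeightedHomogeneous_X ℂ (wtM k) (2 : Fin (k + 1 + 3))).pow 2)
  convert h1 using 1
  rw [wtM_one, wtM_two]
  simp

theorem wh_FM0 : (FM k 0).IsWeightedHomogeneous (wtM k) 7 := by
  have h1 : (X 0 * X 1 ^ 2 : MvPolynomial (Fin (k + 1 + 3)) ℂ).IsWeightedHomogeneous
      (wtM k) 7 := by
    have := (isWeightedHomogeneous_X ℂ (wtM k) (0 : Fin (k + 1 + 3))).mul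
      ((isWeightedHomogeneous_X ℂ (wtM k) (1 : Fin (k + 1 + 3))).pow 2)
    convert this using 1
    rw [wtM_zero, wtM_one]
    simp
  have h2 : (X 2 ^ 3 * X 3 : MvPolynomial (Fin (k + 1 + 3)) ℂ).IsWeightedHomogeneous
      (wtM k) 7 := by
    have := ((isWeightedHomogeneous_X ℂ (wtM k) (2 : Fin (k + 1 + 3))).pow 3).mul
      (isWeightedHomogeneous_X ℂ (wtM k) (3 : Fin (k + 1 + 3)))
    convert this using 1
    rw [wtM_two, wtM_three]
    simp
  have h3 : (X 0 ^ 7 : MvPolynomial (Fin (k + 1 + 3)) ℂ).IsWeightedHomogeneous (wtM k) 7 := by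
    have := (isWeightedHomogeneous_X ℂ (wtM k) (0 : Fin (k + 1 + 3))).pow 7
    convert this using 1
    rw [wtM_zero]
    simp
  have h4 : ∀ j : Fin (k + 1), (X j.succ.succ.succ ^ 7 :
      MvPolynomial (Fin (k + 1 + 3)) ℂ).IsWeightedHomogeneous (wtM k) 7 := by
    intro j
    have := (isWeightedHomogeneous_X ℂ (wtM k) j.succ.succ.succ).pow 7
    convert this using 1
    rw [wtM_sss]
    simp
  have h5 : FM k 0 = X 0 * X 1 ^ 2 + X 2 ^ 3 * X 3 + X 0 ^ 7 +
      ∑ j : Fin (k + 1), X j.succ.succ.succ ^ 7 := by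
    unfold FM
    rw [C_0]
    ring
  rw [h5]
  exact ((h1.add h2).add h3).add (Submodule.sum_mem
    (weightedHomogeneousSubmodule ℂ (wtM k) 7) (fun j _ => h4 j))

theorem wh_FM (t : ℂ) : (FM k t).IsWeightedHomogeneous (wtM k) 7 := by
  rw [FM_eq]
  apply wh_FM0.add
  have h1 := (isWeightedHomogeneous_C (wtM k) t).mul (wh_hM (k := k))
  rwa [zero_add] at h1

/-- the value of the derivative of a coordinate -/
noncomputable def dl (i j : Fin (k + 1 + 3)) : ℂ := if j = i then 1 else 0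

theorem eval_pd_X (p : Fin (k + 1 + 3) → ℂ) (i j : Fin (k + 1 + 3)) :
    eval p (pderiv i (X j)) = dl i j := by
  unfold dl
  by_cases h : j = i
  · rw [if_pos h, h, pderiv_X_self, map_one]
  · rw [if_neg h, pderiv_X_of_ne h, map_zero]

theorem eval_pd_FM (p : Fin (k + 1 + 3) → ℂ) (i : Fin (k + 1 + 3)) :
    eval p (pderiv i (FM k 0)) = p 0 * (2 * p 1 * dl i 1) + p 1 ^ 2 * dl i 0 +
      (p 2 ^ 3 * dl i 3 + p 3 * (3 * p 2 ^ 2 * dl i 2)) + 7 * p 0 ^ 6 * dl i 0 +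
      ∑ j : Fin (k + 1), 7 * p j.succ.succ.succ ^ 6 * dl i j.succ.succ.succ := by
  have h4 : FM k 0 = X 0 * X 1 ^ 2 + X 2 ^ 3 * X 3 + X 0 ^ 7 +
      ∑ j : Fin (k + 1), X j.succ.succ.succ ^ 7 := by
    unfold FM
    rw [C_0]
    ring
  rw [h4]
  simp only [map_add, map_sum, Derivation.leibniz, Derivation.leibniz_pow, smul_eq_mul,
    nsmul_eq_mul, map_mul, map_pow, eval_X, eval_pd_X, map_natCast]
  norm_num
  ring_nf

theorem dl_self (i : Fin (k + 1 + 3)) : dl i i = 1 := if_pos rfl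

theorem dl_ne {i j : Fin (k + 1 + 3)} (h : j ≠ i) : dl i j = 0 := if_neg h

theorem sum_sss (p : Fin (k + 1 + 3) → ℂ) (j : Fin (k + 1)) : ∑ l : Fin (k + 1),
    7 * p l.succ.succ.succ ^ 6 * dl j.succ.succ.succ l.succ.succ.succ =
      7 * p j.succ.succ.succ ^ 6 := by
  rw [Finset.sum_eq_single j]
  · rw [dl_self, mul_one]
  · intro l _ hl
    have : l.succ.succ.succ ≠ j.succ.succ.succ := by
      intro h5
      exact hl (Fin.succ_injective _ (Fin.succ_injective _ (Fin.succ_injective _ h5)))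
    rw [dl_ne this, mul_zero]
  · intro h5
    exact absurd (Finset.mem_univ j) h5

theorem sum_ne (p : Fin (k + 1 + 3) → ℂ) (i : Fin (k + 1 + 3))
    (hi : ∀ l : Fin (k + 1), l.succ.succ.succ ≠ i) :
    ∑ l : Fin (k + 1), 7 * p l.succ.succ.succ ^ 6 * dl i l.succ.succ.succ = 0 := by
  apply Finset.sum_eq_zero
  intro l _
  rw [dl_ne (hi l), mul_zero]

theorem crit_FM0 (p : Fin (k + 1 + 3) → ℂ)
    (h : ∀ i, eval p (pderiv i (FM k 0)) = 0) : p = 0 := by
  have hS : ∀ j : Fin (k + 1), j ≠ 0 → p j.succ.succ.succ = 0 := by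
    intro j hj
    have h1 := h j.succ.succ.succ
    have hj3 : (3 : Fin (k + 1 + 3)) ≠ j.succ.succ.succ := by
      rw [← sss_zero]
      intro h5
      exact hj (Fin.succ_injective _ (Fin.succ_injective _ (Fin.succ_injective _ h5))).symm
    rw [eval_pd_FM, sum_sss, dl_ne (sss_ne_zero j).symm, dl_ne (sss_ne_one j).symm,
      dl_ne (sss_ne_two j).symm, dl_ne hj3] at h1
    have h2 : (7 : ℂ) * p j.succ.succ.succ ^ 6 = 0 := by linear_combination h1
    exact (pow_eq_zero_iff (by norm_num)).1 ((mul_eq_zero.1 h2).resolve_left (by norm_num))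
  have h3 : p 2 ^ 3 + 7 * p 3 ^ 6 = 0 := by
    have h1 := h (0 : Fin (k + 1)).succ.succ.succ
    rw [eval_pd_FM, sum_sss, sss_zero, dl_ne m03.symm, dl_ne m13.symm,
      dl_ne m23.symm, dl_self] at h1
    linear_combination h1
  have h2 : 3 * p 2 ^ 2 * p 3 = 0 := by
    have h1 := h 2
    rw [eval_pd_FM, sum_ne p 2 sss_ne_two, dl_ne m02, dl_ne m12, dl_ne m23, dl_self] at h1
    linear_combination h1
  have h1' : 2 * p 0 * p 1 = 0 := by
    have h1 := h 1
    rw [eval_pd_FM, sum_ne p 1 sss_ne_one, dl_ne m01, dl_ne m12.symm, dl_ne m13, dl_self] at h1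
    linear_combination h1
  have h0 : p 1 ^ 2 + 7 * p 0 ^ 6 = 0 := by
    have h1 := h 0
    rw [eval_pd_FM, sum_ne p 0 sss_ne_zero, dl_ne m01.symm, dl_ne m02.symm, dl_ne m03,
      dl_self] at h1
    linear_combination h1
  have h01 : p 0 = 0 ∧ p 1 = 0 := by
    rcases mul_eq_zero.1 h1' with h8 | h8
    · have h9 : p 0 = 0 := (mul_eq_zero.1 h8).resolve_left two_ne_zero
      rw [h9, zero_pow (by omega), mul_zero, add_zero] at h0
      exact ⟨h9, pow_eq_zero_iff (by omega) |>.1 h0⟩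
    · rw [h8, zero_pow (by omega), zero_add] at h0
      exact ⟨pow_eq_zero_iff (by omega) |>.1 ((mul_eq_zero.1 h0).resolve_left (by norm_num)), h8⟩
  have h23 : p 2 = 0 ∧ p 3 = 0 := by
    rcases mul_eq_zero.1 h2 with h8 | h8
    · have h9 : p 2 = 0 :=
        pow_eq_zero_iff (by omega) |>.1 ((mul_eq_zero.1 h8).resolve_left (by norm_num))
      rw [h9, zero_pow (by omega), zero_add] at h3
      exact ⟨h9, pow_eq_zero_iff (by omega) |>.1 ((mul_eq_zero.1 h3).resolve_left (by norm_num))⟩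
    · rw [h8, zero_pow (by omega), mul_zero, add_zero] at h3
      exact ⟨pow_eq_zero_iff (by omega) |>.1 h3, h8⟩
  funext i
  refine Fin.cases ?_ (fun i => ?_) i
  · exact h01.1
  · refine Fin.cases ?_ (fun i => ?_) i
    · exact h01.2
    · refine Fin.cases ?_ (fun i => ?_) i
      · exact h23.1
      · by_cases hi : i = 0
        · rw [hi]
          exact h23.2
        · exact hS i hi

/-! ### The order -/

/-- the leading form -/
noncomputable def GM (k : ℕ) (t : ℂ) : MvPolynomial (Fin (k + 1 + 3)) ℂ :=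
  X 0 * X 1 ^ 2 + C t * (X 1 * X 2 ^ 2)

theorem isHomogeneous_GM (t : ℂ) : (GM k t).IsHomogeneous 3 := by
  unfold GM
  apply IsHomogeneous.add
  · convert (isHomogeneous_X ℂ (0 : Fin (k + 1 + 3))).mul
      ((isHomogeneous_X ℂ (1 : Fin (k + 1 + 3))).pow 2) using 1
  · have h := ((isHomogeneous_X ℂ (1 : Fin (k + 1 + 3))).mul
      ((isHomogeneous_X ℂ (2 : Fin (k + 1 + 3))).pow 2)).C_mul t
    convert h using 1

theorem GM_ne_zero (t : ℂ) : GM k t ≠ 0 := by
  intro h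
  have h1 : eval (fun i : Fin (k + 1 + 3) => if i = 2 then (0 : ℂ) else 1) (GM k t) = 0 := by
    rw [h, map_zero]
  unfold GM at h1
  simp [m02, m12] at h1

theorem order_FM (t : ℂ) :
    (∀ l < 3, homogeneousComponent l (FM k t) = 0) ∧
      homogeneousComponent 3 (FM k t) ≠ 0 := by
  have hdef : FM k t = GM k t + (X 2 ^ 3 * X 3 + X 0 ^ 7 +
      ∑ j : Fin (k + 1), X j.succ.succ.succ ^ 7) := by
    unfold FM GM
    ring
  have h1 : ∀ l, homogeneousComponent l (GM k t) = if l = 3 then GM k t else 0 :=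
    fun l => homogeneousComponent_of_mem (isHomogeneous_GM t)
  have h2 : ∀ (i : Fin (k + 1 + 3)) (a l : ℕ), l ≠ a →
      homogeneousComponent l (X i ^ a : MvPolynomial (Fin (k + 1 + 3)) ℂ) = 0 := by
    intro i a l hl
    rw [homogeneousComponent_of_mem (isHomogeneous_X_pow i a), if_neg hl]
  have h2' : ∀ l, l ≠ 4 →
      homogeneousComponent l (X 2 ^ 3 * X 3 : MvPolynomial (Fin (k + 1 + 3)) ℂ) = 0 := by
    intro l hl
    have h5 : (X 2 ^ 3 * X 3 : MvPolynomial (Fin (k + 1 + 3)) ℂ).IsHomogeneous 4 := by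
      convert ((isHomogeneous_X ℂ (2 : Fin (k + 1 + 3))).pow 3).mul
        (isHomogeneous_X ℂ (3 : Fin (k + 1 + 3))) using 1
    rw [homogeneousComponent_of_mem h5, if_neg hl]
  have h3 : ∀ l < 4, homogeneousComponent l (X 2 ^ 3 * X 3 + X 0 ^ 7 +
      ∑ j : Fin (k + 1), X j.succ.succ.succ ^ 7 : MvPolynomial (Fin (k + 1 + 3)) ℂ) = 0 := by
    intro l hl
    rw [map_add, map_add, map_sum, h2 _ _ _ (by omega), h2' l (by omega), zero_add, zero_add]
    apply Finset.sum_eq_zero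
    intro j _
    exact h2 _ _ _ (by omega)
  constructor
  · intro l hl
    rw [hdef, map_add, h1, h3 l (by omega), if_neg (by omega), add_zero]
  · rw [hdef, map_add, h1, h3 _ (by omega), if_pos rfl, add_zero]
    exact GM_ne_zero t

/-! ### The exceptional variety -/

/-- the leading form as a function -/
noncomputable def gm (k : ℕ) (t : ℂ) (v : Fin (k + 1 + 3) → ℂ) : ℂ :=
  v 1 * (v 0 * v 1 + t * v 2 ^ 2)

/-- the remainder divided by the power of the scalar -/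
noncomputable def km (k : ℕ) (l : ℂ) (v : Fin (k + 1 + 3) → ℂ) : ℂ :=
  v 2 ^ 3 * v 3 + l ^ 3 * (v 0 ^ 7 + ∑ j : Fin (k + 1), v j.succ.succ.succ ^ 7)

theorem eval_FM (t : ℂ) (p : Fin (k + 1 + 3) → ℂ) : eval p (FM k t) =
    gm k t p + p 2 ^ 3 * p 3 + p 0 ^ 7 + ∑ j : Fin (k + 1), p j.succ.succ.succ ^ 7 := by
  unfold FM gm
  simp only [map_add, map_mul, map_pow, eval_X, eval_C, map_sum]
  ring

theorem eval_smul_FM (t l : ℂ) (v : Fin (k + 1 + 3) → ℂ) : eval (l • v) (FM k t) =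
    l ^ 3 * (gm k t v + l * km k l v) := by
  rw [eval_FM]
  unfold gm km
  simp only [Pi.smul_apply, smul_eq_mul, mul_pow, ← Finset.mul_sum]
  ring

theorem continuous_gm (t : ℂ) : Continuous (gm k t) := by
  unfold gm
  fun_prop

theorem gm_smul (t r : ℂ) (v : Fin (k + 1 + 3) → ℂ) : gm k t (r • v) = r ^ 3 * gm k t v := by
  unfold gm
  simp only [Pi.smul_apply, smul_eq_mul]
  ring

theorem gm_zero_iff (t : ℂ) (v : Fin (k + 1 + 3) → ℂ) :
    gm k t v = 0 ↔ v 1 = 0 ∨ v 0 * v 1 + t * v 2 ^ 2 = 0 := by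
  unfold gm
  rw [mul_eq_zero]

/-- the direction in which the leading form is not constant -/
noncomputable def um (k : ℕ) : Fin (k + 1 + 3) → ℂ := fun i => if i = 0 ∨ i = 1 then 1 else 0

theorem gm_line (t : ℂ) (v : Fin (k + 1 + 3) → ℂ) (ζ : ℂ) : gm k t (v + ζ • um k) =
    (v 1 + ζ) * ((v 0 + ζ) * (v 1 + ζ) + t * v 2 ^ 2) := by
  have h0 : um k 0 = 1 := by simp [um]
  have h1 : um k 1 = 1 := by simp [um]
  have h2 : um k 2 = 0 := by
    unfold um
    rw [if_neg]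
    rintro (h | h)
    · exact m02 h.symm
    · exact m12 h.symm
  unfold gm
  simp only [Pi.add_apply, Pi.smul_apply, smul_eq_mul, h0, h1, h2, mul_one, mul_zero, add_zero]

theorem gm_line_ne (t : ℂ) (v : Fin (k + 1 + 3) → ℂ) : ∃ ζ : ℂ, gm k t (v + ζ • um k) ≠ 0 := by
  by_contra hcon
  push Not at hcon
  obtain ⟨a, ha⟩ : ∃ a, a = v 0 - v 1 := ⟨_, rfl⟩
  obtain ⟨b, hb⟩ : ∃ b, b = t * v 2 ^ 2 := ⟨_, rfl⟩
  have h : ∀ s : ℂ, s * ((a + s) * s + b) = 0 := by
    intro s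
    have h1 := hcon (s - v 1)
    rw [gm_line, ← hb] at h1
    have h2 : v 0 + (s - v 1) = a + s := by rw [ha]; ring
    have h3 : v 1 + (s - v 1) = s := by ring
    rw [h2, h3] at h1
    exact h1
  have h1 := h 1
  have h2 := h (-1)
  have h3 := h 2
  have h4 : (6 : ℂ) = 0 := by linear_combination h3 + (-3) * h1 - h2
  norm_num at h4

theorem exc_FM_subset {t : ℂ} {Q : Pr (k + 1)} (hQ : Q ∈ exc (FM k t)) : Q ∈ Ez (k + 1) t := by
  have h1 : gm k t Q.rep = 0 := by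
    apply lead_of_mem_exc (continuous_gm t) (gm_smul t) (C := (k : ℝ) + 3) (m := 3) ?_ hQ
    intro p hp h0
    rw [eval_FM] at h0
    have h2 : gm k t p = -(p 2 ^ 3 * p 3 + p 0 ^ 7 +
        ∑ j : Fin (k + 1), p j.succ.succ.succ ^ 7) := by linear_combination h0
    rw [h2, norm_neg]
    have hn : 0 ≤ ‖p‖ := norm_nonneg p
    have h3 : ∀ i, ‖p i ^ 7‖ ≤ ‖p‖ ^ (3 + 1) := by
      intro i
      rw [norm_pow]
      calc ‖p i‖ ^ 7 ≤ ‖p‖ ^ 7 := pow_le_pow_left₀ (norm_nonneg _) (norm_le_pi_norm p i) 7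
        _ ≤ ‖p‖ ^ (3 + 1) := pow_le_pow_of_le_one hn hp (by omega)
    have h4 : ‖p 2 ^ 3 * p 3‖ ≤ ‖p‖ ^ (3 + 1) := by
      rw [norm_mul, norm_pow, pow_succ ‖p‖ 3]
      exact mul_le_mul (pow_le_pow_left₀ (norm_nonneg _) (norm_le_pi_norm p 2) 3)
        (norm_le_pi_norm p 3) (norm_nonneg _) (pow_nonneg hn 3)
    have h5 : ‖∑ j : Fin (k + 1), p j.succ.succ.succ ^ 7‖ ≤ (k + 1 : ℝ) * ‖p‖ ^ (3 + 1) := by
      calc ‖∑ j : Fin (k + 1), p j.succ.succ.succ ^ 7‖
          ≤ ∑ j : Fin (k + 1), ‖p j.succ.succ.succ ^ 7‖ := norm_sum_le _ _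
        _ ≤ ∑ _j : Fin (k + 1), ‖p‖ ^ (3 + 1) := Finset.sum_le_sum (fun j _ => h3 _)
        _ = (k + 1 : ℝ) * ‖p‖ ^ (3 + 1) := by
          rw [Finset.sum_const, Finset.card_univ, Fintype.card_fin, nsmul_eq_mul]
          push_cast
          ring
    calc ‖p 2 ^ 3 * p 3 + p 0 ^ 7 + ∑ j : Fin (k + 1), p j.succ.succ.succ ^ 7‖
        ≤ ‖p 2 ^ 3 * p 3‖ + ‖p 0 ^ 7‖ + ‖∑ j : Fin (k + 1), p j.succ.succ.succ ^ 7‖ :=
          norm_add₃_le
      _ ≤ ‖p‖ ^ (3 + 1) + ‖p‖ ^ (3 + 1) + (k + 1 : ℝ) * ‖p‖ ^ (3 + 1) := by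
          gcongr
          exact h3 0
      _ = ((k : ℝ) + 3) * ‖p‖ ^ (3 + 1) := by ring
  rw [gm_zero_iff] at h1
  exact h1

theorem exc_FM (t : ℂ) : exc (FM k t) = Ez (k + 1) t := by
  ext Q
  constructor
  · exact exc_FM_subset
  · intro h
    have h1 : gm k t Q.rep = 0 := (gm_zero_iff t Q.rep).2 h
    have h2 : Near (FM k t) Q.rep := by
      apply near_of_lead (G := gm k t) (K := km k) (m := 3) (eval_smul_FM t) ?_ ?_ ?_
        (gm_line_ne t) Q.rep_nonzero h1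
      · intro v u
        unfold gm
        simp only [Pi.add_apply, Pi.smul_apply, smul_eq_mul]
        fun_prop
      · intro l v u
        unfold km
        simp only [Pi.add_apply, Pi.smul_apply, smul_eq_mul]
        fun_prop
      · unfold km
        fun_prop
    have h3 := mem_exc_of_near Q.rep_nonzero h2
    rwa [Q.mk_rep] at h3

end Pool.Agent.Hhelper97.NodeBlow
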