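import Pool.Agent.Hhelper97.NodeBlow.Model
import Pool.Agent.Hhelper97.NodeBlow.Defs

/-!
The germs of the varieties `y (x y + t z ^ 2) = 0` in projective space.
-/

set_option autoImplicit false

open Filter Topology Set

namespace Pool.Agent.Hhelper97.NodeBlow

variable {k : ℕ}

/-- the projection onto projective space -/
noncomputable def pj (k : ℕ) (v : {v : Fin (k + 3) → ℂ // v ≠ 0}) : Pr k := Projectivization.mk ℂ v.1 v.2

theorem quot_pj (k : ℕ) : IsQuotientMap (pj k) := by
  refine ⟨?_, ?_⟩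
  · exact ⟨rfl⟩
  · intro Q
    exact ⟨⟨Q.rep, Q.rep_nonzero⟩, Q.mk_rep⟩

theorem continuous_mk {Z : Type} [TopologicalSpace Z] {f : Z → Fin (k + 3) → ℂ}
    (hf : Continuous f) (h0 : ∀ z, f z ≠ 0) :
    Continuous (fun z => (Projectivization.mk ℂ (f z) (h0 z) : Pr k)) :=
  (quot_pj k).continuous.comp (hf.subtype_mk h0)

theorem rep_mk (v : Fin (k + 3) → ℂ) (hv : v ≠ 0) :
    ∃ a : ℂ, a ≠ 0 ∧ (Projectivization.mk ℂ v hv : Pr k).rep = a • v := by
  obtain ⟨a, ha⟩ := Projectivization.exists_smul_eq_mk_rep ℂ v hv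
  exact ⟨a, a.ne_zero, ha.symm⟩

/-- insertion of the value one at the coordinate `s` -/
def ins (s : Fin (k + 3)) (u : Fin (k + 2) → ℂ) : Fin (k + 3) → ℂ := s.insertNth (1 : ℂ) u

theorem ins_same (s : Fin (k + 3)) (u : Fin (k + 2) → ℂ) : ins s u s = 1 := by
  unfold ins
  rw [Fin.insertNth_apply_same]

theorem ins_succAbove (s : Fin (k + 3)) (u : Fin (k + 2) → ℂ) (j : Fin (k + 2)) :
    ins s u (s.succAbove j) = u j := by
  unfold ins
  rw [Fin.insertNth_apply_succAbove]

theorem ins_ne (s : Fin (k + 3)) (u : Fin (k + 2) → ℂ) : ins s u ≠ 0 := by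
  intro h
  have h1 := congrFun h s
  rw [ins_same] at h1
  exact one_ne_zero h1

theorem continuous_ins (s : Fin (k + 3)) : Continuous (ins s : (Fin (k + 2) → ℂ) → _) := by
  unfold ins
  exact Continuous.finInsertNth s continuous_const continuous_id

theorem isOpen_rep (s : Fin (k + 3)) : IsOpen {Q : Pr k | Q.rep s ≠ 0} := by
  rw [← (quot_pj k).isOpen_preimage]
  have : pj k ⁻¹' {Q : Pr k | Q.rep s ≠ 0} = {v | v.1 s ≠ 0} := by
    ext v
    obtain ⟨a, ha, h1⟩ := rep_mk v.1 v.2
    simp only [mem_preimage, mem_ofPred_eq]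
    unfold pj
    rw [h1, Pi.smul_apply, smul_eq_mul]
    constructor
    · intro h
      exact right_ne_zero_of_mul h
    · exact fun h => mul_ne_zero ha h
  rw [this]
  exact isOpen_ne_fun ((continuous_apply s).comp continuous_subtype_val) continuous_const

theorem continuousOn_ratio (s l : Fin (k + 3)) :
    ContinuousOn (fun Q : Pr k => Q.rep l / Q.rep s) {Q : Pr k | Q.rep s ≠ 0} := by
  rw [(quot_pj k).continuousOn_isOpen_iff (isOpen_rep s)]
  have h2 : ∀ v : {v : Fin (k + 3) → ℂ // v ≠ 0}, v ∈ pj k ⁻¹' {Q : Pr k | Q.rep s ≠ 0} →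
      v.1 s ≠ 0 ∧ ((fun Q : Pr k => Q.rep l / Q.rep s) ∘ pj k) v = v.1 l / v.1 s := by
    intro v hv
    obtain ⟨a, ha, h1⟩ := rep_mk v.1 v.2
    simp only [mem_preimage, mem_ofPred_eq] at hv
    unfold pj at hv
    rw [h1, Pi.smul_apply, smul_eq_mul] at hv
    refine ⟨right_ne_zero_of_mul hv, ?_⟩
    simp only [Function.comp_apply]
    unfold pj
    rw [h1, Pi.smul_apply, smul_eq_mul, Pi.smul_apply, smul_eq_mul, mul_div_mul_left _ _ ha]
  have h3 : ContinuousOn (fun v : {v : Fin (k + 3) → ℂ // v ≠ 0} => v.1 l / v.1 s)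
      (pj k ⁻¹' {Q : Pr k | Q.rep s ≠ 0}) := by
    apply ContinuousOn.div
    · exact ((continuous_apply l).comp continuous_subtype_val).continuousOn
    · exact ((continuous_apply s).comp continuous_subtype_val).continuousOn
    · exact fun v hv => (h2 v hv).1
  exact h3.congr (fun v hv => (h2 v hv).2)

/-- the affine chart of projective space in which the coordinate `s` is one -/
noncomputable def chart (s : Fin (k + 3)) : OpenPartialHomeomorph (Fin (k + 2) → ℂ) (Pr k) where
  toFun u := Projectivization.mk ℂ (ins s u) (ins_ne s u)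
  invFun Q := fun j => Q.rep (s.succAbove j) / Q.rep s
  source := univ
  target := {Q | Q.rep s ≠ 0}
  map_source' u _ := by
    obtain ⟨a, ha, h1⟩ := rep_mk (ins s u) (ins_ne s u)
    change (Projectivization.mk ℂ (ins s u) (ins_ne s u)).rep s ≠ 0
    rw [h1, Pi.smul_apply, ins_same, smul_eq_mul, mul_one]
    exact ha
  map_target' _ _ := mem_univ _
  left_inv' u _ := by
    obtain ⟨a, ha, h1⟩ := rep_mk (ins s u) (ins_ne s u)
    funext j
    rw [h1, Pi.smul_apply, Pi.smul_apply, ins_same, ins_succAbove, smul_eq_mul, smul_eq_mul,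
      mul_one, mul_div_cancel_left₀ _ ha]
  right_inv' Q hQ := by
    have hQ0 : Q.rep s ≠ 0 := hQ
    have h1 : ins s (fun j => Q.rep (s.succAbove j) / Q.rep s) = (Q.rep s)⁻¹ • Q.rep := by
      funext l
      rcases Fin.eq_self_or_eq_succAbove s l with h | ⟨j, h⟩
      · rw [h, ins_same, Pi.smul_apply, smul_eq_mul, inv_mul_cancel₀ hQ0]
      · rw [h, ins_succAbove, Pi.smul_apply, smul_eq_mul]
        exact div_eq_inv_mul _ _
    have h2 : Q = Projectivization.mk ℂ Q.rep Q.rep_nonzero := Q.mk_rep.symm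
    conv_rhs => rw [h2]
    rw [Projectivization.mk_eq_mk_iff']
    exact ⟨(Q.rep s)⁻¹, h1.symm⟩
  open_source := isOpen_univ
  open_target := isOpen_rep s
  continuousOn_toFun := (continuous_mk (continuous_ins s) (ins_ne s)).continuousOn
  continuousOn_invFun := continuousOn_pi.2 (fun j => continuousOn_ratio s (s.succAbove j))

theorem chart_apply (s : Fin (k + 3)) (u : Fin (k + 2) → ℂ) :
    chart s u = Projectivization.mk ℂ (ins s u) (ins_ne s u) := rfl

theorem exists_chart (s : Fin (k + 3)) (v : Fin (k + 3) → ℂ) (hv : v ≠ 0) (hs : v s ≠ 0) :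
    ∃ u, chart s u = Projectivization.mk ℂ v hv ∧ ins s u = (v s)⁻¹ • v := by
  refine ⟨fun j => v (s.succAbove j) / v s, ?_, ?_⟩
  · rw [chart_apply, Projectivization.mk_eq_mk_iff']
    refine ⟨(v s)⁻¹, ?_⟩
    funext l
    rcases Fin.eq_self_or_eq_succAbove s l with h | ⟨j, h⟩
    · rw [h, ins_same, Pi.smul_apply, smul_eq_mul, inv_mul_cancel₀ hs]
    · rw [h, ins_succAbove, Pi.smul_apply, smul_eq_mul]
      exact (div_eq_inv_mul _ _).symm
  · funext l
    rcases Fin.eq_self_or_eq_succAbove s l with h | ⟨j, h⟩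
    · rw [h, ins_same, Pi.smul_apply, smul_eq_mul, inv_mul_cancel₀ hs]
    · rw [h, ins_succAbove, Pi.smul_apply, smul_eq_mul]
      exact div_eq_inv_mul _ _

theorem GE_chart (s : Fin (k + 3)) (A : Set (Pr k)) (u : Fin (k + 2) → ℂ) :
    GE {u | chart s u ∈ A} u A (chart s u) :=
  ⟨chart s, mem_univ _, rfl, Filter.Eventually.of_forall (fun _ => Iff.rfl)⟩

/-- the zero set of `y (x y + t z ^ 2)` in projective space -/
def Ez (k : ℕ) (t : ℂ) : Set (Pr k) :=
  {Q | Q.rep 1 = 0 ∨ Q.rep 0 * Q.rep 1 + t * Q.rep 2 ^ 2 = 0}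

theorem mk_mem_Ez (t : ℂ) (v : Fin (k + 3) → ℂ) (hv : v ≠ 0) :
    Projectivization.mk ℂ v hv ∈ Ez k t ↔ v 1 = 0 ∨ v 0 * v 1 + t * v 2 ^ 2 = 0 := by
  obtain ⟨a, ha, h1⟩ := rep_mk v hv
  simp only [Ez, mem_ofPred_eq, h1, Pi.smul_apply, smul_eq_mul]
  have h2 : a * v 0 * (a * v 1) + t * (a * v 2) ^ 2 = a ^ 2 * (v 0 * v 1 + t * v 2 ^ 2) := by
    ring
  rw [h2, mul_eq_zero, mul_eq_zero, or_iff_right ha, or_iff_right (pow_ne_zero 2 ha)]

theorem chart_mem_Ez (t : ℂ) (s : Fin (k + 3)) (u : Fin (k + 2) → ℂ) :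
    chart s u ∈ Ez k t ↔ ins s u 1 = 0 ∨ ins s u 0 * ins s u 1 + t * ins s u 2 ^ 2 = 0 :=
  mk_mem_Ez t (ins s u) (ins_ne s u)

/-! ### The values of the insertions -/

theorem ins_one_zero (u : Fin (k + 2) → ℂ) : ins 1 u 0 = u 0 := by
  have h : (1 : Fin (k + 3)).succAbove 0 = 0 := by
    rw [Fin.succAbove_of_castSucc_lt _ _ (by simp)]
    rfl
  have := ins_succAbove 1 u 0
  rwa [h] at this

theorem ins_one_two (u : Fin (k + 2) → ℂ) : ins 1 u 2 = u 1 := by
  have h : (1 : Fin (k + 3)).succAbove 1 = 2 := by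
    rw [Fin.succAbove_of_le_castSucc _ _ (by simp)]
    rfl
  have := ins_succAbove 1 u 1
  rwa [h] at this

theorem fin2 : ((2 : Fin (k + 3)) : ℕ) = 2 := Fin.val_two

theorem ins_two_zero (u : Fin (k + 2) → ℂ) : ins 2 u 0 = u 0 := by
  have h : (2 : Fin (k + 3)).succAbove 0 = 0 := by
    rw [Fin.succAbove_of_castSucc_lt _ _ (by
      simp only [Fin.lt_def, Fin.val_castSucc, fin2, Fin.val_zero]
      omega)]
    rfl
  have := ins_succAbove 2 u 0
  rwa [h] at this

theorem ins_two_one (u : Fin (k + 2) → ℂ) : ins 2 u 1 = u 1 := by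
  have h : (2 : Fin (k + 3)).succAbove 1 = 1 := by
    rw [Fin.succAbove_of_castSucc_lt _ _ (by
      simp only [Fin.lt_def, Fin.val_castSucc, fin2, Fin.val_one]
      omega)]
    rfl
  have := ins_succAbove 2 u 1
  rwa [h] at this

theorem ins_zero_one (u : Fin (k + 2) → ℂ) : ins 0 u 1 = u 0 := by
  have h : (0 : Fin (k + 3)).succAbove 0 = 1 := by
    rw [Fin.succAbove_of_le_castSucc _ _ (by simp)]
    rfl
  have := ins_succAbove 0 u 0
  rwa [h] at this

theorem ins_zero_two (u : Fin (k + 2) → ℂ) : ins 0 u 2 = u 1 := by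
  have h : (0 : Fin (k + 3)).succAbove 1 = 2 := by
    rw [Fin.succAbove_of_le_castSucc _ _ (by simp)]
    rfl
  have := ins_succAbove 0 u 1
  rwa [h] at this

/-! ### The points of the varieties -/

/-- a shear -/
noncomputable def shearU (k : ℕ) (t : ℂ) : (Fin (k + 2) → ℂ) ≃ₜ (Fin (k + 2) → ℂ) where
  toFun u := Function.update u 0 (u 0 + t * u 1 ^ 2)
  invFun u := Function.update u 0 (u 0 - t * u 1 ^ 2)
  left_inv u := by
    simp
  right_inv u := by
    simp
  continuous_toFun := continuous_id.update 0 (by fun_prop)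
  continuous_invFun := continuous_id.update 0 (by fun_prop)

theorem unit2_Ez {t : ℂ} (ht : t ≠ 0) (v : Fin (k + 3) → ℂ) (hv : v ≠ 0)
    (hE : Projectivization.mk ℂ v hv ∈ Ez k t) (h12 : ¬ (v 1 = 0 ∧ v 2 = 0)) :
    Unit2 (Ez k t) (Projectivization.mk ℂ v hv) := by
  by_cases h1 : v 1 = 0
  · have h2 : v 2 ≠ 0 := fun h => h12 ⟨h1, h⟩
    obtain ⟨u, hu, hins⟩ := exists_chart 2 v hv h2
    have hu1 : u 1 = 0 := by
      rw [← ins_two_one u, hins, Pi.smul_apply, h1, smul_zero]
    rw [← hu]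
    refine Unit2.of_GE ?_ (GE_chart 2 (Ez k t) u).symm
    apply unit2_hyperplane hu1
    have hc : ContinuousAt (fun u : Fin (k + 2) → ℂ => u 0 * u 1 + t) u := by fun_prop
    have hne : u 0 * u 1 + t ≠ 0 := by
      rw [hu1, mul_zero, zero_add]
      exact ht
    filter_upwards [hc.eventually_ne hne] with w hw
    rw [chart_mem_Ez, ins_two_one, ins_two_zero, ins_same, one_pow, mul_one]
    exact or_iff_left hw
  · obtain ⟨u, hu, hins⟩ := exists_chart 1 v hv h1
    rw [← hu] at hE ⊢
    refine Unit2.of_GE ?_ (GE_chart 1 (Ez k t) u).symm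
    have hmod : ∀ w : Fin (k + 2) → ℂ, w ∈ {u | chart 1 u ∈ Ez k t} ↔
        w 0 + t * w 1 ^ 2 = 0 := by
      intro w
      rw [mem_ofPred_eq, chart_mem_Ez, ins_same, ins_one_zero, ins_one_two, mul_one]
      exact or_iff_right one_ne_zero
    refine Unit2.of_GE (B := {w : Fin (k + 2) → ℂ | w 0 = 0}) (y := shearU k t u) ?_ ?_
    · apply unit2_hyperplane (i := 0)
      · have h3 := (hmod u).1 hE
        change Function.update u 0 (u 0 + t * u 1 ^ 2) 0 = 0
        rw [Function.update_self, h3]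
      · exact Filter.Eventually.of_forall (fun w => Iff.rfl)
    · refine ⟨(shearU k t).toOpenPartialHomeomorph, mem_univ _, rfl,
        Filter.Eventually.of_forall (fun w => ?_)⟩
      rw [hmod]
      change _ ↔ Function.update w 0 (w 0 + t * w 1 ^ 2) 0 = 0
      rw [Function.update_self]

theorem GE_node (k : ℕ) : GE (Nd (0 : Fin (k + 2)) 1) 0 (Ez k 0) (chart 2 0) := by
  have h := GE_chart 2 (Ez k 0) (0 : Fin (k + 2) → ℂ)
  have h2 : {u | chart 2 u ∈ Ez k 0} = Nd (0 : Fin (k + 2)) 1 := by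
    ext u
    rw [mem_ofPred_eq, chart_mem_Ez, ins_two_one, ins_two_zero]
    simp only [Nd, mem_ofPred_eq, zero_mul, add_zero]
    constructor
    · rintro (h | h)
      · rw [h, mul_zero]
      · exact h
    · exact Or.inr
  rwa [h2] at h

/-- the germ of the node is not the germ of `Ez k t` at any point -/
theorem not_GE {t : ℂ} (ht : t ≠ 0) (Q : Pr k) : ¬ GE (Ez k 0) (chart 2 0) (Ez k t) Q := by
  intro hGE
  have h := (GE_node k).trans hGE
  have h01 : (0 : Fin (k + 2)) ≠ 1 := by
    intro h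
    have := congrArg Fin.val h
    simp at this
  have hQ : Q ∈ Ez k t := by
    obtain ⟨g, hg, hg0, hgA⟩ := h
    rw [← hg0]
    apply hgA.self_of_nhds.1
    simp [Nd]
  obtain ⟨v, hv, hvQ⟩ : ∃ v, ∃ hv : v ≠ 0, Projectivization.mk ℂ v hv = Q :=
    ⟨Q.rep, Q.rep_nonzero, Q.mk_rep⟩
  rw [← hvQ] at h hQ
  by_cases h12 : v 1 = 0 ∧ v 2 = 0
  · obtain ⟨h1, h2⟩ := h12
    by_cases h0 : v 0 = 0
    · obtain ⟨s, hs⟩ : ∃ s, v s ≠ 0 := by
        by_contra hcon
        push Not at hcon
        exact hv (funext hcon)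
      have hs0 : (s : ℕ) ≠ 0 := by
        intro h3
        apply hs
        have : s = 0 := Fin.ext h3
        rw [this, h0]
      have hs1 : (s : ℕ) ≠ 1 := by
        intro h3
        apply hs
        have : s = 1 := Fin.ext (by rw [h3]; rfl)
        rw [this, h1]
      have hs2 : (s : ℕ) ≠ 2 := by
        intro h3
        apply hs
        have : s = 2 := Fin.ext (by rw [h3, fin2])
        rw [this, h2]
      have hs3 : 3 ≤ (s : ℕ) := by omega
      obtain ⟨l, rfl⟩ : ∃ l, k = l + 1 := by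
        have := s.2
        exact ⟨k - 1, by omega⟩
      have e0 : ∀ u : Fin (l + 1 + 2) → ℂ, ins s u 0 = u 0 := by
        intro u
        have h3 : s.succAbove 0 = 0 := by
          rw [Fin.succAbove_of_castSucc_lt _ _ (by
            simp only [Fin.lt_def, Fin.val_castSucc, Fin.val_zero]
            omega)]
          rfl
        have := ins_succAbove s u 0
        rwa [h3] at this
      have e1 : ∀ u : Fin (l + 1 + 2) → ℂ, ins s u 1 = u 1 := by
        intro u
        have h3 : s.succAbove 1 = 1 := by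
          rw [Fin.succAbove_of_castSucc_lt _ _ (by
            simp only [Fin.lt_def, Fin.val_castSucc, Fin.val_one]
            omega)]
          rfl
        have := ins_succAbove s u 1
        rwa [h3] at this
      have e2 : ∀ u : Fin (l + 1 + 2) → ℂ, ins s u 2 = u 2 := by
        intro u
        have h4 : ((2 : Fin (l + 1 + 2)) : ℕ) = 2 := Fin.val_two (n := l)
        have h3 : s.succAbove 2 = 2 := by
          rw [Fin.succAbove_of_castSucc_lt _ _ (by
            simp only [Fin.lt_def, Fin.val_castSucc, h4]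
            omega)]
          apply Fin.ext
          rw [Fin.val_castSucc, h4, fin2]
        have := ins_succAbove s u 2
        rwa [h3] at this
      have hmod : {u | chart s u ∈ Ez (l + 1) t} = Bm (fun u => u 0) 1 2 t := by
        ext u
        rw [mem_ofPred_eq, chart_mem_Ez, e0, e1, e2]
        rfl
      have n12 : (1 : Fin (l + 1 + 2)) ≠ 2 := by
        intro h3
        have := congrArg Fin.val h3
        rw [Fin.val_one, fin2] at this
        omega
      have n02 : (0 : Fin (l + 1 + 2)) ≠ 2 := by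
        intro h3
        have := congrArg Fin.val h3
        rw [Fin.val_zero, fin2] at this
        omega
      obtain ⟨u, hu, hins⟩ := exists_chart s v hv hs
      have hu1 : u 1 = 0 := by
        rw [← e1 u, hins, Pi.smul_apply, h1, smul_zero]
      have hu2 : u 2 = 0 := by
        rw [← e2 u, hins, Pi.smul_apply, h2, smul_zero]
      have h5 := GE_chart s (Ez (l + 1) t) u
      rw [hu, hmod] at h5
      refine Bm_not_node (X := fun u : Fin (l + 1 + 2) → ℂ => u 0) (continuous_apply 0) n12 ht ?_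
        (fun q hq1 hq2 V hV => disc_two h01 n02 n12 ht hq1 hq2 hV) ?_ hu1 hu2 h01 rfl rfl
        (h.trans h5.symm)
      · intro q ζ η
        rw [Function.update_of_ne h01, Function.update_of_ne n02]
      · intro q hq hq12
        rw [← hmod] at hq ⊢
        refine Unit2.of_GE (unit2_Ez ht _ (ins_ne s q) hq ?_) (GE_chart s (Ez (l + 1) t) q)
        rw [e1, e2]
        exact hq12
    · have hmod : {u | chart 0 u ∈ Ez k t} = Bm (fun _ => 1) (0 : Fin (k + 2)) 1 t := by
        ext u
        rw [mem_ofPred_eq, chart_mem_Ez, ins_same, ins_zero_one, ins_zero_two]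
        rfl
      obtain ⟨u, hu, hins⟩ := exists_chart 0 v hv h0
      have hu1 : u 0 = 0 := by
        rw [← ins_zero_one u, hins, Pi.smul_apply, h1, smul_zero]
      have hu2 : u 1 = 0 := by
        rw [← ins_zero_two u, hins, Pi.smul_apply, h2, smul_zero]
      have h5 := GE_chart 0 (Ez k t) u
      rw [hu, hmod] at h5
      refine Bm_not_node (X := fun _ : Fin (k + 2) → ℂ => 1) continuous_const h01 ht ?_
        (fun q hq1 hq2 V hV => disc_one h01 ht hq1 hq2 hV) ?_ hu1 hu2 h01 rfl rfl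
        (h.trans h5.symm)
      · intro q ζ η
        rfl
      · intro q hq hq12
        rw [← hmod] at hq ⊢
        refine Unit2.of_GE (unit2_Ez ht _ (ins_ne 0 q) hq ?_) (GE_chart 0 (Ez k t) q)
        rw [ins_zero_one, ins_zero_two]
        exact hq12
  · exact not_unit2_node h01 rfl rfl ((unit2_Ez ht v hv hQ h12).of_GE h)

end Pool.Agent.Hhelper97.NodeBlow
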