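import Mathlib

/-!
Continuous square roots: on convex sets, on punctured polydiscs, and a function without a square
root.
-/

set_option autoImplicit false
set_option linter.unusedSectionVars false

open Filter Topology Set

namespace Pool.Agent.Hhelper97.NodeBlow

/-- `φ` has a continuous square root on `S` -/
def SqOn {X : Type*} [TopologicalSpace X] (φ : X → ℂ) (S : Set X) : Prop :=
  ∃ σ : X → ℂ, ContinuousOn σ S ∧ ∀ u ∈ S, σ u ^ 2 = φ u

theorem SqOn.mono {X : Type*} [TopologicalSpace X] {φ : X → ℂ} {S S' : Set X} (h : SqOn φ S)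
    (hS : S' ⊆ S) : SqOn φ S' := by
  obtain ⟨σ, h1, h2⟩ := h
  exact ⟨σ, h1.mono hS, fun u hu => h2 u (hS hu)⟩

theorem sqOn_convex {Z : Type*} [NormedAddCommGroup Z] [NormedSpace ℝ Z] {T : Set Z}
    (hT : Convex ℝ T) {g : Z → ℂ} (hg : ContinuousOn g T) (h0 : ∀ z ∈ T, g z ≠ 0) :
    SqOn g T := by
  classical
  rcases T.eq_empty_or_nonempty with rfl | ⟨z0, hz0⟩
  · exact ⟨g, by simp, by simp⟩
  have cov := isCoveringMap_npow (𝕜 := ℂ) 2 (by norm_num)
  have hmem : ∀ (s : unitInterval) (z : T), z0 + (s : ℝ) • ((z : Z) - z0) ∈ T := by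
    intro s z
    exact hT.add_smul_sub_mem hz0 z.2 s.2
  have hcont : Continuous (fun q : unitInterval × T => g (z0 + (q.1 : ℝ) • ((q.2 : Z) - z0))) := by
    apply hg.comp_continuous
    · fun_prop
    · exact fun q => hmem q.1 q.2
  obtain ⟨c, hc⟩ : ∃ c : ℂ, c ^ 2 = g z0 := IsAlgClosed.exists_pow_nat_eq _ (by norm_num)
  have hc0 : c ≠ 0 := by
    intro h
    rw [h] at hc
    exact h0 z0 hz0 (by rw [← hc]; norm_num)
  obtain ⟨H, hH⟩ : ∃ H : C(unitInterval × T, {x : ℂ // x ≠ 0}),
      ∀ q, (H q : ℂ) = g (z0 + (q.1 : ℝ) • ((q.2 : Z) - z0)) :=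
    ⟨⟨fun q => ⟨g (z0 + (q.1 : ℝ) • ((q.2 : Z) - z0)), h0 _ (hmem _ _)⟩,
      hcont.subtype_mk _⟩, fun q => rfl⟩
  have H0 : ∀ a : T, H (0, a) = (fun x : {x : ℂ // x ≠ 0} =>
      (⟨x ^ 2, pow_ne_zero 2 x.2⟩ : {x : ℂ // x ≠ 0}))
        ((ContinuousMap.const T (⟨c, hc0⟩ : {x : ℂ // x ≠ 0})) a) := by
    intro a
    apply Subtype.ext
    rw [hH]
    simp [hc]
  refine ⟨fun z => if h : z ∈ T then (cov.liftHomotopy H _ H0 (1, ⟨z, h⟩) : ℂ) else 0, ?_, ?_⟩
  · rw [continuousOn_iff_continuous_domRestrict]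
    have : T.domRestrict (fun z => if h : z ∈ T then (cov.liftHomotopy H _ H0 (1, ⟨z, h⟩) : ℂ) else 0)
        = fun z : T => (cov.liftHomotopy H _ H0 (1, z) : ℂ) := by
      funext z
      rw [Set.domRestrict_apply, dif_pos z.2]
    rw [this]
    exact continuous_subtype_val.comp ((cov.liftHomotopy H _ H0).continuous.comp
      (continuous_const.prodMk continuous_id))
  · intro z hz
    simp only [dif_pos hz]
    have h1 := congrFun (cov.liftHomotopy_lifts H _ H0) (1, ⟨z, hz⟩)
    have h2 := congrArg Subtype.val h1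
    simp only [Function.comp_apply] at h2
    rw [h2, hH]
    simp

/-- the coordinate function of the disc has no square root on the punctured disc, nor has its
product with a unit -/
theorem nosq {ε : ℝ} (hε : 0 < ε) {u : ℂ → ℂ} (hu : ContinuousOn u (Metric.ball 0 ε))
    (hne : ∀ ζ ∈ Metric.ball (0 : ℂ) ε, u ζ ≠ 0) {σ : ℂ → ℂ}
    (hσ : ContinuousOn σ (Metric.ball 0 ε \ {0}))
    (h : ∀ ζ ∈ Metric.ball (0 : ℂ) ε \ {0}, σ ζ ^ 2 = ζ * u ζ) : False := by
  obtain ⟨υ, h1, h2⟩ := sqOn_convex (convex_ball (0 : ℂ) ε) hu hne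
  have hυ : ∀ ζ ∈ Metric.ball (0 : ℂ) ε, υ ζ ≠ 0 := by
    intro ζ hζ h0
    apply hne ζ hζ
    rw [← h2 ζ hζ, h0]
    norm_num
  obtain ⟨ρ, hρ⟩ : ∃ ρ, ρ = ε / 4 := ⟨_, rfl⟩
  have hρ0 : 0 < ρ := by rw [hρ]; positivity
  have hn : ∀ θ : ℝ, ‖(ρ : ℂ) * Complex.exp (θ * Complex.I)‖ = ρ := by
    intro θ
    rw [norm_mul, Complex.norm_exp_ofReal_mul_I, mul_one, Complex.norm_real, Real.norm_eq_abs,
      abs_of_pos hρ0]
  have hm : ∀ θ : ℝ, (ρ : ℂ) * Complex.exp (θ * Complex.I) ∈ Metric.ball (0 : ℂ) ε \ {0} := by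
    intro θ
    constructor
    · rw [mem_ball_zero_iff, hn, hρ]
      linarith
    · intro h0
      have h3 := hn θ
      rw [mem_singleton_iff.1 h0, norm_zero] at h3
      linarith
  have hc : Continuous (fun θ : ℝ => (ρ : ℂ) * Complex.exp (θ * Complex.I)) := by fun_prop
  obtain ⟨f, hf⟩ : ∃ f : ℝ → ℂ, f = fun θ : ℝ => σ ((ρ : ℂ) * Complex.exp (θ * Complex.I)) /
      υ ((ρ : ℂ) * Complex.exp (θ * Complex.I)) := ⟨_, rfl⟩
  have hfc : Continuous f := by
    rw [hf]
    apply Continuous.div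
    · exact hσ.comp_continuous hc hm
    · exact h1.comp_continuous hc (fun θ => (hm θ).1)
    · exact fun θ => hυ _ (hm θ).1
  obtain ⟨c, hcc⟩ : ∃ c : ℂ, c ^ 2 = (ρ : ℂ) := IsAlgClosed.exists_pow_nat_eq _ (by norm_num)
  have hc0 : c ≠ 0 := by
    intro h0
    rw [h0] at hcc
    have h3 : (ρ : ℂ) = 0 := by rw [← hcc]; norm_num
    rw [Complex.ofReal_eq_zero] at h3
    linarith
  obtain ⟨g, hg⟩ : ∃ g : ℝ → ℂ, g = fun θ : ℝ => c * Complex.exp (θ / 2 * Complex.I) := ⟨_, rfl⟩
  have hgc : Continuous g := by rw [hg]; fun_prop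
  have hg0 : ∀ θ, g θ ≠ 0 := by
    intro θ
    rw [hg]
    exact mul_ne_zero hc0 (Complex.exp_ne_zero _)
  have hsq : EqOn (f ^ 2) (g ^ 2) univ := by
    intro θ _
    simp only [Pi.pow_apply]
    rw [hf, hg]
    simp only
    rw [div_pow, h2 _ (hm θ).1, h _ (hm θ), mul_div_assoc, div_self (hne _ (hm θ).1), mul_one,
      mul_pow, hcc, ← Complex.exp_nat_mul]
    congr 2
    push_cast
    ring
  have key : f (2 * Real.pi) = f 0 := by
    rw [hf]
    simp only
    have h3 : Complex.exp (((2 * Real.pi : ℝ) : ℂ) * Complex.I) = 1 := by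
      have := Complex.exp_two_pi_mul_I
      push_cast
      exact this
    rw [h3]
    simp
  have key2 : g (2 * Real.pi) = -g 0 := by
    rw [hg]
    simp only
    have h3 : Complex.exp (((2 * Real.pi : ℝ) : ℂ) / 2 * Complex.I) = -1 := by
      have := Complex.exp_pi_mul_I
      rw [← this]
      congr 1
      push_cast
      ring
    rw [h3]
    simp
  rcases isPreconnected_univ.eq_or_eq_neg_of_sq_eq hfc.continuousOn hgc.continuousOn hsq
    (fun _ => hg0 _) with h4 | h4
  · have h5 := h4 (mem_univ (2 * Real.pi))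
    have h6 := h4 (mem_univ 0)
    rw [key, h6, key2] at h5
    exact hg0 0 (self_eq_neg.1 h5)
  · have h5 := h4 (mem_univ (2 * Real.pi))
    have h6 := h4 (mem_univ 0)
    simp only [Pi.neg_apply] at h5 h6
    rw [key, h6, key2, neg_neg] at h5
    exact hg0 0 (neg_eq_self.1 h5)

section

variable {ι : Type} [Fintype ι] [DecidableEq ι]

/-- the universal covering of the punctured polydisc -/
def Tset (i : ι) (x : ι → ℂ) (ρ : ℝ) : Set (ι → ℂ) :=
  {v | (v i).re < Real.log ρ ∧ ∀ j, j ≠ i → ‖v j - x j‖ < ρ}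

/-- the punctured polydisc -/
def Sset (i : ι) (x : ι → ℂ) (ρ : ℝ) : Set (ι → ℂ) :=
  {u | (u i ≠ 0 ∧ ‖u i‖ < ρ) ∧ ∀ j, j ≠ i → ‖u j - x j‖ < ρ}

theorem convex_Tset (i : ι) (x : ι → ℂ) (ρ : ℝ) : Convex ℝ (Tset i x ρ) := by
  have h1 : Tset i x ρ = {v | (v i).re < Real.log ρ} ∩
      ⋂ j : ι, ⋂ _ : j ≠ i, {v | v j ∈ Metric.ball (x j) ρ} := by
    ext v
    simp only [Tset, mem_ofPred_eq, mem_inter_iff, mem_iInter, Metric.mem_ball, dist_eq_norm]
  rw [h1]
  apply Convex.inter
  · have : {v : ι → ℂ | (v i).re < Real.log ρ} =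
        (fun v : ι → ℂ => (v i).re) ⁻¹' (Iio (Real.log ρ)) := rfl
    rw [this]
    exact (convex_Iio (𝕜 := ℝ) _).is_linear_preimage
      { map_add := fun a b => by simp, map_smul := fun a b => by simp }
  · apply convex_iInter
    intro j
    apply convex_iInter
    intro _
    have : {v : ι → ℂ | v j ∈ Metric.ball (x j) ρ} =
        (fun v : ι → ℂ => v j) ⁻¹' (Metric.ball (x j) ρ) := rfl
    rw [this]
    exact (convex_ball (x j) ρ).is_linear_preimage
      { map_add := fun a b => by simp, map_smul := fun a b => by simp }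

theorem exp_mem {i : ι} {x : ι → ℂ} {ρ : ℝ} (hρ : 0 < ρ) {v : ι → ℂ} (hv : v ∈ Tset i x ρ) :
    Function.update v i (Complex.exp (v i)) ∈ Sset i x ρ := by
  refine ⟨⟨?_, ?_⟩, ?_⟩
  · rw [Function.update_self]
    exact Complex.exp_ne_zero _
  · rw [Function.update_self, Complex.norm_exp, ← Real.lt_log_iff_exp_lt hρ]
    exact hv.1
  · intro j hj
    rw [Function.update_of_ne hj]
    exact hv.2 j hj

theorem mem_T_of_exp {i : ι} {x : ι → ℂ} {ρ : ℝ} (hρ : 0 < ρ) {u : ι → ℂ} {w : ℂ}
    (hw : Complex.exp w = u i) (hu : u ∈ Sset i x ρ) : Function.update u i w ∈ Tset i x ρ := by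
  refine ⟨?_, ?_⟩
  · rw [Function.update_self, Real.lt_log_iff_exp_lt hρ, ← Complex.norm_exp, hw]
    exact hu.1.2
  · intro j hj
    rw [Function.update_of_ne hj]
    exact hu.2 j hj

theorem shift_mem {i : ι} {x : ι → ℂ} {ρ : ℝ} {v : ι → ℂ} (hv : v ∈ Tset i x ρ) (n : ℤ) :
    Function.update v i (v i + n * (2 * Real.pi * Complex.I)) ∈ Tset i x ρ := by
  refine ⟨?_, ?_⟩
  · rw [Function.update_self]
    have : (v i + n * (2 * Real.pi * Complex.I)).re = (v i).re := by simp
    rw [this]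
    exact hv.1
  · intro j hj
    rw [Function.update_of_ne hj]
    exact hv.2 j hj

theorem descend {i : ι} {x : ι → ℂ} {ρ : ℝ} (hρ : 0 < ρ) {σ : (ι → ℂ) → ℂ}
    (hσ : ContinuousOn σ (Tset i x ρ))
    (hp : ∀ v ∈ Tset i x ρ, σ (Function.update v i (v i + 2 * Real.pi * Complex.I)) = σ v) :
    ContinuousOn (fun u => σ (Function.update u i (Complex.log (u i)))) (Sset i x ρ) := by
  have hpn : ∀ (n : ℤ) (v), v ∈ Tset i x ρ →
      σ (Function.update v i (v i + n * (2 * Real.pi * Complex.I))) = σ v := by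
    intro n
    induction n using Int.induction_on with
    | zero => intro v _; simp
    | succ n ih =>
      intro v hv
      have h1 := hp _ (shift_mem hv n)
      rw [ih v hv, Function.update_self, Function.update_idem] at h1
      rw [← h1]
      congr 2
      push_cast
      ring
    | pred n ih =>
      intro v hv
      have h1 := hp _ (shift_mem hv (-n - 1))
      rw [Function.update_self, Function.update_idem] at h1
      rw [← h1, ← ih v hv]
      congr 2
      push_cast
      ring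
  intro u0 hu0
  have ha0 : u0 i ≠ 0 := hu0.1.1
  obtain ⟨l, hl⟩ : ∃ l : ℂ → ℂ, l = fun a => Complex.log (a / u0 i) + Complex.log (u0 i) :=
    ⟨_, rfl⟩
  have hle : ∀ a, a ≠ 0 → Complex.exp (l a) = a := by
    intro a ha
    rw [hl]
    simp only
    rw [Complex.exp_add, Complex.exp_log (div_ne_zero ha ha0), Complex.exp_log ha0,
      div_mul_cancel₀ _ ha0]
  have hlc : ContinuousAt l (u0 i) := by
    rw [hl]
    apply ContinuousAt.add _ continuousAt_const
    apply ContinuousAt.clog
    · exact continuousAt_id.div_const _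
    · rw [div_self ha0]
      exact Complex.one_mem_slitPlane
  obtain ⟨M, hM⟩ : ∃ M : (ι → ℂ) → (ι → ℂ), M = fun u => Function.update u i (l (u i)) :=
    ⟨_, rfl⟩
  have hMc : ContinuousAt M u0 := by
    rw [hM]
    have h1 : ContinuousAt (fun u : ι → ℂ => l (u i)) u0 :=
      ContinuousAt.comp (f := fun u : ι → ℂ => u i) hlc (continuous_apply i).continuousAt
    exact continuousAt_id.update i h1
  have hMT : MapsTo M (Sset i x ρ) (Tset i x ρ) := by
    intro u hu
    rw [hM]
    exact mem_T_of_exp hρ (hle _ hu.1.1) hu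
  have hcomp : ContinuousWithinAt (σ ∘ M) (Sset i x ρ) u0 :=
    (hσ (M u0) (hMT hu0)).comp hMc.continuousWithinAt hMT
  have heq : ∀ u ∈ Sset i x ρ, σ (Function.update u i (Complex.log (u i))) = (σ ∘ M) u := by
    intro u hu
    simp only [Function.comp_apply]
    rw [hM]
    simp only
    have h1 : Complex.exp (Complex.log (u i)) = Complex.exp (l (u i)) := by
      rw [Complex.exp_log hu.1.1, hle _ hu.1.1]
    obtain ⟨n, hn⟩ := Complex.exp_eq_exp_iff_exists_int.1 h1
    have h2 := hpn n _ (mem_T_of_exp hρ (hle _ hu.1.1) hu)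
    rw [Function.update_self, Function.update_idem] at h2
    rw [← h2, hn]
  exact hcomp.congr heq (heq u0 hu0)

/-- a nonvanishing continuous function on a punctured polydisc, or its product with the coordinate,
has a square root -/
theorem sq_or_sq {i : ι} {x : ι → ℂ} {ρ : ℝ} (hρ : 0 < ρ) {g : (ι → ℂ) → ℂ}
    (hg : ContinuousOn g (Sset i x ρ)) (h0 : ∀ u ∈ Sset i x ρ, g u ≠ 0) :
    SqOn g (Sset i x ρ) ∨ SqOn (fun u => u i * g u) (Sset i x ρ) := by
  have hE : Continuous (fun v : ι → ℂ => Function.update v i (Complex.exp (v i))) :=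
    continuous_id.update i (Complex.continuous_exp.comp (continuous_apply i))
  obtain ⟨σ, h1, h2⟩ := sqOn_convex (convex_Tset i x ρ)
    (g := fun v => g (Function.update v i (Complex.exp (v i))))
    (hg.comp hE.continuousOn (fun v hv => exp_mem hρ hv)) (fun v hv => h0 _ (exp_mem hρ hv))
  replace h2 : ∀ v ∈ Tset i x ρ, σ v ^ 2 = g (Function.update v i (Complex.exp (v i))) := h2
  have hsh : Continuous (fun v : ι → ℂ =>
      Function.update v i (v i + 2 * Real.pi * Complex.I)) :=
    continuous_id.update i ((continuous_apply i).add continuous_const)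
  have hshm : ∀ v ∈ Tset i x ρ,
      Function.update v i (v i + 2 * Real.pi * Complex.I) ∈ Tset i x ρ := by
    intro v hv
    have := shift_mem hv 1
    simpa using this
  have hσ0 : ∀ v ∈ Tset i x ρ, σ v ≠ 0 := by
    intro v hv h
    apply h0 _ (exp_mem hρ hv)
    rw [← h2 v hv, h]
    norm_num
  have hsq : EqOn ((fun v => σ (Function.update v i (v i + 2 * Real.pi * Complex.I))) ^ 2)
      (σ ^ 2) (Tset i x ρ) := by
    intro v hv
    simp only [Pi.pow_apply]
    rw [h2 v hv, h2 _ (hshm v hv)]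
    simp only [Function.update_self, Function.update_idem]
    rw [Complex.exp_add, Complex.exp_two_pi_mul_I, mul_one]
  have hcs : ContinuousOn (fun v => σ (Function.update v i (v i + 2 * Real.pi * Complex.I)))
      (Tset i x ρ) := h1.comp hsh.continuousOn hshm
  have hlog : ∀ u ∈ Sset i x ρ, Function.update (Function.update u i (Complex.log (u i))) i
      (Complex.exp ((Function.update u i (Complex.log (u i))) i)) = u := by
    intro u hu
    rw [Function.update_self, Complex.exp_log hu.1.1, Function.update_idem,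
      Function.update_eq_self]
  rcases (convex_Tset i x ρ).isPreconnected.eq_or_eq_neg_of_sq_eq hcs h1 hsq
    (fun hv => hσ0 _ hv) with h3 | h3
  · left
    refine ⟨_, descend hρ h1 (fun v hv => h3 hv), ?_⟩
    intro u hu
    have h4 := h2 _ (mem_T_of_exp hρ (Complex.exp_log hu.1.1) hu)
    rw [h4, hlog u hu]
  · right
    have h5 : ContinuousOn (fun v => σ v * Complex.exp (v i / 2)) (Tset i x ρ) := by
      apply h1.mul
      exact (by fun_prop : Continuous (fun v : ι → ℂ => Complex.exp (v i / 2))).continuousOn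
    refine ⟨_, descend hρ h5 ?_, ?_⟩
    · intro v hv
      have h6 := h3 hv
      simp only [Pi.neg_apply] at h6
      simp only [Function.update_self]
      rw [h6]
      have h7 : (v i + 2 * Real.pi * Complex.I) / 2 = v i / 2 + Real.pi * Complex.I := by ring
      rw [h7, Complex.exp_add, Complex.exp_pi_mul_I]
      ring
    · intro u hu
      have h4 := h2 _ (mem_T_of_exp hρ (Complex.exp_log hu.1.1) hu)
      simp only at h4 ⊢
      rw [mul_pow, h4, hlog u hu, Function.update_self, ← Complex.exp_nat_mul]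
      have h8 : ((2 : ℕ) : ℂ) * (Complex.log (u i) / 2) = Complex.log (u i) := by
        push_cast; ring
      rw [h8, Complex.exp_log hu.1.1]
      ring

end

end Pool.Agent.Hhelper97.NodeBlow
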